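import Pool.Agent.Lib.H45Osc.Copy

/-!
# Fine machines on the ordinals

A fine machine is a well-ordered family of finitary closure operators on sets of ordinals with a
condensation property.  Notation: `N s X` closure of `X` at the location `s`, `D s` the set of
ordinals which occur at the locations before `s` (an ordinal).
-/

set_option autoImplicit false

open Set Ordinal

namespace Pool.Agent.Lib.H91W

open Pool.Agent.Lib.H45Osc (w1 isOmega1_W)

/-- A fine machine. -/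
structure FM (Loc : Type 1) [LinearOrder Loc] [WellFoundedLT Loc] where
  N : Loc → Set Ordinal.{0} → Set Ordinal.{0}
  D : Loc → Ordinal.{0}
  subset : ∀ s X, X ⊆ N s X
  mono : ∀ s X Y, X ⊆ Y → N s X ⊆ N s Y
  idem : ∀ s X, N s (N s X) ⊆ N s X
  fin : ∀ s X, ∀ x ∈ N s X, ∃ F : Finset Ordinal.{0}, (F : Set Ordinal.{0}) ⊆ X ∧ x ∈ N s F
  loc : ∀ s t X, s ≤ t → N s X ⊆ N t X
  ctb : ∀ s X, X.Countable → (N s X).Countable
  dmono : ∀ s t, s ≤ t → D s ≤ D t
  dom : ∀ s X, N s X ⊆ N s (X ∩ Iio (D s)) ∪ X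
  lim : ∀ s, ((∀ t < s, ∃ t' < s, t < t') ∧ (∀ X, ∀ x ∈ N s X, x ∈ X ∨ ∃ t < s, x ∈ N t X) ∧
      ∀ x < D s, ∃ t < s, x < D t) ∨
    ∃ t < s, (∀ t' < s, t' ≤ t) ∧ ∃ C : Set Ordinal.{0}, C.Countable ∧ ∀ X, N s X ⊆ N t (X ∪ C)
  cond : ∀ s (σ : Ordinal.{0} → Ordinal.{0}), StrictMono σ → N s (range σ) ⊆ range σ →
    ∃ s' ≤ s, (∀ Y, σ '' N s' Y = N s (σ '' Y)) ∧ (∀ x, x < D s' ↔ σ x < D s) ∧
      ∀ t' < s', ∃ t < s, ∀ Y, σ '' N t' Y = N t (σ '' Y)

/-- `Y` is unbounded in `β`. -/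
def Unb (β : Ordinal.{0}) (Y : Set Ordinal.{0}) : Prop := ∀ x < β, ∃ y ∈ Y, x ≤ y ∧ y < β

/-- `β` has uncountable cofinality (or is `0` or a successor: excluded). -/
structure CB (β : Ordinal.{0}) : Prop where
  pos : 0 < β
  succ : ∀ x < β, x + 1 < β
  bdd : ∀ c : ℕ → Ordinal.{0}, (∀ n, c n < β) → ∃ b < β, ∀ n, c n < b

/-- `g` is a normal function from `ω₁` cofinal in `β`. -/
structure NC (g : Iio w1 → Ordinal.{0}) (β : Ordinal.{0}) : Prop where
  mono : StrictMono g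
  lt : ∀ i, g i < β
  cof : ∀ x < β, ∃ i, x < g i
  cont : ∀ i ∈ Pool.Agent.Lib.H45Osc.limitPts, ∀ x < g i, ∃ v < i, x < g v

section

variable {Loc : Type 1} [LinearOrder Loc] [WellFoundedLT Loc] (M : FM Loc)

/-- `β` is singularized at `s`. -/
def Sing (s : Loc) (β : Ordinal.{0}) : Prop :=
  ∃ γ < β, ∃ p : Finset Ordinal.{0}, Unb β (M.N s (Iio γ ∪ p))

/-- `s` is the least location at which `β` is singularized. -/
def Least (s : Loc) (β : Ordinal.{0}) : Prop := Sing M s β ∧ ∀ t < s, ¬ Sing M t β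

/-- `p` generates the domain of `s` over `β`. -/
def Gen (s : Loc) (β : Ordinal.{0}) (p : Finset Ordinal.{0}) : Prop :=
  Iio (M.D s) ⊆ M.N s (Iio β ∪ p)

/-- `p` is the least set of generators. -/
def LGen (s : Loc) (β : Ordinal.{0}) (p : Finset Ordinal.{0}) : Prop :=
  Gen M s β p ∧ ∀ r, toColex r < toColex p → ¬ Gen M s β r

/-- The hull of `γ` and `r` is unbounded in `β`. -/
def U (s : Loc) (β γ : Ordinal.{0}) (r : Finset Ordinal.{0}) : Prop := Unb β (M.N s (Iio γ ∪ r))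

/-- The process which replaces successor ordinals by additional parameters ends with `q`, `γ`. -/
inductive Ch (s : Loc) (β : Ordinal.{0}) :
    Finset Ordinal.{0} → Finset Ordinal.{0} → Ordinal.{0} → Prop
  | base (r : Finset Ordinal.{0}) (γ : Ordinal.{0}) : U M s β γ r → (∀ γ' < γ, ¬ U M s β γ' r) →
      (∀ δ, γ ≠ δ + 1) → Ch s β r r γ
  | step (r : Finset Ordinal.{0}) (δ : Ordinal.{0}) (q : Finset Ordinal.{0}) (γ : Ordinal.{0}) :
      U M s β (δ + 1) r → ¬ U M s β δ r → Ch s β (insert δ r) q γ → Ch s β r q γ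

/-- `γ` is the value of the function `γ*` at `β`. -/
def IsGs (β γ : Ordinal.{0}) : Prop :=
  ∃ s, Least M s β ∧ ∃ p, LGen M s β p ∧ ∃ q, Ch M s β p q γ

open Classical in
/-- The function `γ*`. -/
noncomputable def gs (β : Ordinal.{0}) : Ordinal.{0} := if h : ∃ γ, IsGs M β γ then h.choose else β

open Classical in
/-- The function `h`. -/
noncomputable def hf (C : Set Ordinal.{0}) (loc : Ordinal.{0} → Ordinal.{0}) (β : Ordinal.{0}) :
    Ordinal.{0} :=
  if β ∈ C ∧ gs M β < β then hf C loc (gs M β) else loc β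
termination_by β
decreasing_by
  rename_i h
  exact h.2

end

end Pool.Agent.Lib.H91W
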