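import Pool.Agent.Lib.H91W.A0

/-!
# Unbounded sets, normal functions
-/

set_option autoImplicit false

open Set Ordinal

namespace Pool.Agent.Lib.H91W

open Pool.Agent.Lib.H45Osc (w1 isOmega1_W limitPts isClub_limitPts)

theorem Unb.mono {β : Ordinal.{0}} {Y Z : Set Ordinal.{0}} (h : Unb β Y) (hYZ : Y ⊆ Z) :
    Unb β Z := by
  intro x hx
  obtain ⟨y, hy, h1, h2⟩ := h x hx
  exact ⟨y, hYZ hy, h1, h2⟩

theorem not_unb_iff {β : Ordinal.{0}} {Y : Set Ordinal.{0}} :
    ¬ Unb β Y ↔ ∃ x < β, ∀ y ∈ Y, y < β → y < x := by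
  unfold Unb
  push Not
  constructor
  · rintro ⟨x, hx, h⟩
    refine ⟨x, hx, fun y hy hyβ => ?_⟩
    by_contra hn
    exact absurd hyβ (not_lt.2 (h y hy (not_lt.1 hn)))
  · rintro ⟨x, hx, h⟩
    refine ⟨x, hx, fun y hy hxy => ?_⟩
    by_contra hn
    exact absurd (h y hy (not_le.1 hn)) (not_lt.2 hxy)

theorem not_unb_union {β : Ordinal.{0}} {Y Z : Set Ordinal.{0}} (hY : ¬ Unb β Y) (hZ : ¬ Unb β Z) :
    ¬ Unb β (Y ∪ Z) := by
  rw [not_unb_iff] at hY hZ ⊢
  obtain ⟨x, hx, h1⟩ := hY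
  obtain ⟨x', hx', h2⟩ := hZ
  refine ⟨max x x', max_lt hx hx', ?_⟩
  rintro y (hy | hy) hyβ
  · exact (h1 y hy hyβ).trans_le (le_max_left _ _)
  · exact (h2 y hy hyβ).trans_le (le_max_right _ _)

theorem not_unb_Iio {β γ : Ordinal.{0}} (h : γ < β) : ¬ Unb β (Iio γ) := by
  rw [not_unb_iff]
  exact ⟨γ, h, fun y hy _ => hy⟩

theorem not_unb_finite {β : Ordinal.{0}} (h0 : 0 < β) (hs : ∀ x < β, x + 1 < β)
    (F : Finset Ordinal.{0}) : ¬ Unb β (F : Set Ordinal.{0}) := by
  classical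
  induction F using Finset.induction_on with
  | empty =>
    rw [not_unb_iff]
    exact ⟨0, h0, fun y hy => absurd hy (by simp)⟩
  | insert a F _ ih =>
    rw [Finset.coe_insert, Set.insert_eq]
    refine not_unb_union ?_ ih
    rw [not_unb_iff]
    by_cases ha : a < β
    · refine ⟨a + 1, hs a ha, ?_⟩
      rintro y rfl _
      exact lt_add_one y
    · refine ⟨0, h0, ?_⟩
      rintro y rfl hy
      exact absurd hy ha

theorem CB.not_unb_iUnion {β : Ordinal.{0}} (hβ : CB β) {ι : Type*} [Countable ι]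
    (Y : ι → Set Ordinal.{0}) (h : ∀ n, ¬ Unb β (Y n)) : ¬ Unb β (⋃ n, Y n) := by
  cases isEmpty_or_nonempty ι with
  | inl _ =>
    rw [Set.iUnion_of_empty, not_unb_iff]
    exact ⟨0, hβ.pos, fun y hy => absurd hy (Set.notMem_empty y)⟩
  | inr _ =>
    obtain ⟨f, hf⟩ := exists_surjective_nat ι
    have h' : ∀ n, ∃ x < β, ∀ y ∈ Y n, y < β → y < x := fun n => not_unb_iff.1 (h n)
    choose x hx1 hx2 using h'
    obtain ⟨b, hb, hb'⟩ := hβ.bdd (fun n => x (f n)) fun n => hx1 _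
    rw [not_unb_iff]
    refine ⟨b, hb, ?_⟩
    intro y hy hyβ
    obtain ⟨i, hi⟩ := Set.mem_iUnion.1 hy
    obtain ⟨n, rfl⟩ := hf i
    exact (hx2 _ y hi hyβ).trans (hb' n)

theorem CB.not_unb_countable {β : Ordinal.{0}} (hβ : CB β) {C : Set Ordinal.{0}}
    (hC : C.Countable) : ¬ Unb β C := by
  classical
  have : Countable C := hC
  have h1 : C = ⋃ x : C, ({x.1} : Set Ordinal.{0}) := by
    ext y
    simp
  rw [h1]
  refine hβ.not_unb_iUnion _ fun x => ?_
  have h2 := not_unb_finite hβ.pos hβ.succ {x.1}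
  rwa [Finset.coe_singleton] at h2

theorem exists_lub {g : Iio w1 → Ordinal.{0}} (i : Iio w1) {b : Ordinal.{0}} (hb : ∀ v < i, g v < b) :
    ∃ a ≤ b, (∀ v < i, g v < a) ∧ ∀ x < a, ∃ v < i, x ≤ g v := by
  obtain ⟨a, ha, hm⟩ := WellFounded.has_min (wellFounded_lt (α := Ordinal.{0}))
    {a | ∀ v < i, g v < a} ⟨b, hb⟩
  refine ⟨a, not_lt.1 (hm b hb), ha, fun x hx => ?_⟩
  by_contra hn
  push Not at hn
  exact hm x hn hx

theorem NC.cb {g : Iio w1 → Ordinal.{0}} {β : Ordinal.{0}} (h : NC g β) : CB β := by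
  obtain ⟨i0⟩ := isOmega1_W.nonempty
  refine ⟨bot_le.trans_lt (h.lt i0), ?_, ?_⟩
  · intro x hx
    obtain ⟨i, hi⟩ := h.cof x hx
    exact (Order.add_one_le_of_lt hi).trans_lt (h.lt i)
  · intro c hc
    choose i hi using fun n => h.cof (c n) (hc n)
    obtain ⟨j, hj⟩ := isOmega1_W.exists_gt (Set.countable_range i)
    exact ⟨g j, h.lt j, fun n => (hi n).trans (h.mono (hj _ ⟨n, rfl⟩))⟩

/-- There is a normal cofinal function as soon as there is a cofinal function. -/
theorem exists_nc {β : Ordinal.{0}} (hβ : CB β) (m : Iio w1 → Ordinal.{0}) (hm : ∀ i, m i < β)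
    (hm' : ∀ x < β, ∃ i, x ≤ m i) : ∃ c, NC c β := by
  -- c i = the least strict upper bound of c v, m v, v < i
  let c : Iio w1 → Ordinal.{0} := (wellFounded_lt (α := Iio w1)).fix
    fun i ih => sInf {x | ∀ v, ∀ hv : v < i, ih v hv < x ∧ m v < x}
  have hc : ∀ i, c i = sInf {x | ∀ v < i, c v < x ∧ m v < x} := by
    intro i
    exact WellFounded.fix_eq _ _ i
  have hlt : ∀ i, c i < β ∧ ∀ v < i, c v < c i ∧ m v < c i := by
    intro i
    induction i using WellFoundedLT.induction with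
    | ind i ih =>
      have hcount := isOmega1_W.countable_Iio i
      have : ∃ b < β, ∀ v < i, c v < b ∧ m v < b := by
        by_cases he : (Iio i).Nonempty
        · have hne := isOmega1_W.nonempty
          obtain ⟨f, hf⟩ := (Set.countable_iff_exists_subset_range).1 hcount
          obtain ⟨v0, hv0⟩ := he
          classical
          let f' : ℕ → Iio w1 := fun n => if f n < i then f n else v0
          have hf' : ∀ n, f' n < i := by
            intro n
            simp only [f']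
            split_ifs with h
            · exact h
            · exact hv0
          obtain ⟨b, hb, hb'⟩ := hβ.bdd (fun n => max (c (f' n)) (m (f' n)))
            fun n => max_lt (ih _ (hf' n)).1 (hm _)
          refine ⟨b, hb, fun v hv => ?_⟩
          obtain ⟨n, hn⟩ := hf hv
          have h1 : f' n = v := by
            simp only [f']
            rw [hn, if_pos hv]
          have h2 := hb' n
          rw [h1] at h2
          exact max_lt_iff.1 h2
        · exact ⟨0, hβ.pos, fun v hv => absurd ⟨v, hv⟩ he⟩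
      obtain ⟨b, hb, hb'⟩ := this
      have h1 : c i ∈ {x | ∀ v < i, c v < x ∧ m v < x} := by
        rw [hc]
        exact csInf_mem ⟨b, hb'⟩
      refine ⟨?_, h1⟩
      rw [hc]
      exact (csInf_le' (show b ∈ {x | ∀ v < i, c v < x ∧ m v < x} from hb')).trans_lt hb
  refine ⟨c, ?_, fun i => (hlt i).1, ?_, ?_⟩
  · exact fun v i hv => ((hlt i).2 v hv).1
  · intro x hx
    obtain ⟨i, hi⟩ := hm' x hx
    obtain ⟨j, hj⟩ := isOmega1_W.exists_lt i
    exact ⟨j, hi.trans_lt ((hlt j).2 i hj).2⟩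
  · intro i hi x hx
    rw [hc] at hx
    have h1 := notMem_of_lt_csInf' hx
    simp only [Set.mem_ofPred_eq, not_forall] at h1
    obtain ⟨v, hv, h1⟩ := h1
    obtain ⟨w, hvw, hwi⟩ := hi.2 v hv
    refine ⟨w, hwi, ?_⟩
    by_contra hn
    rw [not_lt] at hn
    exact h1 ⟨((hlt w).2 v hvw).1.trans_le hn, ((hlt w).2 v hvw).2.trans_le hn⟩

/-- Two normal cofinal functions agree on a club. -/
theorem nc_agree {β : Ordinal.{0}} {g g' : Iio w1 → Ordinal.{0}} (h : NC g β) (h' : NC g' β) :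
    ∃ E : Set (Iio w1), IsClub E ∧ ∀ i ∈ E, g i = g' i := by
  choose F hF using fun i => h'.cof (g i) (h.lt i)
  choose G hG using fun i => h.cof (g' i) (h'.lt i)
  refine ⟨({i | ∀ v < i, F v < i} ∩ {i | ∀ v < i, G v < i}) ∩ limitPts,
    ((isOmega1_W.isClub_closed F).inter isOmega1_W.cof_ne
      (isOmega1_W.isClub_closed G)).inter isOmega1_W.cof_ne isClub_limitPts, ?_⟩
  rintro i ⟨⟨h1, h2⟩, h3⟩
  apply le_antisymm
  · by_contra hn
    rw [not_le] at hn
    obtain ⟨v, hv, hv'⟩ := h.cont i h3 _ hn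
    exact absurd (hv'.trans ((hF v).trans (h'.mono (h1 v hv)))) (lt_irrefl _)
  · by_contra hn
    rw [not_le] at hn
    obtain ⟨v, hv, hv'⟩ := h'.cont i h3 _ hn
    exact absurd (hv'.trans ((hG v).trans (h.mono (h2 v hv)))) (lt_irrefl _)

end Pool.Agent.Lib.H91W
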