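import Pool.Agent.Lib.H91W.A1

/-!
# The least singularizing location; collapses
-/

set_option autoImplicit false

open Set Ordinal

namespace Pool.Agent.Lib.H91W

open Pool.Agent.Lib.H45Osc (w1 isOmega1_W limitPts isClub_limitPts)

variable {Loc : Type 1} [LinearOrder Loc] [WellFoundedLT Loc] {M : FM Loc}

theorem N_sub {s t : Loc} (h : s ≤ t) {X Z : Set Ordinal.{0}} (hX : X ⊆ M.N t Z) :
    M.N s X ⊆ M.N t Z :=
  (M.mono s X _ hX).trans ((M.loc s t _ h).trans (M.idem t Z))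

theorem N_sub' {s t : Loc} (h : s ≤ t) {X Z : Set Ordinal.{0}} (hX : X ⊆ Z) :
    M.N s X ⊆ M.N t Z :=
  (M.mono s X _ hX).trans (M.loc s t _ h)

/-- The properties of a least location. -/
theorem Least.lim {s : Loc} {β : Ordinal.{0}} (hβ : CB β) (h : Least M s β) :
    (∀ t < s, ∃ t' < s, t < t') ∧ (∀ X, ∀ x ∈ M.N s X, ∃ t < s, x ∈ M.N t X) ∧
      ∀ x < M.D s, ∃ t < s, x < M.D t := by
  classical
  rcases M.lim s with ⟨h1, h2, h3⟩ | ⟨t, hts, hmax, C, hC, h4⟩
  · refine ⟨h1, ?_, h3⟩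
    -- there is a location below `s`
    have hex : ∃ t, t < s := by
      by_contra hn
      push Not at hn
      obtain ⟨γ, hγ, p, hU⟩ := h.1
      have h5 : M.N s (Iio γ ∪ p) ⊆ Iio γ ∪ p := by
        intro x hx
        rcases h2 _ x hx with h5 | ⟨t, ht, -⟩
        · exact h5
        · exact absurd ht (not_lt.2 (hn t))
      exact not_unb_union (not_unb_Iio hγ) (not_unb_finite hβ.pos hβ.succ p) (hU.mono h5)
    obtain ⟨t0, ht0⟩ := hex
    intro X x hx
    rcases h2 X x hx with h5 | h5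
    · exact ⟨t0, ht0, M.subset t0 X h5⟩
    · exact h5
  · exfalso
    obtain ⟨γ, hγ, p, hU⟩ := h.1
    have hcount : {F : Finset Ordinal.{0} | (F : Set Ordinal.{0}) ⊆ C}.Countable := by
      have h5 := (Set.countable_ofPred_finite_subset hC).preimage
        (f := fun F : Finset Ordinal.{0} => (F : Set Ordinal.{0})) Finset.coe_injective
      refine h5.mono ?_
      intro F hF
      exact ⟨F.finite_toSet, hF⟩
    have : Countable {F : Finset Ordinal.{0} | (F : Set Ordinal.{0}) ⊆ C} := hcount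
    let Y : {F : Finset Ordinal.{0} | (F : Set Ordinal.{0}) ⊆ C} → Set Ordinal.{0} := fun F =>
        M.N t (Iio γ ∪ ((p ∪ F.1 : Finset Ordinal.{0}) : Set Ordinal.{0}))
    refine hβ.not_unb_iUnion Y ?_ (hU.mono ?_)
    · intro F hF
      exact h.2 t hts ⟨γ, hγ, p ∪ F.1, hF⟩
    · intro x hx
      obtain ⟨F, hF, hxF⟩ := M.fin t _ x (h4 _ hx)
      let F' : Finset Ordinal.{0} := F.filter (· ∈ C)
      refine Set.mem_iUnion.2 ⟨⟨F', ?_⟩, ?_⟩
      · intro y hy
        exact (Finset.mem_filter.1 hy).2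
      · refine M.mono t _ _ ?_ hxF
        intro y hy
        rcases hF hy with (hy1 | hy1) | hy1
        · exact Or.inl hy1
        · right
          rw [Finset.coe_union]
          exact Or.inl hy1
        · right
          rw [Finset.coe_union]
          right
          exact Finset.mem_coe.2 (Finset.mem_filter.2 ⟨hy, hy1⟩)

/-- The least location is unique. -/
theorem Least.unique {s t : Loc} {β : Ordinal.{0}} (h : Least M s β) (h' : Least M t β) : s = t :=
  le_antisymm (not_lt.1 fun hlt => h.2 t hlt h'.1) (not_lt.1 fun hlt => h'.2 s hlt h.1)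

theorem exists_least {β : Ordinal.{0}} (h : ∃ s, Sing M s β) : ∃ s, Least M s β := by
  obtain ⟨s, hs, hm⟩ := WellFounded.has_min (wellFounded_lt (α := Loc)) {s | Sing M s β} h
  exact ⟨s, hs, fun t ht hn => hm t hn ht⟩

/-- The data of a collapse. -/
structure Col (M : FM Loc) (s s' : Loc) (σ : Ordinal.{0} → Ordinal.{0}) : Prop where
  mono : StrictMono σ
  le : s' ≤ s
  eq : ∀ Y, σ '' M.N s' Y = M.N s (σ '' Y)
  dom : ∀ x, x < M.D s' ↔ σ x < M.D s
  low : ∀ t' < s', ∃ t < s, ∀ Y, σ '' M.N t' Y = M.N t (σ '' Y)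

/-- Collapsing a closed set. -/
theorem exists_col (s : Loc) {X : Set Ordinal.{0}} (hX : M.N s X ⊆ X) {l : Ordinal.{0}}
    (hl : M.D s ≤ l) : ∃ (σ : Ordinal.{0} → Ordinal.{0}) (s' : Loc), range σ = X ∪ Ici l ∧
      Col M s s' σ := by
  have hnb : ¬ BddAbove (X ∪ Ici l) := by
    rintro ⟨b, hb⟩
    have h1 : max b l + 1 ∈ X ∪ Ici l := Or.inr ((le_max_right b l).trans (le_add_right le_rfl))
    exact absurd ((le_max_left b l).trans_lt (lt_add_one _)) (not_lt.2 (hb h1))
  have hr : range (enumOrd (X ∪ Ici l)) = X ∪ Ici l := range_enumOrd hnb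
  have hm : StrictMono (enumOrd (X ∪ Ici l)) := enumOrd_strictMono hnb
  have hcl : M.N s (range (enumOrd (X ∪ Ici l))) ⊆ range (enumOrd (X ∪ Ici l)) := by
    rw [hr]
    refine (M.dom s _).trans (union_subset ?_ subset_rfl)
    refine Subset.trans ?_ (Subset.trans hX subset_union_left)
    refine M.mono s _ _ ?_
    rintro x ⟨hx | hx, hx'⟩
    · exact hx
    · exact absurd (lt_of_lt_of_le hx' hl) (not_lt.2 hx)
  obtain ⟨s', h1, h2, h3, h4⟩ := M.cond s _ hm hcl
  exact ⟨_, s', hr, hm, h1, h2, h3, h4⟩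

theorem StrictMono.fix {σ : Ordinal.{0} → Ordinal.{0}} (hσ : StrictMono σ) {β : Ordinal.{0}}
    (h : Iio β ⊆ range σ) : ∀ x < β, σ x = x := by
  intro x
  induction x using WellFoundedLT.induction with
  | ind x ih =>
    intro hx
    obtain ⟨y, hy⟩ := h hx
    rcases lt_trichotomy y x with h1 | h1 | h1
    · rw [ih y h1 (h1.trans hx)] at hy
      exact absurd hy h1.ne
    · rw [← h1]
      rw [h1]
      rw [h1] at hy
      exact hy
    · have h2 : σ x < x := by
        have := hσ h1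
        rwa [hy] at this
      exact absurd (hσ.le_apply (x := x)) (not_le.2 h2)

theorem StrictMono.exists_image {σ : Ordinal.{0} → Ordinal.{0}} {p : Finset Ordinal.{0}}
    (h : (p : Set Ordinal.{0}) ⊆ range σ) : ∃ r : Finset Ordinal.{0}, r.image σ = p := by
  classical
  have h' : (p : Set Ordinal.{0}) ⊆ σ '' univ := by rwa [image_univ]
  obtain ⟨r, -, hr⟩ := Finset.subset_set_image_iff.1 h'
  exact ⟨r, hr⟩

theorem image_Iio {σ : Ordinal.{0} → Ordinal.{0}} {β : Ordinal.{0}} (h : ∀ x < β, σ x = x)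
    {γ : Ordinal.{0}} (hγ : γ ≤ β) : σ '' Iio γ = Iio γ := by
  ext y
  constructor
  · rintro ⟨x, hx, rfl⟩
    rw [h x (lt_of_lt_of_le hx hγ)]
    exact hx
  · intro hy
    exact ⟨y, hy, h y (lt_of_lt_of_le hy hγ)⟩

theorem image_set {σ : Ordinal.{0} → Ordinal.{0}} {β : Ordinal.{0}} (h : ∀ x < β, σ x = x)
    {γ : Ordinal.{0}} (hγ : γ ≤ β) (r : Finset Ordinal.{0}) :
    σ '' (Iio γ ∪ r) = Iio γ ∪ (r.image σ : Finset Ordinal.{0}) := by
  rw [image_union, image_Iio h hγ, Finset.coe_image]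

/-- Unboundedness and collapses. -/
theorem unb_image {σ : Ordinal.{0} → Ordinal.{0}} (hσ : StrictMono σ) {β : Ordinal.{0}}
    (h : ∀ x < β, σ x = x) {Y : Set Ordinal.{0}} : Unb β (σ '' Y) ↔ Unb β Y := by
  constructor
  · intro hU x hx
    obtain ⟨_, ⟨y, hy, rfl⟩, h1, h2⟩ := hU x hx
    have h3 : y < β := (hσ.le_apply).trans_lt h2
    rw [h y h3] at h1
    exact ⟨y, hy, h1, h3⟩
  · intro hU x hx
    obtain ⟨y, hy, h1, h2⟩ := hU x hx
    refine ⟨y, ⟨y, hy, h y h2⟩, h1, h2⟩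

end Pool.Agent.Lib.H91W
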