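import Pool.Agent.Lib.H91W.A2

/-!
# Generators over `β`
-/

set_option autoImplicit false

open Set Ordinal

namespace Pool.Agent.Lib.H91W

open Pool.Agent.Lib.H45Osc (w1 isOmega1_W limitPts isClub_limitPts)

/-- The colexicographic order of the finite sets of ordinals is a well-order. -/
theorem colex_wf : WellFoundedLT (Colex (Finset Ordinal.{0})) := by
  classical
  let f : Colex (Finset Ordinal.{0}) → Colex (Ordinal.{0} →₀ ℕ) := fun s =>
    toColex (Finsupp.indicator (ofColex s) fun _ _ => 1)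
  have hval : ∀ s a, (ofColex (f s)) a = if a ∈ ofColex s then 1 else 0 := by
    intro s a
    simp only [f, ofColex_toColex, Finsupp.indicator_apply]
    split_ifs <;> rfl
  have hlt : ∀ s t, s < t → f s < f t := by
    intro s t hst
    have h1 : toColex (ofColex s) < toColex (ofColex t) := hst
    rw [Finset.Colex.lt_iff_exists_filter_lt] at h1
    obtain ⟨w, hw, h2⟩ := h1
    rw [Finset.mem_sdiff] at hw
    rw [Finsupp.Colex.lt_iff]
    refine ⟨w, ?_, ?_⟩
    · intro j hj
      rw [hval, hval]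
      have h3 : j ∈ ofColex s ↔ j ∈ ofColex t := by
        have h4 := congrArg (j ∈ ·) h2
        simp only [Finset.mem_filter, eq_iff_iff] at h4
        constructor
        · intro h5
          exact (h4.1 ⟨h5, hj⟩).1
        · intro h5
          exact (h4.2 ⟨h5, hj⟩).1
      simp only [h3]
    · rw [hval, hval, if_neg hw.2, if_pos hw.1]
      exact zero_lt_one
  exact ⟨Subrelation.wf (fun {s t} h => hlt s t h) (InvImage.wf f wellFounded_lt)⟩

variable {Loc : Type 1} [LinearOrder Loc] [WellFoundedLT Loc] {M : FM Loc}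

/-- Elements outside of the domain are irrelevant. -/
theorem N_filter (s : Loc) (Z : Set Ordinal.{0}) (p : Finset Ordinal.{0}) :
    M.N s (Z ∪ p) ⊆ M.N s (Z ∪ (p.filter (· < M.D s) : Finset Ordinal.{0})) ∪ p := by
  refine (M.dom s _).trans (union_subset ?_ ?_)
  · refine Subset.trans (M.mono s _ _ ?_) subset_union_left
    rintro x ⟨hx | hx, hx'⟩
    · exact Or.inl hx
    · exact Or.inr (Finset.mem_coe.2 (Finset.mem_filter.2 ⟨hx, hx'⟩))
  · rintro x (hx | hx)
    · exact Or.inl (M.subset s _ (Or.inl hx))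
    · exact Or.inr hx

/-- There are finitely many generators. -/
theorem exists_gen {s : Loc} {β : Ordinal.{0}} (h : Least M s β) : ∃ p, Gen M s β p := by
  classical
  obtain ⟨⟨γ, hγ, p0, hU⟩, hmin⟩ := h
  obtain ⟨σ, s', hr, hc⟩ := exists_col (M := M) s (X := M.N s (Iio β ∪ p0)) (M.idem s _)
    (l := max (M.D s) β) (le_max_left _ _)
  have hsub : Iio β ∪ (p0 : Set Ordinal.{0}) ⊆ range σ := by
    rw [hr]
    exact (M.subset s _).trans subset_union_left
  have hfix : ∀ x < β, σ x = x := Pool.Agent.Lib.H91W.StrictMono.fix hc.mono (subset_union_left.trans hsub)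
  obtain ⟨p, hp⟩ := StrictMono.exists_image (σ := σ) (p := p0) (subset_union_right.trans hsub)
  have hs' : s' = s := by
    refine le_antisymm hc.le (not_lt.1 fun hlt => hmin s' hlt ⟨γ, hγ, p, ?_⟩)
    rw [← unb_image hc.mono hfix, hc.eq, image_set hfix hγ.le, hp]
    exact hU
  subst hs'
  refine ⟨p, ?_⟩
  intro x hx
  have h1 : σ x < M.D s' := (hc.dom x).1 hx
  have h2 : σ x ∈ range σ := ⟨x, rfl⟩
  rw [hr] at h2
  rcases h2 with h2 | h2
  · have h3 : M.N s' (Iio β ∪ p0) = σ '' M.N s' (Iio β ∪ p) := by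
      rw [hc.eq, image_set hfix le_rfl, hp]
    rw [h3] at h2
    obtain ⟨y, hy, hy'⟩ := h2
    rw [← hc.mono.injective hy']
    exact hy
  · exact absurd (h1.trans_le (le_max_left _ _)) (not_lt.2 h2)

theorem exists_lgen {s : Loc} {β : Ordinal.{0}} (h : Least M s β) : ∃ p, LGen M s β p := by
  have := colex_wf
  obtain ⟨p, hp⟩ := exists_gen h
  obtain ⟨q, hq, hm⟩ := WellFounded.has_min (wellFounded_lt (α := Colex (Finset Ordinal.{0})))
    {q | Gen M s β (ofColex q)} ⟨toColex p, hp⟩
  exact ⟨ofColex q, hq, fun r hr hg => hm (toColex r) hg hr⟩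

theorem LGen.unique {s : Loc} {β : Ordinal.{0}} {p q : Finset Ordinal.{0}} (h : LGen M s β p)
    (h' : LGen M s β q) : p = q := by
  rcases lt_trichotomy (toColex p) (toColex q) with h1 | h1 | h1
  · exact absurd h.1 (h'.2 _ h1)
  · exact toColex_inj.1 h1
  · exact absurd h'.1 (h.2 _ h1)

theorem LGen.sub {s : Loc} {β : Ordinal.{0}} {p : Finset Ordinal.{0}} (h : LGen M s β p) :
    (p : Set Ordinal.{0}) ⊆ Iio (M.D s) := by
  classical
  by_contra hn
  have hne : p.filter (· < M.D s) ≠ p := by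
    intro he
    apply hn
    intro x hx
    rw [← he] at hx
    exact (Finset.mem_filter.1 hx).2
  have hss : p.filter (· < M.D s) ⊂ p := Finset.ssubset_iff_subset_ne.2 ⟨Finset.filter_subset _ _, hne⟩
  refine h.2 _ (Finset.Colex.toColex_lt_toColex_of_ssubset hss) ?_
  intro x hx
  rcases N_filter s _ _ (h.1 hx) with h1 | h1
  · exact h1
  · exact M.subset s _ (Or.inr (Finset.mem_coe.2 (Finset.mem_filter.2 ⟨h1, hx⟩)))

/-- Some `γ < β` together with the generators has an unbounded hull. -/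
theorem Gen.exists_u {s : Loc} {β : Ordinal.{0}} (hβ : CB β) (h : Least M s β)
    {p : Finset Ordinal.{0}} (hp : Gen M s β p) : ∃ γ < β, U M s β γ p := by
  classical
  obtain ⟨⟨γ, hγ, p0, hU⟩, -⟩ := h
  have h1 : ∀ x ∈ p0.filter (· < M.D s), ∃ γ' < β, x ∈ M.N s (Iio γ' ∪ p) := by
    intro x hx
    obtain ⟨F, hF, hxF⟩ := M.fin s _ x (hp (Finset.mem_filter.1 hx).2)
    have h2 : ∃ γ' < β, ∀ y ∈ F.filter (· < β), y < γ' := by
      have h3 := not_unb_iff.1 (not_unb_finite hβ.pos hβ.succ (F.filter (· < β)))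
      obtain ⟨b, hb, h4⟩ := h3
      exact ⟨b, hb, fun y hy => h4 y hy (Finset.mem_filter.1 hy).2⟩
    obtain ⟨γ', hγ', h3⟩ := h2
    refine ⟨γ', hγ', M.mono s _ _ ?_ hxF⟩
    intro y hy
    rcases hF hy with h4 | h4
    · exact Or.inl (h3 y (Finset.mem_filter.2 ⟨hy, h4⟩))
    · exact Or.inr h4
  have h2 : ∃ γ1 < β, γ ≤ γ1 ∧ ∀ x ∈ p0.filter (· < M.D s), x ∈ M.N s (Iio γ1 ∪ p) := by
    revert h1
    induction p0.filter (· < M.D s) using Finset.induction_on with
    | empty => exact fun _ => ⟨γ, hγ, le_rfl, fun x hx => absurd hx (by simp)⟩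
    | insert a F _ ih =>
      intro h1
      obtain ⟨γ1, h3, h4, h5⟩ := ih fun x hx => h1 x (Finset.mem_insert_of_mem hx)
      obtain ⟨γ2, h6, h7⟩ := h1 a (Finset.mem_insert_self _ _)
      refine ⟨max γ1 γ2, max_lt h3 h6, h4.trans (le_max_left _ _), ?_⟩
      intro x hx
      rcases Finset.mem_insert.1 hx with rfl | hx
      · exact M.mono s _ _ (union_subset_union_left _ (Iio_subset_Iio (le_max_right _ _))) h7
      · exact M.mono s _ _ (union_subset_union_left _ (Iio_subset_Iio (le_max_left _ _))) (h5 x hx)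
  obtain ⟨γ1, h3, h4, h5⟩ := h2
  refine ⟨γ1, h3, ?_⟩
  by_contra hn
  refine not_unb_union hn (not_unb_finite hβ.pos hβ.succ p0) (hU.mono ?_)
  refine (N_filter s _ _).trans (union_subset_union_left _ ?_)
  refine N_sub le_rfl (union_subset ?_ h5)
  exact (Iio_subset_Iio h4).trans (subset_union_left.trans (M.subset s _))

end Pool.Agent.Lib.H91W
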