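import Pool.Agent.Lib.H91W.A3

/-!
# The process `Ch`, the function `gs`
-/

set_option autoImplicit false

open Set Ordinal

namespace Pool.Agent.Lib.H91W

open Pool.Agent.Lib.H45Osc (w1 isOmega1_W limitPts isClub_limitPts)

variable {Loc : Type 1} [LinearOrder Loc] [WellFoundedLT Loc] {M : FM Loc} {s : Loc}
  {β : Ordinal.{0}}

theorem U.mono {γ γ' : Ordinal.{0}} {r : Finset Ordinal.{0}} (h : U M s β γ r) (hγ : γ ≤ γ') :
    U M s β γ' r :=
  Unb.mono h (M.mono s _ _ (union_subset_union_left _ (Iio_subset_Iio hγ)))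

theorem u_insert {δ : Ordinal.{0}} {r : Finset Ordinal.{0}} :
    U M s β δ (insert δ r) ↔ U M s β (δ + 1) r := by
  have h : Iio δ ∪ ((insert δ r : Finset Ordinal.{0}) : Set Ordinal.{0}) = Iio (δ + 1) ∪ r := by
    ext x
    simp only [Finset.coe_insert, mem_union, mem_Iio, mem_insert_iff, Finset.mem_coe]
    rw [← Order.succ_eq_add_one, Order.lt_succ_iff, le_iff_lt_or_eq]
    tauto
  unfold U
  rw [h]

theorem Ch.sub {r q : Finset Ordinal.{0}} {γ : Ordinal.{0}} (h : Ch M s β r q γ) : r ⊆ q := by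
  induction h with
  | base r γ _ _ _ => exact subset_rfl
  | step r δ q γ _ _ _ ih => exact (Finset.subset_insert _ _).trans ih

theorem Ch.last {r q : Finset Ordinal.{0}} {γ : Ordinal.{0}} (h : Ch M s β r q γ) :
    U M s β γ q ∧ (∀ γ' < γ, ¬ U M s β γ' q) ∧ ∀ δ, γ ≠ δ + 1 := by
  induction h with
  | base r γ h1 h2 h3 => exact ⟨h1, h2, h3⟩
  | step r δ q γ _ _ _ ih => exact ih

theorem Ch.bound {r q : Finset Ordinal.{0}} {γ : Ordinal.{0}} (h : Ch M s β r q γ) {δ : Ordinal.{0}}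
    (hδ : U M s β δ r) : γ ≤ δ ∧ (q : Set Ordinal.{0}) ⊆ Iio δ ∪ r := by
  induction h generalizing δ with
  | base r γ h1 h2 h3 =>
    exact ⟨not_lt.1 fun hlt => h2 δ hlt hδ, subset_union_right⟩
  | step r δ1 q γ h1 h2 _ ih =>
    have h3 : δ1 < δ := not_le.1 fun hle => h2 (hδ.mono hle)
    obtain ⟨h4, h5⟩ := ih (u_insert.2 h1)
    refine ⟨h4.trans h3.le, h5.trans ?_⟩
    rw [Finset.coe_insert]
    rintro x (hx | hx | hx)
    · exact Or.inl (lt_trans hx h3)
    · left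
      rw [hx]
      exact h3
    · exact Or.inr hx

theorem Ch.unique {r q : Finset Ordinal.{0}} {γ : Ordinal.{0}} (h : Ch M s β r q γ)
    {q' : Finset Ordinal.{0}} {γ' : Ordinal.{0}} (h' : Ch M s β r q' γ') : γ = γ' := by
  induction h with
  | base r γ h1 h2 h3 =>
    cases h' with
    | base _ _ k1 k2 k3 =>
      exact le_antisymm (not_lt.1 fun hlt => h2 _ hlt k1) (not_lt.1 fun hlt => k2 _ hlt h1)
    | step _ δ _ _ k1 k2 _ =>
      exfalso
      have h4 : δ < γ := not_le.1 fun hle => k2 (h1.mono hle)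
      have h5 : γ ≤ δ + 1 := not_lt.1 fun hlt => h2 _ hlt k1
      exact h3 δ (le_antisymm h5 (Order.add_one_le_of_lt h4))
  | step r δ q γ h1 h2 _ ih =>
    cases h' with
    | base _ _ k1 k2 k3 =>
      exfalso
      have h4 : δ < γ' := not_le.1 fun hle => h2 (k1.mono hle)
      have h5 : γ' ≤ δ + 1 := not_lt.1 fun hlt => k2 _ hlt h1
      exact k3 δ (le_antisymm h5 (Order.add_one_le_of_lt h4))
    | step _ δ' _ _ k1 k2 k3 =>
      have h4 : δ = δ' := by
        have h5 : δ < δ' + 1 := not_le.1 fun hle => h2 (k1.mono hle)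
        have h6 : δ' < δ + 1 := not_le.1 fun hle => k2 (h1.mono hle)
        rw [← Order.succ_eq_add_one, Order.lt_succ_iff] at h5 h6
        exact le_antisymm h5 h6
      subst h4
      exact ih k3

theorem exists_ch {γ0 : Ordinal.{0}} {r : Finset Ordinal.{0}} (h : U M s β γ0 r) :
    ∃ q γ, Ch M s β r q γ := by
  induction γ0 using WellFoundedLT.induction generalizing r with
  | ind γ0 ih =>
    obtain ⟨γ, hγ, hm⟩ := WellFounded.has_min (wellFounded_lt (α := Ordinal.{0}))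
      {γ | U M s β γ r} ⟨γ0, h⟩
    have hγ0 : γ ≤ γ0 := not_lt.1 (hm γ0 h)
    by_cases hs : ∃ δ, γ = δ + 1
    · obtain ⟨δ, rfl⟩ := hs
      have h1 : ¬ U M s β δ r := fun hn => hm δ hn (lt_add_one δ)
      obtain ⟨q, γ, h2⟩ := ih δ ((lt_add_one δ).trans_le hγ0) (u_insert.2 hγ)
      exact ⟨q, γ, Ch.step r δ q γ hγ h1 h2⟩
    · push Not at hs
      exact ⟨r, γ, Ch.base r γ hγ (fun γ' h1 h2 => hm γ' h2 h1) hs⟩

theorem IsGs.unique {γ γ' : Ordinal.{0}} (h : IsGs M β γ) (h' : IsGs M β γ') : γ = γ' := by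
  obtain ⟨s, hs, p, hp, q, hc⟩ := h
  obtain ⟨s', hs', p', hp', q', hc'⟩ := h'
  have h1 := hs.unique hs'
  subst h1
  have h2 := hp.unique hp'
  subst h2
  exact hc.unique hc'

theorem IsGs.eq {γ : Ordinal.{0}} (h : IsGs M β γ) : gs M β = γ := by
  have h1 : ∃ γ, IsGs M β γ := ⟨γ, h⟩
  unfold gs
  rw [dif_pos h1]
  exact h1.choose_spec.unique h

/-- The data at `β`. -/
theorem exists_isGs (hβ : CB β) (h : ∃ s, Sing M s β) : ∃ γ < β, IsGs M β γ := by
  obtain ⟨s, hs⟩ := exists_least h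
  obtain ⟨p, hp⟩ := exists_lgen hs
  obtain ⟨γ, hγ, hU⟩ := Gen.exists_u hβ hs hp.1
  obtain ⟨q, γ', hc⟩ := exists_ch hU
  exact ⟨γ', (hc.bound hU).1.trans_lt hγ, s, hs, p, hp, q, hc⟩

theorem hf_of_notMem {C : Set Ordinal.{0}} {loc : Ordinal.{0} → Ordinal.{0}} {x : Ordinal.{0}}
    (h : x ∉ C) : hf M C loc x = loc x := by
  rw [hf, if_neg fun h' => h h'.1]

theorem hf_of_mem {C : Set Ordinal.{0}} {loc : Ordinal.{0} → Ordinal.{0}} {x : Ordinal.{0}}
    (h : x ∈ C) (h' : gs M x < x) : hf M C loc x = hf M C loc (gs M x) := by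
  rw [hf, if_pos ⟨h, h'⟩]

theorem hf_lt {C : Set Ordinal.{0}} {loc : Ordinal.{0} → Ordinal.{0}} (hloc : ∀ x, loc x < w1)
    (x : Ordinal.{0}) : hf M C loc x < w1 := by
  induction x using WellFoundedLT.induction with
  | ind x ih =>
    rw [hf]
    split_ifs with h
    · exact ih _ h.2
    · exact hloc x

end Pool.Agent.Lib.H91W
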