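import Pool.Agent.Lib.H91W.A4

/-!
# Normal sequences of locations
-/

set_option autoImplicit false

open Set Ordinal

namespace Pool.Agent.Lib.H91W

open Pool.Agent.Lib.H45Osc (w1 isOmega1_W limitPts isClub_limitPts)

theorem club_inter {E F : Set (Iio w1)} (hE : IsClub E) (hF : IsClub F) : IsClub (E ∩ F) :=
  hE.inter isOmega1_W.cof_ne hF

theorem club_closed (F : Iio w1 → Iio w1) : IsClub {i | ∀ v < i, F v < i} :=
  isOmega1_W.isClub_closed F

theorem club_tail (b : Iio w1) : IsClub (Ioi b) := isOmega1_W.isClub_Ioi b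

open Classical in
/-- Normal sequences in well-orders. -/
theorem exists_normal {L : Type*} [LinearOrder L] [WellFoundedLT L] {s : L} (S : Iio w1 → L)
    (hS : ∀ i, S i < s) (hb : ∀ u : ℕ → L, (∀ n, u n < s) → ∃ b < s, ∀ n, u n < b) :
    ∃ t : Iio w1 → L, StrictMono t ∧ (∀ i, t i < s) ∧ (∀ i, ∀ v < i, S v < t i) ∧
      ∀ i ∈ limitPts, ∀ u < t i, ∃ v < i, u < t v := by
  let t : Iio w1 → L := (wellFounded_lt (α := Iio w1)).fix
    fun i ih => if h : {x | ∀ v, ∀ hv : v < i, ih v hv < x ∧ S v < x}.Nonempty then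
      (wellFounded_lt (α := L)).min _ h else S i
  have ht : ∀ i, t i = if h : {x | ∀ v, v < i → t v < x ∧ S v < x}.Nonempty then
      (wellFounded_lt (α := L)).min _ h else S i := by
    intro i
    exact WellFounded.fix_eq _ _ i
  have hmin : ∀ i, {x | ∀ v, v < i → t v < x ∧ S v < x}.Nonempty →
      (∀ v, v < i → t v < t i ∧ S v < t i) ∧ ∀ x, (∀ v, v < i → t v < x ∧ S v < x) → t i ≤ x := by
    intro i hne
    have h1 : t i = (wellFounded_lt (α := L)).min _ hne := by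
      rw [ht, dif_pos hne]
    refine ⟨?_, ?_⟩
    · have h2 := (wellFounded_lt (α := L)).min_mem _ hne
      rw [← h1] at h2
      exact h2
    · intro x hx
      have h2 := (wellFounded_lt (α := L)).not_lt_min {x | ∀ v, v < i → t v < x ∧ S v < x} (x := x) hx
      rw [← h1] at h2
      exact not_lt.1 h2
  have hlt : ∀ i, t i < s ∧ ∀ v < i, t v < t i ∧ S v < t i := by
    intro i
    induction i using WellFoundedLT.induction with
    | ind i ih =>
      have hcount := isOmega1_W.countable_Iio i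
      have : ∃ b < s, ∀ v < i, t v < b ∧ S v < b := by
        by_cases he : (Iio i).Nonempty
        · have hne := isOmega1_W.nonempty
          obtain ⟨f, hf⟩ := (Set.countable_iff_exists_subset_range).1 hcount
          obtain ⟨v0, hv0⟩ := he
          let f' : ℕ → Iio w1 := fun n => if f n < i then f n else v0
          have hf' : ∀ n, f' n < i := by
            intro n
            simp only [f']
            split_ifs with h
            · exact h
            · exact hv0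
          obtain ⟨b, hb, hb'⟩ := hb (fun n => max (t (f' n)) (S (f' n)))
            fun n => max_lt (ih _ (hf' n)).1 (hS _)
          refine ⟨b, hb, fun v hv => ?_⟩
          obtain ⟨n, hn⟩ := hf hv
          have h1 : f' n = v := by
            simp only [f']
            rw [hn, if_pos hv]
          have h2 := hb' n
          rw [h1] at h2
          exact max_lt_iff.1 h2
        · obtain ⟨j⟩ := isOmega1_W.nonempty
          exact ⟨S j, hS j, fun v hv => absurd ⟨v, hv⟩ he⟩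
      obtain ⟨b, hb, hb'⟩ := this
      have h1 := hmin i ⟨b, hb'⟩
      exact ⟨(h1.2 b hb').trans_lt hb, h1.1⟩
  refine ⟨t, fun v i hv => ((hlt i).2 v hv).1, fun i => (hlt i).1, fun i v hv => ((hlt i).2 v hv).2, ?_⟩
  intro i hi u hu
  have h1 := hmin i ⟨t i, (hlt i).2⟩
  have h2 : ¬ ∀ v, v < i → t v < u ∧ S v < u := fun h => absurd (h1.2 u h) (not_le.2 hu)
  push Not at h2
  obtain ⟨v, hv, h2⟩ := h2
  obtain ⟨w, hvw, hwi⟩ := hi.2 v hv
  refine ⟨w, hwi, ?_⟩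
  by_contra hn
  rw [not_lt] at hn
  exact absurd (((hlt w).2 v hvw).2.trans_le hn) (not_lt.2 (h2 (((hlt w).2 v hvw).1.trans_le hn)))

variable {Loc : Type 1} [LinearOrder Loc] [WellFoundedLT Loc] {M : FM Loc} {s : Loc}
  {β : Ordinal.{0}}

theorem exists_lt_of_mem {γ : Ordinal.{0}} (h0 : 0 < γ) (hs : ∀ x < γ, x + 1 < γ)
    {q : Finset Ordinal.{0}} {y : Ordinal.{0}} (hy : y ∈ M.N s (Iio γ ∪ q)) :
    ∃ γ' < γ, y ∈ M.N s (Iio γ' ∪ q) := by
  classical
  obtain ⟨F, hF, hyF⟩ := M.fin s _ y hy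
  obtain ⟨b, hb, h4⟩ := not_unb_iff.1 (not_unb_finite h0 hs (F.filter (· < γ)))
  refine ⟨b, hb, M.mono s _ _ ?_ hyF⟩
  intro x hx
  rcases hF hx with h5 | h5
  · exact Or.inl (h4 x (Finset.mem_coe.2 (Finset.mem_filter.2 ⟨hx, h5⟩)) h5)
  · exact Or.inr h5

theorem U.cb (hβ : CB β) {γ : Ordinal.{0}} {q : Finset Ordinal.{0}} (h1 : U M s β γ q)
    (h2 : ∀ γ' < γ, ¬ U M s β γ' q) (h3 : ∀ δ, γ ≠ δ + 1) : CB γ := by
  have hpos : 0 < γ := by
    rcases eq_or_lt_of_le (zero_le (a := γ)) with h | h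
    · exfalso
      subst h
      refine hβ.not_unb_countable (C := M.N s (Iio 0 ∪ q)) ?_ h1
      refine M.ctb s _ ?_
      have : (Iio (0 : Ordinal.{0})) = ∅ := by
        ext x
        simp
      rw [this, Set.empty_union]
      exact q.countable_toSet
    · exact h
  have hsucc : ∀ x < γ, x + 1 < γ := fun x hx => lt_of_le_of_ne (Order.add_one_le_of_lt hx)
    (fun h => h3 x h.symm)
  refine ⟨hpos, hsucc, ?_⟩
  intro c hc
  by_contra hn
  push Not at hn
  refine hβ.not_unb_iUnion (fun n => M.N s (Iio (c n) ∪ q)) (fun n => h2 _ (hc n)) (Unb.mono h1 ?_)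
  intro y hy
  obtain ⟨γ', hγ', hy'⟩ := exists_lt_of_mem hpos hsucc hy
  obtain ⟨n, hn'⟩ := hn γ' hγ'
  exact mem_iUnion.2 ⟨n, M.mono s _ _ (union_subset_union_left _ (Iio_subset_Iio hn')) hy'⟩

theorem exists_c {g : Iio w1 → Ordinal.{0}} (hg : NC g β) {γ : Ordinal.{0}}
    {q : Finset Ordinal.{0}} (h1 : U M s β γ q)
    (h2 : ∀ γ' < γ, ¬ U M s β γ' q) (h3 : ∀ δ, γ ≠ δ + 1) : ∃ c, NC c γ := by
  have hcb := U.cb hg.cb h1 h2 h3
  have h4 : ∀ i, ∃ m < γ, ∃ y ∈ M.N s (Iio m ∪ q), g i ≤ y ∧ y < β := by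
    intro i
    obtain ⟨y, hy, h5, h6⟩ := h1 (g i) (hg.lt i)
    obtain ⟨m, hm, hy'⟩ := exists_lt_of_mem hcb.pos hcb.succ hy
    exact ⟨m, hm, y, hy', h5, h6⟩
  choose m hm y hy h5 h6 using h4
  refine exists_nc hcb m hm ?_
  intro x hx
  obtain ⟨b, hb, h7⟩ := not_unb_iff.1 (h2 x hx)
  obtain ⟨i, hi⟩ := hg.cof b hb
  refine ⟨i, ?_⟩
  by_contra hn
  rw [not_le] at hn
  have h8 := h7 (y i) (M.mono s _ _ (union_subset_union_left _ (Iio_subset_Iio hn.le)) (hy i)) (h6 i)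
  exact absurd (h8.trans (hi.trans_le (h5 i))) (lt_irrefl _)

theorem exists_locs {g : Iio w1 → Ordinal.{0}} (hg : NC g β) (hs : Least M s β) {γ : Ordinal.{0}}
    (hγ : γ < β) {q : Finset Ordinal.{0}} (h1 : U M s β γ q) :
    ∃ t : Iio w1 → Loc, StrictMono t ∧ (∀ i, t i < s) ∧ (∀ u < s, ∃ i, u < t i) ∧
      ∀ i ∈ limitPts, ∀ u < t i, ∃ v < i, u < t v := by
  have hcb := hg.cb
  have hlim := hs.lim hcb
  have h4 : ∀ x < β, ∃ u < s, ∃ y ∈ M.N u (Iio γ ∪ q), x ≤ y ∧ y < β := by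
    intro x hx
    obtain ⟨y, hy, h5, h6⟩ := h1 x hx
    obtain ⟨u, hu, hy'⟩ := hlim.2.1 _ y hy
    exact ⟨u, hu, y, hy', h5, h6⟩
  have h5 : ∀ u < s, ∃ b < β, ∀ y ∈ M.N u (Iio γ ∪ q), y < β → y < b := by
    intro u hu
    refine not_unb_iff.1 fun hn => hs.2 u hu ⟨γ, hγ, q, hn⟩
  choose S hS using fun i => h4 (g i) (hg.lt i)
  obtain ⟨t, ht1, ht2, ht3, ht4⟩ := exists_normal (s := s) S (fun i => (hS i).1) (by
    intro u hu
    choose b hb hb' using fun n => h5 (u n) (hu n)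
    obtain ⟨b', hb'1, hb'2⟩ := hcb.bdd b hb
    obtain ⟨u', hu', y, hy, h6, h7⟩ := h4 b' hb'1
    refine ⟨u', hu', fun n => ?_⟩
    by_contra hn
    rw [not_lt] at hn
    exact absurd (((hb' n y (M.loc _ _ _ hn hy) h7).trans (hb'2 n)).trans_le h6) (lt_irrefl _))
  refine ⟨t, ht1, ht2, ?_, ht4⟩
  intro u hu
  obtain ⟨b, hb, hb'⟩ := h5 u hu
  obtain ⟨v, hv⟩ := hg.cof b hb
  obtain ⟨i, hi⟩ := isOmega1_W.exists_lt v
  refine ⟨i, lt_of_le_of_lt ?_ (ht3 i v hi)⟩
  by_contra hn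
  rw [not_le] at hn
  obtain ⟨-, y, hy, h6, h7⟩ := hS v
  exact absurd ((hb' y (M.loc _ _ _ hn.le hy) h7).trans (hv.trans_le h6)) (lt_irrefl _)

theorem lim_loc {t : Iio w1 → Loc} (ht : StrictMono t)
    (hlim : ∀ i ∈ limitPts, ∀ u < t i, ∃ v < i, u < t v) {i : Iio w1} (hi : i ∈ limitPts) :
    (∀ X, ∀ x ∈ M.N (t i) X, ∃ v < i, x ∈ M.N (t v) X) ∧ ∀ x < M.D (t i), ∃ v < i, x < M.D (t v) := by
  rcases M.lim (t i) with ⟨h1, h2, h3⟩ | ⟨u, hu, hmax, -⟩
  · refine ⟨?_, ?_⟩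
    · intro X x hx
      rcases h2 X x hx with h4 | ⟨u, hu, h4⟩
      · obtain ⟨v, hv⟩ := hi.1
        exact ⟨v, hv, M.subset _ _ h4⟩
      · obtain ⟨v, hv, huv⟩ := hlim i hi u hu
        exact ⟨v, hv, M.loc _ _ _ huv.le h4⟩
    · intro x hx
      obtain ⟨u, hu, h4⟩ := h3 x hx
      obtain ⟨v, hv, huv⟩ := hlim i hi u hu
      exact ⟨v, hv, h4.trans_le (M.dmono _ _ huv.le)⟩
  · exfalso
    obtain ⟨v, hv, huv⟩ := hlim i hi u hu
    exact absurd (hmax (t v) (ht hv)) (not_le.2 huv)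

end Pool.Agent.Lib.H91W
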