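import Pool.Agent.Lib.H91W.A5

/-!
# Club many points look like `β`
-/

set_option autoImplicit false

open Set Ordinal

namespace Pool.Agent.Lib.H91W

open Pool.Agent.Lib.H45Osc (w1 isOmega1_W limitPts isClub_limitPts)

variable {Loc : Type 1} [LinearOrder Loc] [WellFoundedLT Loc] {M : FM Loc} {s : Loc}
  {β : Ordinal.{0}}

/-- The location `t` and the generators `p` behave at `α` like the least location of `α`. -/
structure At (M : FM Loc) (s t : Loc) (β α γ : Ordinal.{0}) (p q : Finset Ordinal.{0}) : Prop where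
  pos : 0 < α
  succ : ∀ x < α, x + 1 < α
  le : α ≤ β
  ts : t ≤ s
  ch : Ch M t α p q γ
  small : ∀ u < t, ∀ γ' < α, ∀ r : Finset Ordinal.{0}, (r : Set Ordinal.{0}) ⊆ M.N t (Iio α ∪ p) →
    ¬ Unb α (M.N u (Iio γ' ∪ r))
  dp : (p : Set Ordinal.{0}) ⊆ Iio (M.D t)
  bd : ∃ δ < α, U M t α δ p

theorem NC.pos_of {g : Iio w1 → Ordinal.{0}} (hg : NC g β) {i : Iio w1} (hi : i ∈ limitPts) :
    0 < g i ∧ ∀ x < g i, x + 1 < g i := by
  obtain ⟨v, hv⟩ := hi.1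
  refine ⟨bot_le.trans_lt (hg.mono hv), fun x hx => ?_⟩
  obtain ⟨v, hv, hv'⟩ := hg.cont i hi x hx
  exact (Order.add_one_le_of_lt hv').trans_lt (hg.mono hv)

/-- The transfer of the process `Ch`. -/
theorem exists_ch_club {g c : Iio w1 → Ordinal.{0}} (hg : NC g β) {γ : Ordinal.{0}} (hc : NC c γ)
    (hγ : γ < β) {t : Iio w1 → Loc} (ht : StrictMono t) (hts : ∀ i, t i < s)
    (hcof : ∀ u < s, ∃ i, u < t i) (hlim : ∀ i ∈ limitPts, ∀ u < t i, ∃ v < i, u < t v)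
    (hs : Least M s β)
    {p q : Finset Ordinal.{0}} (h : Ch M s β p q γ) {δ0 : Ordinal.{0}} (hδ0 : δ0 < β)
    (hUd : U M s β δ0 p)
    (hB : ∀ v, ∃ w, ∀ y ∈ M.N (t v) (Iio (g v) ∪ q), y < β → y < g w) :
    ∃ E, IsClub E ∧ ∀ i ∈ E, Ch M (t i) (g i) p q (c i) := by
  have hcb := hg.cb
  have hlims := hs.lim hcb
  -- elements of the hull of `q` below `β` are below `g i`
  choose B hB using hB
  have hE0 : ∀ i ∈ limitPts, (∀ v < i, B v < i) → ∀ y ∈ M.N (t i) (Iio (g i) ∪ q), y < β → y < g i := by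
    intro i hi hBi y hy hyβ
    obtain ⟨v, hv, hy'⟩ := (lim_loc ht hlim hi).1 _ y hy
    obtain ⟨h0, hsu⟩ := hg.pos_of hi
    obtain ⟨x, hx, hy''⟩ := exists_lt_of_mem h0 hsu hy'
    obtain ⟨w, hw, hxw⟩ := hg.cont i hi x hx
    have hm : max v w < i := max_lt hv hw
    refine (hB (max v w) y ?_ hyβ).trans (hg.mono (hBi _ hm))
    exact N_sub' (ht.monotone (le_max_left _ _)) (union_subset_union_left _ (Iio_subset_Iio
      (hxw.le.trans (hg.mono.monotone (le_max_right _ _)))))  hy''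
  obtain ⟨i0, hi0'⟩ := hg.cof (max γ δ0) (max_lt hγ hδ0)
  obtain ⟨hi0, hid⟩ := max_lt_iff.1 hi0'
  -- unboundedness
  have hU : ∀ r : Finset Ordinal.{0}, r ⊆ q → ∀ e : Iio w1 → Ordinal.{0}, (∀ i, e i < β) →
      (∀ x < β, ∃ j, ∃ y ∈ M.N (t j) (Iio (e j) ∪ r), x ≤ y ∧ y < β) →
      (∀ j i, j ≤ i → e j ≤ e i) → (∀ i, i0 < i → e i ≤ g i) →
      ∃ E, IsClub E ∧ ∀ i ∈ E, U M (t i) (g i) (e i) r := by
    intro r hr e he hex hem heg
    choose G hG using fun v => hex (g v) (hg.lt v)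
    refine ⟨(({i | ∀ v < i, G v < i} ∩ {i | ∀ v < i, B v < i}) ∩ limitPts) ∩ Ioi i0,
      club_inter (club_inter (club_inter (club_closed G) (club_closed B)) isClub_limitPts)
        (club_tail i0), ?_⟩
    rintro i ⟨⟨⟨h1, h2⟩, h3⟩, h4⟩ x hx
    obtain ⟨v, hv, hxv⟩ := hg.cont i h3 x hx
    obtain ⟨y, hy, h5, h6⟩ := hG v
    have h7 : y ∈ M.N (t i) (Iio (e i) ∪ r) :=
      N_sub' (ht.monotone (h1 v hv).le) (union_subset_union_left _ (Iio_subset_Iio
        (hem _ _ (h1 v hv).le))) hy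
    refine ⟨y, h7, (hxv.trans_le h5).le, hE0 i h3 h2 y ?_ h6⟩
    exact M.mono _ _ _ (union_subset_union (Iio_subset_Iio (heg i h4)) (Finset.coe_subset.2 hr)) h7
  -- boundedness
  have hNU : ∀ r : Finset Ordinal.{0}, ∀ δ : Ordinal.{0}, ¬ U M s β δ r → ∃ w, ∀ i, w < i →
      ¬ U M (t i) (g i) δ r := by
    intro r δ hn
    obtain ⟨b, hb, hb'⟩ := not_unb_iff.1 hn
    obtain ⟨w, hw⟩ := hg.cof b hb
    refine ⟨w, fun i hi => ?_⟩
    unfold U
    rw [not_unb_iff]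
    exact ⟨b, hw.trans (hg.mono hi), fun y hy hyi => hb' y (M.loc _ _ _ (hts i).le hy)
      (hyi.trans (hg.lt i))⟩
  clear hi0' hδ0
  revert hU
  induction h generalizing δ0 with
  | base r γ h1 h2 h3 =>
    intro hU
    have hcγ : CB γ := U.cb hcb h1 h2 h3
    obtain ⟨E, hE, hE'⟩ := hU r subset_rfl c (fun i => (hc.lt i).trans hγ) (by
      intro x hx
      obtain ⟨y, hy, h4, h5⟩ := h1 x hx
      obtain ⟨γ', hγ', hy'⟩ := exists_lt_of_mem hcγ.pos hcγ.succ hy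
      obtain ⟨v, hv⟩ := hc.cof γ' hγ'
      obtain ⟨u, hu, hy''⟩ := hlims.2.1 _ y hy'
      obtain ⟨w, hw⟩ := hcof u hu
      refine ⟨max v w, y, ?_, h4, h5⟩
      exact N_sub' (hw.le.trans (ht.monotone (le_max_right _ _))) (union_subset_union_left _
        (Iio_subset_Iio (hv.le.trans (hc.mono.monotone (le_max_left _ _))))) hy'')
      (fun j i hji => hc.mono.monotone hji)
      (fun i hi => ((hc.lt i).trans (hi0.trans (hg.mono hi))).le)
    have h6 : ∀ v, ∃ w, ∀ i, w < i → ¬ U M (t i) (g i) (c v) r := fun v => hNU r (c v) (h2 _ (hc.lt v))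
    choose K hK using h6
    refine ⟨(E ∩ {i | ∀ v < i, K v < i}) ∩ limitPts, club_inter (club_inter hE (club_closed K))
      isClub_limitPts, ?_⟩
    rintro i ⟨⟨h7, h8⟩, h9⟩
    obtain ⟨h10, h11⟩ := hc.pos_of h9
    refine Ch.base r (c i) (hE' i h7) ?_ (fun δ hδ => ?_)
    · intro γ' hγ' hn
      obtain ⟨v, hv, hv'⟩ := hc.cont i h9 γ' hγ'
      exact hK v i (h8 v hv) (hn.mono hv'.le)
    · have h12 : δ < c i := by
        rw [hδ]
        exact lt_add_one δ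
      exact absurd (h11 δ h12) (by rw [← hδ]; exact lt_irrefl _)
  | step r δ q γ h1 h2 h3 ih =>
    intro hU
    have hδδ : δ < δ0 := not_le.1 fun hn => h2 (hUd.mono hn)
    have hδi : δ + 1 < g i0 := (Order.add_one_le_of_lt hδδ).trans_lt hid
    have hδβ : δ + 1 < β := hδi.trans (hg.lt i0)
    obtain ⟨E1, hE1, hE1'⟩ := ih hc hγ (u_insert.2 h1) hB hE0 hi0 (hδδ.trans hid) hU
    obtain ⟨E2, hE2, hE2'⟩ := hU r ((Finset.subset_insert _ _).trans h3.sub) (fun _ => δ + 1)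
      (fun _ => hδβ) (by
        intro x hx
        obtain ⟨y, hy, h4, h5⟩ := h1 x hx
        obtain ⟨u, hu, hy''⟩ := hlims.2.1 _ y hy
        obtain ⟨w, hw⟩ := hcof u hu
        exact ⟨w, y, M.loc _ _ _ hw.le hy'', h4, h5⟩) (fun _ _ _ => le_rfl) (by
        intro i hi
        exact hδi.le.trans (hg.mono hi).le)
    obtain ⟨w, hw⟩ := hNU r δ h2
    refine ⟨(E1 ∩ E2) ∩ Ioi w, club_inter (club_inter hE1 hE2) (club_tail w), ?_⟩
    rintro i ⟨⟨h7, h8⟩, h9⟩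
    exact Ch.step r δ q (c i) (hE2' i h8) (hw i h9) (hE1' i h7)

end Pool.Agent.Lib.H91W
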