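import Pool.Agent.Lib.H91W.A6

/-!
# The function `gs` on normal sequences
-/

set_option autoImplicit false

open Set Ordinal

namespace Pool.Agent.Lib.H91W

open Pool.Agent.Lib.H45Osc (w1 isOmega1_W limitPts isClub_limitPts)

variable {Loc : Type 1} [LinearOrder Loc] [WellFoundedLT Loc] {M : FM Loc} {s : Loc}
  {β : Ordinal.{0}}

theorem exists_max {i : Iio w1} (hi : (Iio i).Nonempty) (P : Ordinal.{0} → Iio w1 → Prop)
    (hP : ∀ x v w, v ≤ w → P x v → P x w) (r : Finset Ordinal.{0})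
    (h : ∀ x ∈ r, ∃ v < i, P x v) : ∃ v < i, ∀ x ∈ r, P x v := by
  classical
  revert h
  induction r using Finset.induction_on with
  | empty =>
    intro _
    obtain ⟨v, hv⟩ := hi
    exact ⟨v, hv, fun x hx => absurd hx (by simp)⟩
  | insert a r _ ih =>
    intro h
    obtain ⟨v, hv, h1⟩ := ih fun x hx => h x (Finset.mem_insert_of_mem hx)
    obtain ⟨w, hw, h2⟩ := h a (Finset.mem_insert_self _ _)
    refine ⟨max v w, max_lt hv hw, fun x hx => ?_⟩
    rcases Finset.mem_insert.1 hx with rfl | hx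
    · exact hP _ _ _ (le_max_right _ _) h2
    · exact hP _ _ _ (le_max_left _ _) (h1 x hx)

theorem exists_tail (P : Ordinal.{0} → Iio w1 → Prop) (hP : ∀ x v w, v ≤ w → P x v → P x w)
    (r : Finset Ordinal.{0}) (h : ∀ x ∈ r, ∃ v, P x v) : ∃ v, ∀ x ∈ r, P x v := by
  classical
  revert h
  induction r using Finset.induction_on with
  | empty =>
    intro _
    obtain ⟨v⟩ := isOmega1_W.nonempty
    exact ⟨v, fun x hx => absurd hx (by simp)⟩
  | insert a r _ ih =>
    intro h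
    obtain ⟨v, h1⟩ := ih fun x hx => h x (Finset.mem_insert_of_mem hx)
    obtain ⟨w, h2⟩ := h a (Finset.mem_insert_self _ _)
    refine ⟨max v w, fun x hx => ?_⟩
    rcases Finset.mem_insert.1 hx with rfl | hx
    · exact hP _ _ _ (le_max_right _ _) h2
    · exact hP _ _ _ (le_max_left _ _) (h1 x hx)

theorem exists_at {g c : Iio w1 → Ordinal.{0}} (hg : NC g β) {γ : Ordinal.{0}} (hc : NC c γ)
    (hγ : γ < β) (hs : Least M s β) {p q : Finset Ordinal.{0}} (hp : LGen M s β p)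
    (hq : Ch M s β p q γ) :
    ∃ E, IsClub E ∧ ∀ i ∈ E, ∃ t, At M s t β (g i) (c i) p q := by
  have hcb := hg.cb
  have hlims := hs.lim hcb
  obtain ⟨δ0, hδ0, hUd⟩ := Gen.exists_u hcb hs hp.1
  obtain ⟨t, ht, hts, hcof, hlim⟩ := exists_locs hg hs hγ hq.last.1
  have hB : ∀ v, ∃ w, ∀ y ∈ M.N (t v) (Iio (g v) ∪ q), y < β → y < g w := by
    intro v
    obtain ⟨b, hb, hb'⟩ := not_unb_iff.1 fun hn => hs.2 (t v) (hts v) ⟨g v, hg.lt v, q, hn⟩
    obtain ⟨w, hw⟩ := hg.cof b hb
    exact ⟨w, fun y hy hyβ => (hb' y hy hyβ).trans hw⟩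
  obtain ⟨E, hE, hE'⟩ := exists_ch_club hg hc hγ ht hts hcof hlim hs hq hδ0 hUd hB
  choose B hB using hB
  obtain ⟨w0, hw0⟩ := exists_tail (fun x v => x < M.D (t v))
    (fun x v w hvw hx => hx.trans_le (M.dmono _ _ (ht.monotone hvw))) p (by
      intro x hx
      obtain ⟨u, hu, hxu⟩ := hlims.2.2 x (hp.sub hx)
      obtain ⟨v, hv⟩ := hcof u hu
      exact ⟨v, hxu.trans_le (M.dmono _ _ hv.le)⟩)
  obtain ⟨i0, hi0⟩ := hg.cof γ hγ
  refine ⟨((E ∩ {i | ∀ v < i, B v < i}) ∩ limitPts) ∩ Ioi (max w0 i0), club_inter (club_inter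
    (club_inter hE (club_closed B)) isClub_limitPts) (club_tail _), ?_⟩
  rintro i ⟨⟨⟨h1, h2⟩, h3⟩, h4⟩
  have h40 : w0 < i := (le_max_left _ _).trans_lt h4
  have h41 : i0 < i := (le_max_right _ _).trans_lt h4
  obtain ⟨h0, hsu⟩ := hg.pos_of h3
  refine ⟨t i, h0, hsu, (hg.lt i).le, (hts i).le, hE' i h1, ?_, ?_, ?_⟩
  · intro u hu γ' hγ' r hr
    obtain ⟨v, hv, hrv⟩ := exists_max (i := i) h3.1 (fun x v => x ∈ M.N (t v) (Iio (g v) ∪ p))
      (fun x v w hvw hx => N_sub' (ht.monotone hvw) (union_subset_union_left _ (Iio_subset_Iio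
        (hg.mono.monotone hvw))) hx) r (by
        intro x hx
        obtain ⟨v, hv, hxv⟩ := (lim_loc ht hlim h3).1 _ x (hr (Finset.mem_coe.2 hx))
        obtain ⟨x', hx', hxv'⟩ := exists_lt_of_mem h0 hsu hxv
        obtain ⟨w, hw, hxw⟩ := hg.cont i h3 x' hx'
        refine ⟨max v w, max_lt hv hw, ?_⟩
        exact N_sub' (ht.monotone (le_max_left _ _)) (union_subset_union_left _ (Iio_subset_Iio
          (hxw.le.trans (hg.mono.monotone (le_max_right _ _))))) hxv')
    obtain ⟨v', hv', huv'⟩ := hlim i h3 u hu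
    obtain ⟨v'', hv'', hγv⟩ := hg.cont i h3 γ' hγ'
    have hm : max v (max v' v'') < i := max_lt hv (max_lt hv' hv'')
    rw [not_unb_iff]
    refine ⟨g (B (max v (max v' v''))), hg.mono (h2 _ hm), fun y hy hyi => ?_⟩
    refine hB _ y ?_ (hyi.trans (hg.lt i))
    refine N_sub (M := M) (s := u) (X := Iio γ' ∪ r) ?_ ?_ hy
    · exact huv'.le.trans (ht.monotone ((le_max_left _ _).trans (le_max_right _ _)))
    · refine union_subset ?_ ?_
      · refine Subset.trans ?_ (M.subset _ _)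
        refine Subset.trans ?_ subset_union_left
        exact Iio_subset_Iio (hγv.le.trans (hg.mono.monotone
          ((le_max_right _ _).trans (le_max_right _ _))))
      · intro x hx
        exact N_sub' (ht.monotone (le_max_left _ _)) (union_subset_union (Iio_subset_Iio
          (hg.mono.monotone (le_max_left _ _))) (Finset.coe_subset.2 hq.sub)) (hrv x hx)
  · intro x hx
    exact (hw0 x hx).trans_le (M.dmono _ _ (ht.monotone h40.le))
  · have hch := hE' i h1
    cases hch with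
    | base _ _ k1 k2 k3 =>
      exact ⟨c i, (hc.lt i).trans (hi0.trans (hg.mono h41)), k1⟩
    | step _ δ _ _ k1 k2 k3 =>
      have h5 : δ < g i := by
        by_contra hn
        rw [not_lt] at hn
        refine k2 fun x hx => ⟨x, M.subset _ _ (Or.inl (hx.trans_le hn)), le_rfl, hx⟩
      exact ⟨δ + 1, hsu δ h5, k1⟩

end Pool.Agent.Lib.H91W
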