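import Pool.Agent.Lib.H91W.A7

/-!
# The function `gs` on normal sequences: conclusion
-/

set_option autoImplicit false

open Set Ordinal

namespace Pool.Agent.Lib.H91W

open Pool.Agent.Lib.H45Osc (w1 isOmega1_W limitPts isClub_limitPts)

variable {Loc : Type 1} [LinearOrder Loc] [WellFoundedLT Loc] {M : FM Loc} {s : Loc}
  {β : Ordinal.{0}}

theorem Col.u_iff {t s' : Loc} {σ : Ordinal.{0} → Ordinal.{0}} (hcol : Col M t s' σ)
    {α : Ordinal.{0}} (hfix : ∀ x < α, σ x = x) {δ : Ordinal.{0}} (hδ : δ ≤ α)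
    (r : Finset Ordinal.{0}) : U M s' α δ r ↔ U M t α δ (r.image σ) := by
  unfold U
  rw [← image_set hfix hδ, ← hcol.eq, unb_image hcol.mono hfix]

theorem Ch.pull {t s' : Loc} {σ : Ordinal.{0} → Ordinal.{0}} (hcol : Col M t s' σ)
    {α : Ordinal.{0}} (hfix : ∀ x < α, σ x = x) {r q : Finset Ordinal.{0}} {γ : Ordinal.{0}}
    (h : Ch M t α r q γ) {δ0 : Ordinal.{0}} (hδ : δ0 < α) (hU : U M t α δ0 r)
    {r' : Finset Ordinal.{0}} (hr : r'.image σ = r) : ∃ q', Ch M s' α r' q' γ := by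
  classical
  induction h generalizing δ0 r' with
  | base r γ h1 h2 h3 =>
    have h4 : γ ≤ δ0 := not_lt.1 fun hn => h2 δ0 hn hU
    subst hr
    refine ⟨r', Ch.base r' γ ((hcol.u_iff hfix (h4.trans hδ.le) r').2 h1) ?_ h3⟩
    intro γ' hγ' hn
    exact h2 γ' hγ' ((hcol.u_iff hfix (hγ'.le.trans (h4.trans hδ.le)) r').1 hn)
  | step r δ q γ h1 h2 _ ih =>
    have hδδ : δ < δ0 := not_le.1 fun hn => h2 (hU.mono hn)
    have h4 : (insert δ r').image σ = insert δ r := by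
      rw [Finset.image_insert, hr, hfix δ (hδδ.trans hδ)]
    obtain ⟨q', hq'⟩ := ih (hδδ.trans hδ) (u_insert.2 h1) h4
    subst hr
    refine ⟨q', Ch.step r' δ q' γ ((hcol.u_iff hfix ((Order.add_one_le_of_lt hδδ).trans hδ.le) r').2 h1)
      ?_ hq'⟩
    intro hn
    exact h2 ((hcol.u_iff hfix (hδδ.trans hδ).le r').1 hn)

theorem colex_image {σ : Ordinal.{0} → Ordinal.{0}} (hσ : StrictMono σ) {r p : Finset Ordinal.{0}} :
    toColex (r.image σ) < toColex (p.image σ) ↔ toColex r < toColex p := by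
  exact Finset.Colex.toColex_image_lt_toColex_image hσ

theorem At.isGs {t : Loc} {α γ : Ordinal.{0}} {p q : Finset Ordinal.{0}}
    (h : At M s t β α γ p q) (hp : LGen M s β p) : IsGs M α γ := by
  classical
  obtain ⟨σ, s', hr, hcol⟩ := exists_col (M := M) t (X := M.N t (Iio α ∪ p)) (M.idem t _)
    (l := max (M.D t) α) (le_max_left _ _)
  have hsub : Iio α ∪ (p : Set Ordinal.{0}) ⊆ range σ := by
    rw [hr]
    exact (M.subset t _).trans subset_union_left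
  have hfix : ∀ x < α, σ x = x :=
    Pool.Agent.Lib.H91W.StrictMono.fix hcol.mono (subset_union_left.trans hsub)
  obtain ⟨p', hp'⟩ := StrictMono.exists_image (σ := σ) (p := p) (subset_union_right.trans hsub)
  obtain ⟨δ, hδ, hUδ⟩ := h.bd
  obtain ⟨q', hq'⟩ := h.ch.pull hcol hfix hδ hUδ hp'
  -- the hull of `p'` contains the domain
  have hgen : Gen M s' α p' := by
    intro x hx
    have h1 : σ x < M.D t := (hcol.dom x).1 hx
    have h2 : σ x ∈ range σ := ⟨x, rfl⟩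
    rw [hr] at h2
    rcases h2 with h2 | h2
    · have h3 : M.N t (Iio α ∪ p) = σ '' M.N s' (Iio α ∪ p') := by
        rw [hcol.eq, image_set hfix le_rfl, hp']
      rw [h3] at h2
      obtain ⟨y, hy, hy'⟩ := h2
      rw [← hcol.mono.injective hy']
      exact hy
    · exact absurd (h1.trans_le (le_max_left _ _)) (not_lt.2 h2)
  refine ⟨s', ⟨?_, ?_⟩, p', ⟨hgen, ?_⟩, q', hq'⟩
  · exact ⟨δ, hδ, p', (hcol.u_iff hfix hδ.le p').2 (by rw [hp']; exact hUδ)⟩
  · rintro t' ht' ⟨γ', hγ', r, hU⟩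
    obtain ⟨u, hu, hu'⟩ := hcol.low t' ht'
    have h1 : Unb α (M.N u (Iio γ' ∪ (r.image σ : Finset Ordinal.{0}))) := by
      rw [← image_set hfix hγ'.le, ← hu', unb_image hcol.mono hfix]
      exact hU
    refine not_unb_union ?_ (not_unb_finite h.pos h.succ (r.image σ)) (h1.mono (N_filter u _ _))
    refine h.small u hu γ' hγ' _ ?_
    intro x hx
    obtain ⟨hx1, hx2⟩ := Finset.mem_filter.1 (Finset.mem_coe.1 hx)
    obtain ⟨y, -, hy⟩ := Finset.mem_image.1 hx1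
    have h2 : x ∈ range σ := ⟨y, hy⟩
    rw [hr] at h2
    rcases h2 with h2 | h2
    · exact h2
    · exact absurd ((hx2.trans_le (M.dmono _ _ hu.le)).trans_le (le_max_left _ _)) (not_lt.2 h2)
  · intro r hr' hg
    -- pull back a smaller set of generators
    have h1 : toColex (r.image σ) < toColex p := by
      rw [← hp']
      exact (colex_image hcol.mono).2 hr'
    refine hp.2 _ h1 ?_
    have h2 : (p : Set Ordinal.{0}) ⊆ M.N t (Iio α ∪ (r.image σ : Finset Ordinal.{0})) := by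
      intro x hx
      rw [← image_set hfix le_rfl, ← hcol.eq]
      rw [← hp', Finset.coe_image] at hx
      obtain ⟨y, hy, hxy⟩ := hx
      refine ⟨y, hg ?_, hxy⟩
      have h3 : x ∈ (p : Set Ordinal.{0}) := by
        rw [← hp', Finset.coe_image]
        exact ⟨y, hy, hxy⟩
      have h4 := h.dp h3
      rw [← hxy] at h4
      exact (hcol.dom y).2 h4
    intro x hx
    refine N_sub (M := M) (s := s) (X := Iio β ∪ p) le_rfl (union_subset ?_ ?_) (hp.1 hx)
    · exact subset_union_left.trans (M.subset _ _)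
    · intro y hy
      exact N_sub' h.ts (union_subset_union_left _ (Iio_subset_Iio h.le)) (h2 hy)

/-- **The main lemma.** -/
theorem gs_club {g : Iio w1 → Ordinal.{0}} (hg : NC g β) (h : ∃ s, Sing M s β) :
    ∃ γ < β, ∃ c, NC c γ ∧ ∃ E, IsClub E ∧ ∀ i ∈ E, gs M (g i) = c i ∧ c i < g i := by
  obtain ⟨s, hs⟩ := exists_least h
  obtain ⟨p, hp⟩ := exists_lgen hs
  obtain ⟨γ0, hγ0, hU⟩ := Gen.exists_u hg.cb hs hp.1
  obtain ⟨q, γ, hq⟩ := exists_ch hU
  have hγ : γ < β := (hq.bound hU).1.trans_lt hγ0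
  obtain ⟨c, hc⟩ := exists_c hg hq.last.1 hq.last.2.1 hq.last.2.2
  obtain ⟨E, hE, hE'⟩ := exists_at hg hc hγ hs hp hq
  obtain ⟨i0, hi0⟩ := hg.cof γ hγ
  refine ⟨γ, hγ, c, hc, E ∩ Ioi i0, club_inter hE (club_tail i0), ?_⟩
  rintro i ⟨hi, hi'⟩
  obtain ⟨t, ht⟩ := hE' i hi
  exact ⟨(ht.isGs hp).eq, (hc.lt i).trans (hi0.trans (hg.mono hi'))⟩

/-- **The function `hf` is unbounded on normal sequences.** -/
theorem hf_club {κ : Ordinal.{0}} {C : Set Ordinal.{0}} {loc : Ordinal.{0} → Ordinal.{0}}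
    (hC : ∀ β ≤ κ, ∀ g, NC g β → ((∃ s, Sing M s β) ∧ ∃ E, IsClub E ∧ ∀ i ∈ E, g i ∈ C) ∨
      ∀ ξ < w1, ∃ E, IsClub E ∧ ∀ i ∈ E, g i ∉ C ∧ ξ < loc (g i)) :
    ∀ β ≤ κ, ∀ g, NC g β → ∀ ξ < w1, ∃ E, IsClub E ∧ ∀ i ∈ E, ξ < hf M C loc (g i) := by
  intro β
  induction β using WellFoundedLT.induction with
  | ind β ih =>
    intro hβ g hg ξ hξ
    rcases hC β hβ g hg with ⟨h1, E, hE, hE'⟩ | h1
    · obtain ⟨γ, hγ, c, hc, E1, hE1, hE1'⟩ := gs_club hg h1
      obtain ⟨E2, hE2, hE2'⟩ := ih γ hγ (hγ.le.trans hβ) c hc ξ hξ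
      refine ⟨(E ∩ E1) ∩ E2, club_inter (club_inter hE hE1) hE2, ?_⟩
      rintro i ⟨⟨h2, h3⟩, h4⟩
      obtain ⟨h5, h6⟩ := hE1' i h3
      rw [hf_of_mem (hE' i h2) (by rw [h5]; exact h6), h5]
      exact hE2' i h4
    · obtain ⟨E, hE, hE'⟩ := h1 ξ hξ
      refine ⟨E, hE, fun i hi => ?_⟩
      rw [hf_of_notMem (hE' i hi).1]
      exact (hE' i hi).2

end Pool.Agent.Lib.H91W
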