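import Pool.Agent.Lib.H91W.A8

/-!
# From fine machines to colourings
-/

set_option autoImplicit false

open Set Ordinal

namespace Pool.Agent.Lib.H91W

open Pool.Agent.Lib.H45Osc (w1 isOmega1_W limitPts isClub_limitPts IsClosedCopy osc psi lad en en_le
  en_surj)

/-- The posed statement for the cardinal `κ`. -/
def Posed (κ : Cardinal.{0}) : Prop :=
    ∃ c : Ordinal.{0} → Ordinal.{0} → Ordinal.{0},
      (∀ α β : Ordinal.{0}, α < β → β < κ.ord → c α β < (Cardinal.aleph 1).ord) ∧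
      ∀ A : Set Ordinal.{0}, A ⊆ Set.Iio κ.ord →
        (∀ B ⊆ A, B.Nonempty → (∃ a ∈ A, ∀ b ∈ B, b ≤ a) → sSup B ∈ A) →
        Nonempty (A ≃o Set.Iio (Cardinal.aleph.{0} 1).ord) →
        ∀ ξ < (Cardinal.aleph 1).ord, ∃ α ∈ A, ∃ β ∈ A, α < β ∧ c α β = ξ

theorem omega_lt_w1 : Ordinal.omega0 < w1 := by
  rw [← Cardinal.ord_aleph0, ← Cardinal.aleph_zero]
  exact Cardinal.ord_lt_ord.2 (Cardinal.aleph_lt_aleph.2 zero_lt_one)

theorem posed_of_h {κ : Cardinal.{0}} (h : Ordinal.{0} → Ordinal.{0}) (hh : ∀ α, h α < w1)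
    (hcl : ∀ A : Set Ordinal.{0}, A ⊆ Iio κ.ord → IsClosedCopy A → ∀ ξ < w1, ∃ β ∈ A, ξ ≤ h β) :
    Posed κ := by
  have hm : ∀ α, max (h α) Ordinal.omega0 < w1 := fun α => max_lt (hh α) omega_lt_w1
  refine ⟨fun α β => en (max (h α) Ordinal.omega0) (psi (osc lad α β)), ?_, ?_⟩
  · intro α β _ _
    exact (en_le _ _).trans_lt (hm α)
  · intro A hAκ hA1 hA2 ξ hξ
    have hA : IsClosedCopy A := ⟨hA1, hA2⟩
    have hstat : IsStationary {i | ξ ≤ max (h (hA.enum i)) Ordinal.omega0} := by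
      refine hA.stationary_of (P := fun β => ξ ≤ max (h β) Ordinal.omega0) ?_
      intro B hB hBc
      obtain ⟨β, hβ, hβ'⟩ := hcl B (hB.trans hAκ) hBc ξ hξ
      exact ⟨β, hβ, hβ'.trans (le_max_left _ _)⟩
    obtain ⟨n, hn⟩ := isOmega1_W.pigeon hstat
      (fun (n : ℕ) i => en (max (h (hA.enum i)) Ordinal.omega0) n = ξ)
      (fun i hi => en_surj (hm _) hi)
    obtain ⟨i, ⟨_, hi⟩, j, _, hij, _, _, hψ⟩ := hA.exists_psi hn
      (isStationary_univ_iff.2 isOmega1_W.nonempty) n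
    refine ⟨hA.enum i, hA.enum_mem i, hA.enum j, hA.enum_mem j, hA.enum_strictMono hij, ?_⟩
    show en (max (h (hA.enum i)) Ordinal.omega0) (psi (osc lad (hA.enum i) (hA.enum j))) = ξ
    rw [hψ]
    exact hi

/-- The enumeration of a closed copy is normal. -/
theorem exists_nc_enum {A : Set Ordinal.{0}} (hA : IsClosedCopy A) {κ : Ordinal.{0}}
    (hκ : A ⊆ Iio κ) : ∃ β ≤ κ, NC hA.enum β := by
  obtain ⟨β, hβ, hm⟩ := WellFounded.has_min (wellFounded_lt (α := Ordinal.{0}))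
    {b | ∀ i, hA.enum i < b} ⟨κ, fun i => hκ (hA.enum_mem i)⟩
  refine ⟨β, not_lt.1 (hm κ fun i => hκ (hA.enum_mem i)), hA.enum_strictMono, hβ, ?_, ?_⟩
  · intro x hx
    have h1 : ¬ ∀ i, hA.enum i < x := fun h => hm x h hx
    push Not at h1
    obtain ⟨i, hi⟩ := h1
    obtain ⟨j, hj⟩ := isOmega1_W.exists_lt i
    exact ⟨j, hi.trans_lt (hA.enum_strictMono hj)⟩
  · intro i hi x hx
    obtain ⟨v, hv, hv'⟩ := hA.cont hi hx
    obtain ⟨w, hw, hw'⟩ := hi.2 v hv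
    exact ⟨w, hw', hv'.trans_lt (hA.enum_strictMono hw)⟩

/-- **The general theorem.** -/
theorem posed_of {Loc : Type 1} [LinearOrder Loc] [WellFoundedLT Loc] (M : FM Loc)
    {κ : Cardinal.{0}} (C : Set Ordinal.{0}) (loc : Ordinal.{0} → Ordinal.{0})
    (hloc : ∀ x, loc x < w1)
    (hC : ∀ β ≤ κ.ord, ∀ g, NC g β → ((∃ s, Sing M s β) ∧ ∃ E, IsClub E ∧ ∀ i ∈ E, g i ∈ C) ∨
      ∀ ξ < w1, ∃ E, IsClub E ∧ ∀ i ∈ E, g i ∉ C ∧ ξ < loc (g i)) : Posed κ := by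
  refine posed_of_h (hf M C loc) (hf_lt hloc) ?_
  intro A hAκ hA ξ hξ
  obtain ⟨β, hβ, hNC⟩ := exists_nc_enum hA hAκ
  obtain ⟨E, hE, hE'⟩ := hf_club hC β hβ _ hNC ξ hξ
  obtain ⟨b0⟩ := isOmega1_W.nonempty
  obtain ⟨i, hi, -⟩ := hE.isCofinal b0
  exact ⟨hA.enum i, hA.enum_mem i, (hE' i hi).le⟩

/-! ## Countable ordinals -/

theorem nc_w1 {g : Iio w1 → Ordinal.{0}} (hg : NC g w1) {ξ : Ordinal.{0}} (hξ : ξ < w1) :
    ∃ E, IsClub E ∧ ∀ i ∈ E, ξ < g i := by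
  obtain ⟨i0, hi0⟩ := hg.cof ξ hξ
  exact ⟨Ioi i0, club_tail i0, fun i hi => hi0.trans (hg.mono hi)⟩

theorem NC.w1_le {g : Iio w1 → Ordinal.{0}} {β : Ordinal.{0}} (hg : NC g β) : w1 ≤ β := by
  by_contra hn
  rw [not_le] at hn
  refine hg.cb.not_unb_countable (C := Iio β) (Pool.Agent.Lib.H45Osc.countable_Iio_ord hn) ?_
  exact fun x hx => ⟨x, hx, le_rfl, hx⟩

/-- The case where all `β` are singularized. -/
theorem posed_of_sing {Loc : Type 1} [LinearOrder Loc] [WellFoundedLT Loc] (M : FM Loc)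
    {κ : Cardinal.{0}} (h : ∀ β ≤ κ.ord, w1 < β → (∃ g, NC g β) → ∃ s, Sing M s β) : Posed κ := by
  classical
  refine posed_of M (Ici w1) (fun x => if x < w1 then x else 0) ?_ ?_
  · intro x
    show (if x < w1 then x else 0) < w1
    split_ifs with h1
    · exact h1
    · exact bot_le.trans_lt omega_lt_w1
  · intro β hβ g hg
    rcases eq_or_lt_of_le hg.w1_le with h1 | h1
    · right
      subst h1
      intro ξ hξ
      obtain ⟨E, hE, hE'⟩ := nc_w1 hg hξ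
      refine ⟨E, hE, fun i hi => ⟨not_le.2 (hg.lt i), ?_⟩⟩
      show ξ < (if g i < w1 then g i else 0)
      rw [if_pos (hg.lt i)]
      exact hE' i hi
    · left
      refine ⟨h β hβ h1 ⟨g, hg⟩, ?_⟩
      obtain ⟨i0, hi0⟩ := hg.cof w1 h1
      exact ⟨Ioi i0, club_tail i0, fun i hi => (hi0.trans (hg.mono hi)).le⟩

/-! ## Local functions -/

open Classical in
/-- The least `i` such that the first `i` values of `e` are unbounded in `x`. -/
noncomputable def locf (e : Iio w1 → Ordinal.{0}) (x : Ordinal.{0}) : Ordinal.{0} :=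
  if h : ∃ i : Iio w1, Unb x (e '' Iio i) then
    ((wellFounded_lt (α := Iio w1)).min {i | Unb x (e '' Iio i)} h : Iio w1).1 else 0

theorem locf_lt (e : Iio w1 → Ordinal.{0}) (x : Ordinal.{0}) : locf e x < w1 := by
  unfold locf
  split_ifs with h
  · exact Subtype.prop _
  · exact bot_le.trans_lt omega_lt_w1

theorem locf_spec {e : Iio w1 → Ordinal.{0}} {g : Iio w1 → Ordinal.{0}} {β : Ordinal.{0}}
    (hg : NC g β) {i0 : Iio w1} (hcov : ∀ x, g i0 ≤ x → x < β → x ∈ range e) {ξ : Ordinal.{0}}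
    (hξ : ξ < w1) : ∃ E, IsClub E ∧ ∀ i ∈ E, ξ < locf e (g i) := by
  obtain ⟨b, hb, hb'⟩ := not_unb_iff.1 (hg.cb.not_unb_countable (C := e '' Iic (⟨ξ, hξ⟩ : Iio w1))
    ((isOmega1_W.countable_Iic _).image e))
  obtain ⟨i1, hi1⟩ := hg.cof b hb
  refine ⟨limitPts ∩ Ioi (max i0 i1), club_inter isClub_limitPts (club_tail _), ?_⟩
  rintro i ⟨hi, hi'⟩
  have hi0 : i0 < i := (le_max_left _ _).trans_lt hi'
  have hi1' : i1 < i := (le_max_right _ _).trans_lt hi'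
  have hex : ∃ j : Iio w1, Unb (g i) (e '' Iio j) := by
    have h1 : ∀ v : Iio i, ∃ k, i0 ≤ v.1 → e k = g v.1 := by
      intro v
      by_cases hv : i0 ≤ v.1
      · obtain ⟨k, hk⟩ := hcov (g v.1) (hg.mono.monotone hv) (hg.lt _)
        exact ⟨k, fun _ => hk⟩
      · exact ⟨i0, fun h => absurd h hv⟩
    choose k hk using h1
    have : Countable (Iio i) := (isOmega1_W.countable_Iio i).to_subtype
    obtain ⟨j, hj⟩ := isOmega1_W.exists_gt (s := range k) (countable_range k)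
    refine ⟨j, fun x hx => ?_⟩
    obtain ⟨v, hv, hxv⟩ := hg.cont i hi x hx
    have hm : max v i0 < i := max_lt hv hi0
    refine ⟨g (max v i0), ⟨k ⟨_, hm⟩, hj _ ⟨_, rfl⟩, hk ⟨_, hm⟩ (le_max_right _ _)⟩, ?_, hg.mono hm⟩
    exact hxv.le.trans (hg.mono.monotone (le_max_left _ _))
  unfold locf
  rw [dif_pos hex]
  have key : ∀ j : Iio w1, Unb (g i) (e '' Iio j) → ξ < j.1 := by
    intro j hj
    by_contra hn
    rw [not_lt] at hn
    refine not_unb_iff.2 ?_ hj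
    refine ⟨g i1, hg.mono hi1', ?_⟩
    rintro y ⟨k, hk, rfl⟩ hy
    refine (hb' _ ⟨k, ?_, rfl⟩ (hy.trans (hg.lt i))).trans hi1
    have h4 : k.1 < j.1 := hk
    show k ≤ (⟨ξ, hξ⟩ : Iio w1)
    exact Subtype.mk_le_mk.2 (h4.trans_le hn).le
  exact key _ ((wellFounded_lt (α := Iio w1)).min_mem {i' | Unb (g i) (e '' Iio i')} hex)

end Pool.Agent.Lib.H91W
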