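import Pool.Agent.Lib.H91W.A3

/-!
# Fine machines from rules

A rule has a level (an ordinal), a number and a finite set of parameters; it produces countably
many ordinals below its level.
-/

set_option autoImplicit false

open Set Ordinal

namespace Pool.Agent.Lib.H91W

instance instWFColex : WellFoundedLT (Colex (Finset Ordinal.{0})) := colex_wf

/-- The locations. -/
abbrev Loc : Type 1 := Ordinal.{0} ×ₗ (ℕ ×ₗ Colex (Finset Ordinal.{0}))

/-- The location with the level `x`, the number `m` and the parameters `G`. -/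
def mk (x : Ordinal.{0}) (m : ℕ) (G : Finset Ordinal.{0}) : Loc := toLex (x, toLex (m, toColex G))

theorem mk_lt {x y : Ordinal.{0}} {m n : ℕ} {G H : Finset Ordinal.{0}} :
    mk x m G < mk y n H ↔ x < y ∨ (x = y ∧ (m < n ∨ (m = n ∧ toColex G < toColex H))) := by
  unfold mk
  rw [Prod.Lex.toLex_lt_toLex, Prod.Lex.toLex_lt_toLex]

theorem exists_mk (s : Loc) : ∃ x m G, s = mk x m G :=
  ⟨(ofLex s).1, (ofLex (ofLex s).2).1, ofColex (ofLex (ofLex s).2).2, rfl⟩

theorem mk_zero_le {x : Ordinal.{0}} {m : ℕ} {G : Finset Ordinal.{0}} : mk x 0 ∅ ≤ mk x m G := by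
  rw [← not_lt, mk_lt]
  rintro (h | ⟨-, h | ⟨-, h⟩⟩)
  · exact lt_irrefl _ h
  · exact absurd h (Nat.not_lt_zero m)
  · exact not_lt_bot (α := Colex (Finset Ordinal.{0})) h

/-- The action of a map of the ordinals on the locations. -/
noncomputable def tau (σ : Ordinal.{0} → Ordinal.{0}) (s : Loc) : Loc :=
  mk (σ (ofLex s).1) (ofLex (ofLex s).2).1 ((ofColex (ofLex (ofLex s).2).2).image σ)

theorem tau_mk (σ : Ordinal.{0} → Ordinal.{0}) (x : Ordinal.{0}) (m : ℕ)
    (G : Finset Ordinal.{0}) : tau σ (mk x m G) = mk (σ x) m (G.image σ) := rfl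

theorem tau_mono {σ : Ordinal.{0} → Ordinal.{0}} (hσ : StrictMono σ) : StrictMono (tau σ) := by
  intro s t hst
  obtain ⟨x, m, G, rfl⟩ := exists_mk s
  obtain ⟨y, n, H, rfl⟩ := exists_mk t
  rw [tau_mk, tau_mk, mk_lt]
  rcases mk_lt.1 hst with h | ⟨rfl, h | ⟨rfl, h⟩⟩
  · exact Or.inl (hσ h)
  · exact Or.inr ⟨rfl, Or.inl h⟩
  · exact Or.inr ⟨rfl, Or.inr ⟨rfl, Finset.Colex.toColex_image_lt_toColex_image hσ |>.2 h⟩⟩

/-- The least location `s'` such that `s ≤ τ s'`. -/
theorem exists_pull {σ : Ordinal.{0} → Ordinal.{0}} (hσ : StrictMono σ) (s : Loc) :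
    ∃ s' ≤ s, ∀ t, t < s' ↔ tau σ t < s := by
  have h1 := tau_mono hσ
  obtain ⟨s', hs', hm⟩ := WellFounded.has_min (wellFounded_lt (α := Loc)) {t | s ≤ tau σ t}
    ⟨s, h1.le_apply⟩
  refine ⟨s', not_lt.1 (hm s h1.le_apply), fun t => ⟨fun h => ?_, fun h => ?_⟩⟩
  · exact not_le.1 fun hn => hm t hn h
  · by_contra hn
    rw [not_lt] at hn
    exact absurd (hs'.trans (h1.monotone hn)) (not_le.2 h)

section

variable (Val : Ordinal.{0} → ℕ → Finset Ordinal.{0} → Set Ordinal.{0})

/-- The closure of `X` under the rules before `s`. -/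
inductive Cl (s : Loc) (X : Set Ordinal.{0}) : Ordinal.{0} → Prop
  | base (x : Ordinal.{0}) : x ∈ X → Cl s X x
  | rule (x : Ordinal.{0}) (m : ℕ) (G : Finset Ordinal.{0}) (y : Ordinal.{0}) : mk x m G < s →
      Cl s X x → (∀ g ∈ G, Cl s X g) → y ∈ Val x m G → Cl s X y

/-- `Y` is closed under the rules before `s`. -/
def Clo (s : Loc) (Y : Set Ordinal.{0}) : Prop :=
  ∀ x m G, mk x m G < s → x ∈ Y → (∀ g ∈ G, g ∈ Y) → Val x m G ⊆ Y

/-- The set of the ordinals which are levels of rules before `s`. -/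
noncomputable def Dm (s : Loc) : Ordinal.{0} := sInf {x | s ≤ mk x 0 ∅}

theorem lt_Dm {s : Loc} {x : Ordinal.{0}} : x < Dm s ↔ mk x 0 ∅ < s := by
  have hne : {x | s ≤ mk x 0 ∅}.Nonempty := by
    obtain ⟨x, m, G, rfl⟩ := exists_mk s
    exact ⟨x + 1, (mk_lt.2 (Or.inl (Order.lt_add_one_iff.2 le_rfl))).le⟩
  constructor
  · intro h
    by_contra hn
    rw [not_lt] at hn
    exact notMem_of_lt_csInf' h hn
  · intro h
    by_contra hn
    rw [not_lt] at hn
    have h1 : s ≤ mk (Dm s) 0 ∅ := csInf_mem hne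
    refine absurd (h1.trans ?_) (not_le.2 h)
    rcases hn.eq_or_lt with h2 | h2
    · rw [h2]
    · exact (mk_lt.2 (Or.inl h2)).le

variable {Val}

theorem Cl.induct {s : Loc} {X Y : Set Ordinal.{0}} (hXY : X ⊆ Y) (hY : Clo Val s Y)
    {x : Ordinal.{0}} (h : Cl Val s X x) : x ∈ Y := by
  induction h with
  | base x hx => exact hXY hx
  | rule x m G y h1 _ _ h4 ih1 ih2 => exact hY x m G h1 ih1 ih2 h4

theorem clo_cl (s : Loc) (X : Set Ordinal.{0}) : Clo Val s {x | Cl Val s X x} :=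
  fun x m G h1 h2 h3 y hy => Cl.rule x m G y h1 h2 h3 hy

theorem Cl.mono {s : Loc} {X Y : Set Ordinal.{0}} (h : X ⊆ Y) {x : Ordinal.{0}}
    (hx : Cl Val s X x) : Cl Val s Y x :=
  hx.induct (fun y hy => Cl.base y (h hy)) (clo_cl s Y)

theorem Cl.loc {s t : Loc} (hst : s ≤ t) {X : Set Ordinal.{0}} {x : Ordinal.{0}}
    (hx : Cl Val s X x) : Cl Val t X x :=
  hx.induct (fun y hy => Cl.base y hy)
    fun x m G h1 h2 h3 y hy => Cl.rule x m G y (h1.trans_le hst) h2 h3 hy

theorem Cl.fin {s : Loc} {X : Set Ordinal.{0}} {x : Ordinal.{0}} (hx : Cl Val s X x) :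
    ∃ F : Finset Ordinal.{0}, (F : Set Ordinal.{0}) ⊆ X ∧ Cl Val s F x := by
  classical
  induction hx with
  | base x hx => exact ⟨{x}, by simpa using hx, Cl.base x (by simp)⟩
  | rule x m G y h1 _ _ h4 ih1 ih2 =>
    obtain ⟨F, hF, hF'⟩ := ih1
    choose! E hE hE' using ih2
    refine ⟨F ∪ G.biUnion E, ?_, ?_⟩
    · rw [Finset.coe_union, Finset.coe_biUnion]
      exact union_subset hF (iUnion₂_subset fun g hg => hE g hg)
    · refine Cl.rule x m G y h1 (hF'.mono ?_) (fun g hg => (hE' g hg).mono ?_) h4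
      · exact_mod_cast Finset.subset_union_left
      · exact_mod_cast (Finset.subset_biUnion_of_mem E hg).trans Finset.subset_union_right

theorem Cl.ctb (h1 : ∀ x m G, (Val x m G).Countable) {s : Loc} {X : Set Ordinal.{0}}
    (hX : X.Countable) : {x | Cl Val s X x}.Countable := by
  -- the iterated closure
  let step : Set Ordinal.{0} → Set Ordinal.{0} := fun Y =>
    Y ∪ ⋃ x ∈ Y, ⋃ m : ℕ, ⋃ G ∈ {G : Finset Ordinal.{0} | (G : Set Ordinal.{0}) ⊆ Y}, Val x m G
  have hstep : ∀ Y : Set Ordinal.{0}, Y.Countable → (step Y).Countable := by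
    intro Y hY
    have hcount : {G : Finset Ordinal.{0} | (G : Set Ordinal.{0}) ⊆ Y}.Countable := by
      have h5 := (Set.countable_ofPred_finite_subset hY).preimage
        (f := fun F : Finset Ordinal.{0} => (F : Set Ordinal.{0})) Finset.coe_injective
      refine h5.mono ?_
      intro F hF
      exact ⟨F.finite_toSet, hF⟩
    exact hY.union (hY.biUnion fun x _ => countable_iUnion fun m =>
      hcount.biUnion fun G _ => h1 x m G)
  let Z : ℕ → Set Ordinal.{0} := fun n => step^[n] X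
  have hZ : ∀ n, Z (n + 1) = step (Z n) := fun n => Function.iterate_succ_apply' step n X
  have hZc : ∀ n, (Z n).Countable := by
    intro n
    induction n with
    | zero => exact hX
    | succ n ih =>
      rw [hZ]
      exact hstep _ ih
  have hZm : Monotone Z := monotone_nat_of_le_succ fun n => by
    rw [hZ]
    exact subset_union_left
  refine (countable_iUnion hZc).mono ?_
  intro x hx
  refine hx.induct (subset_iUnion Z 0) ?_
  intro x m G _ h2 h3 y hy
  obtain ⟨n, hn⟩ := mem_iUnion.1 h2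
  choose! k hk using fun g hg => mem_iUnion.1 (h3 g hg)
  obtain ⟨N, hN1, hN2⟩ : ∃ N, n ≤ N ∧ ∀ g ∈ G, k g ≤ N :=
    ⟨max n (G.sup k), le_max_left _ _, fun g hg => (Finset.le_sup hg).trans (le_max_right _ _)⟩
  refine mem_iUnion.2 ⟨N + 1, ?_⟩
  rw [hZ]
  refine Or.inr ?_
  simp only [mem_iUnion]
  exact ⟨x, hZm hN1 hn, m, G, fun g hg => hZm (hN2 g hg) (hk g hg), hy⟩

theorem Cl.dom (h3 : ∀ x m G, (Val x m G).Nonempty → ∀ g ∈ G, g < x) {s : Loc}
    {X : Set Ordinal.{0}} {x : Ordinal.{0}} (hx : Cl Val s X x) :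
    x ∈ X ∨ Cl Val s (X ∩ Iio (Dm s)) x := by
  induction hx with
  | base x hx => exact Or.inl hx
  | rule x m G y h1 _ _ h4 ih1 ih2 =>
    have hxD : x < Dm s := lt_Dm.2 (mk_zero_le.trans_lt h1)
    refine Or.inr (Cl.rule x m G y h1 ?_ (fun g hg => ?_) h4)
    · rcases ih1 with h | h
      · exact Cl.base x ⟨h, hxD⟩
      · exact h
    · rcases ih2 g hg with h | h
      · exact Cl.base g ⟨h, (h3 x m G ⟨y, h4⟩ g hg).trans hxD⟩
      · exact h

theorem Cl.lim_aux {s : Loc} (hs : ∀ t < s, ∃ t' < s, t < t') {X : Set Ordinal.{0}}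
    {x : Ordinal.{0}} (hx : Cl Val s X x) : x ∈ X ∨ ∃ t < s, Cl Val t X x := by
  induction hx with
  | base x hx => exact Or.inl hx
  | rule x m G y h1 _ _ h4 ih1 ih2 =>
    right
    have ih1' : ∃ t < s, Cl Val t X x := by
      rcases ih1 with h | h
      · exact ⟨_, h1, Cl.base x h⟩
      · exact h
    have ih2' : ∀ g ∈ G, ∃ t < s, Cl Val t X g := by
      intro g hg
      rcases ih2 g hg with h | h
      · exact ⟨_, h1, Cl.base g h⟩
      · exact h
    obtain ⟨t0, ht0, ht0'⟩ := ih1'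
    obtain ⟨t1, ht1, hlt⟩ := hs _ h1
    -- a common bound
    have key : ∀ H : Finset Ordinal.{0}, H ⊆ G → ∃ t < s, ∀ g ∈ H, Cl Val t X g := by
      classical
      intro H
      induction H using Finset.induction_on with
      | empty => exact fun _ => ⟨t1, ht1, by simp⟩
      | insert a H _ ih =>
        intro hH
        obtain ⟨t, ht, ht'⟩ := ih ((Finset.subset_insert a H).trans hH)
        obtain ⟨u, hu, hu'⟩ := ih2' a (hH (Finset.mem_insert_self a H))
        refine ⟨max t u, max_lt ht hu, ?_⟩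
        intro g hg
        rcases Finset.mem_insert.1 hg with rfl | hg
        · exact hu'.loc (le_max_right _ _)
        · exact (ht' g hg).loc (le_max_left _ _)
    obtain ⟨t2, ht2, ht2'⟩ := key G subset_rfl
    refine ⟨max (max t0 t1) t2, max_lt (max_lt ht0 ht1) ht2, ?_⟩
    refine Cl.rule x m G y (hlt.trans_le ((le_max_right _ _).trans (le_max_left _ _)))
      (ht0'.loc ((le_max_left _ _).trans (le_max_left _ _))) ?_ h4
    exact fun g hg => (ht2' g hg).loc (le_max_right _ _)

/-- The transfer. -/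
theorem cl_image {σ : Ordinal.{0} → Ordinal.{0}} {s s' : Loc}
    (h4 : ∀ x m G, tau σ (mk x m G) < s → Val (σ x) m (G.image σ) = σ '' Val x m G)
    (hs : ∀ t, t < s' ↔ tau σ t < s) (Y : Set Ordinal.{0}) :
    σ '' {x | Cl Val s' Y x} = {x | Cl Val s (σ '' Y) x} := by
  ext z
  constructor
  · rintro ⟨x, hx, rfl⟩
    change Cl Val s' Y x at hx
    show Cl Val s (σ '' Y) (σ x)
    induction hx with
    | base x hx => exact Cl.base _ ⟨x, hx, rfl⟩
    | rule x m G y h1 _ _ h5 ih1 ih2 =>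
      have h6 := (hs _).1 h1
      refine Cl.rule (σ x) m (G.image σ) (σ y) h6 ih1 ?_ ?_
      · intro g hg
        obtain ⟨g', hg', rfl⟩ := Finset.mem_image.1 hg
        exact ih2 g' hg'
      · rw [h4 x m G h6]
        exact ⟨y, h5, rfl⟩
  · intro hz
    change Cl Val s (σ '' Y) z at hz
    induction hz with
    | base x hx =>
      obtain ⟨y, hy, rfl⟩ := hx
      exact ⟨y, Cl.base y hy, rfl⟩
    | rule x m G y h1 _ _ h5 ih1 ih2 =>
      obtain ⟨x', hx', rfl⟩ := ih1
      choose! f hf hf' using ih2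
      have hG : (G.image f).image σ = G := by
        rw [Finset.image_image]
        have : ∀ g ∈ G, (σ ∘ f) g = g := fun g hg => hf' g hg
        rw [Finset.image_congr this, Finset.image_id']
      have h6 : tau σ (mk x' m (G.image f)) < s := by
        rw [tau_mk, hG]
        exact h1
      have h7 := h4 x' m (G.image f) h6
      rw [hG] at h7
      rw [h7] at h5
      obtain ⟨y', hy', rfl⟩ := h5
      refine ⟨y', Cl.rule x' m (G.image f) y' ((hs _).2 h6) hx' ?_ hy', rfl⟩
      intro g hg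
      obtain ⟨g', hg', rfl⟩ := Finset.mem_image.1 hg
      exact hf g' hg'

/-- **The fine machine of a family of rules with condensation.** -/
noncomputable def mach (h1 : ∀ x m G, (Val x m G).Countable)
    (h3 : ∀ x m G, (Val x m G).Nonempty → ∀ g ∈ G, g < x)
    (h4 : ∀ (s : Loc) (σ : Ordinal.{0} → Ordinal.{0}), StrictMono σ → Clo Val s (range σ) →
      ∀ x m G, mk (σ x) m (G.image σ) < s → Val (σ x) m (G.image σ) = σ '' Val x m G) :
    FM Loc where
  N s X := {x | Cl Val s X x}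
  D := Dm
  subset s X x hx := Cl.base x hx
  mono s X Y h x hx := Cl.mono h hx
  idem s X x hx := Cl.induct (fun _ h => h) (clo_cl s X) hx
  fin s X x hx := Cl.fin hx
  loc s t X h x hx := Cl.loc h hx
  ctb s X hX := Cl.ctb h1 hX
  dmono s t h := by
    by_contra hn
    rw [not_le] at hn
    exact lt_irrefl _ (lt_Dm.2 ((lt_Dm.1 hn).trans_le h))
  dom s X x hx := by
    rcases Cl.dom h3 hx with h | h
    · exact Or.inr h
    · exact Or.inl h
  lim s := by
    by_cases hs : ∀ t < s, ∃ t' < s, t < t'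
    · refine Or.inl ⟨hs, fun X x hx => Cl.lim_aux hs hx, fun x hx => ?_⟩
      obtain ⟨t, ht, ht'⟩ := hs _ (lt_Dm.1 hx)
      exact ⟨t, ht, lt_Dm.2 ht'⟩
    · push Not at hs
      obtain ⟨t, ht, hm⟩ := hs
      obtain ⟨x, m, G, rfl⟩ := exists_mk t
      refine Or.inr ⟨mk x m G, ht, hm, Val x m G, h1 x m G, ?_⟩
      intro X y hy
      refine Cl.induct (fun z hz => Cl.base z (Or.inl hz)) ?_ hy
      intro x' m' G' h5 h6 h7 z hz
      rcases (hm _ h5).lt_or_eq with h8 | h8
      · exact Cl.rule x' m' G' z h8 h6 h7 hz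
      · refine Cl.base z (Or.inr ?_)
        have h9 : x' = x ∧ m' = m ∧ G' = G := by
          refine ⟨congrArg (fun s : Loc => (ofLex s).1) h8,
            congrArg (fun s : Loc => (ofLex (ofLex s).2).1) h8,
            congrArg (fun s : Loc => ofColex (ofLex (ofLex s).2).2) h8⟩
        obtain ⟨rfl, rfl, rfl⟩ := h9
        exact hz
  cond s σ hσ hr := by
    have hclo : Clo Val s (range σ) := by
      intro x m G h5 h6 h7 y hy
      exact hr (Cl.rule x m G y h5 (Cl.base x h6) (fun g hg => Cl.base g (h7 g hg)) hy)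
    obtain ⟨s', hs', hs''⟩ := exists_pull hσ s
    refine ⟨s', hs', cl_image (h4 s σ hσ hclo) hs'', ?_, ?_⟩
    · intro x
      rw [lt_Dm, lt_Dm, hs'', tau_mk, Finset.image_empty]
    · intro t' ht'
      refine ⟨tau σ t', (hs'' t').1 ht', cl_image ?_ ?_⟩
      · intro x m G h5
        exact h4 s σ hσ hclo x m G (h5.trans ((hs'' t').1 ht'))
      · intro u
        exact (tau_mono hσ).lt_iff_lt.symm

end

end Pool.Agent.Lib.H91W
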