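import Pool.Agent.Lib.Helper43.KK.Realize3

/-!
# Atomic statements about names in terms of truth at the maximum of their levels
-/

set_option autoImplicit false

open Set Ordinal

namespace Pool.Agent.Lib.H91W

open Pool.Agent.Helper43.KK

/-! ## Renaming of variables -/

/-- A renaming under a quantifier. -/
def up (f : ℕ → ℕ) : ℕ → ℕ
  | 0 => 0
  | i + 1 => f i + 1

/-- Renaming of variables. -/
def ren : (ℕ → ℕ) → Fml → Fml
  | f, .mem i j => .mem (f i) (f j)
  | f, .eq i j => .eq (f i) (f j)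
  | f, .neg φ => .neg (ren f φ)
  | f, .and φ ψ => .and (ren f φ) (ren f ψ)
  | f, .ex φ => .ex (ren (up f) φ)

theorem sat_ren {A : Set ZFSet.{0}} {φ : Fml} {f : ℕ → ℕ} {l l' : List ZFSet.{0}}
    (h : ∀ i, l'[f i]? = l[i]?) : (ren f φ).Sat A l' ↔ φ.Sat A l := by
  induction φ generalizing f l l' with
  | mem i j => simp only [ren, Fml.Sat, h]
  | eq i j => simp only [ren, Fml.Sat, h]
  | neg φ ih => simp only [ren, Fml.Sat, ih h]
  | and φ ψ ih1 ih2 => simp only [ren, Fml.Sat, ih1 h, ih2 h]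
  | ex φ ih =>
    simp only [ren, Fml.Sat]
    refine exists_congr fun a => and_congr_right fun _ => ih ?_
    intro i
    cases i with
    | zero => rfl
    | succ i =>
      show (a :: l')[f i + 1]? = (a :: l)[i + 1]?
      rw [List.getElem?_cons_succ, List.getElem?_cons_succ, h]

/-- For all elements of the level, `φ` holds if and only if `ψ` does. -/
def allIff (φ ψ : Fml) : Fml :=
  .neg (.ex (.neg (.and (.neg (.and φ (.neg ψ))) (.neg (.and ψ (.neg φ))))))

theorem sat_allIff {A : Set ZFSet.{0}} {φ ψ : Fml} {l : List ZFSet.{0}} :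
    (allIff φ ψ).Sat A l ↔ ∀ a ∈ A, (φ.Sat A (a :: l) ↔ ψ.Sat A (a :: l)) := by
  simp only [allIff, Fml.Sat]
  constructor
  · intro h a ha
    by_contra hn
    exact h ⟨a, ha, by tauto⟩
  · rintro h ⟨a, ha, h1⟩
    have := h a ha
    tauto

/-! ## Transitivity -/

theorem LLevel_trans {α : Ordinal.{0}} {x y : ZFSet.{0}} (hx : x ∈ LLevel α) (hy : y ∈ x) :
    y ∈ LLevel α := by
  obtain ⟨β, hβ, hx⟩ := mem_LLevel.1 hx
  exact LLevel_mono hβ.le (hx.1 y hy)

theorem eq_nmval_iff {a : Ordinal.{0}} {φ : Fml} {l : List ZFSet.{0}} {x : ZFSet.{0}}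
    (hx : ∀ z ∈ x, z ∈ LLevel a) :
    x = nmval a φ l ↔ ∀ z ∈ LLevel a, (z ∈ x ↔ φ.Sat (LLevel a) (z :: l)) := by
  constructor
  · intro h z hz
    rw [h, mem_nmval]
    exact ⟨fun h => h.2, fun h => ⟨hz, h⟩⟩
  · intro h
    ext z
    rw [mem_nmval]
    constructor
    · intro hz
      exact ⟨hx z hz, (h z (hx z hz)).1 hz⟩
    · rintro ⟨hz, h1⟩
      exact (h z hz).2 h1

/-! ## The four formulas -/

/-- Shift of the parameters by `n`. -/
def sh (n : ℕ) : ℕ → ℕ
  | 0 => 0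
  | i + 1 => i + 1 + n

/-- Skip `n` places after the first `k` parameters. -/
def sk (k n : ℕ) (i : ℕ) : ℕ := if i ≤ k then i else i + n

theorem get_sh {z : ZFSet.{0}} (c d : List ZFSet.{0}) (i : ℕ) :
    (z :: (c ++ d))[sh c.length i]? = (z :: d)[i]? := by
  cases i with
  | zero => rfl
  | succ i =>
    show (z :: (c ++ d))[i + 1 + c.length]? = (z :: d)[i + 1]?
    rw [show i + 1 + c.length = (c.length + i) + 1 by omega, List.getElem?_cons_succ,
      List.getElem?_cons_succ, List.getElem?_append_right (by omega)]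
    congr 1
    omega

theorem get_sk {z : ZFSet.{0}} (c d : List ZFSet.{0}) (i : ℕ) :
    (z :: (c ++ d))[sk c.length d.length i]? = (z :: c)[i]? := by
  unfold sk
  split_ifs with h
  · cases i with
    | zero => rfl
    | succ i =>
      rw [List.getElem?_cons_succ, List.getElem?_cons_succ, List.getElem?_append_left (by omega)]
  · rw [List.getElem?_eq_none, List.getElem?_eq_none]
    · simp only [List.length_cons]
      omega
    · simp only [List.length_cons, List.length_append]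
      omega

/-- `nmval a ψ c = nmval b χ d` for `a < b` at level `b`; parameters `nmval a ψ c`, `d`. -/
def fEL (χ : Fml) : Fml := allIff (.mem 0 1) (ren (sh 1) χ)

theorem sat_fEL {b : Ordinal.{0}} {χ : Fml} {v : ZFSet.{0}} {d : List ZFSet.{0}}
    (hv : ∀ z ∈ v, z ∈ LLevel b) :
    (fEL χ).Sat (LLevel b) (v :: d) ↔ v = nmval b χ d := by
  rw [eq_nmval_iff hv, fEL, sat_allIff]
  refine forall_congr' fun z => forall_congr' fun hz => ?_
  have h1 : (Fml.mem 0 1).Sat (LLevel b) (z :: v :: d) ↔ z ∈ v := by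
    simp only [Fml.Sat, List.getElem?_cons_zero, List.getElem?_cons_succ, Option.some.injEq]
    exact ⟨fun ⟨_, _, h1, h2, h3⟩ => by rw [h1, h2]; exact h3, fun h => ⟨_, _, rfl, rfl, h⟩⟩
  rw [h1, sat_ren (l := z :: d) (f := sh 1) (l' := z :: v :: d) (get_sh [v] d)]

/-- `nmval b ψ c = nmval b χ d` at level `b`; parameters `c`, `d`. -/
def fEE (ψ χ : Fml) (k n : ℕ) : Fml := allIff (ren (sk k n) ψ) (ren (sh k) χ)

theorem sat_fEE {b : Ordinal.{0}} {ψ χ : Fml} {c d : List ZFSet.{0}} {k n : ℕ}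
    (hk : c.length = k) (hn : d.length = n) :
    (fEE ψ χ k n).Sat (LLevel b) (c ++ d) ↔ nmval b ψ c = nmval b χ d := by
  subst hk hn
  rw [eq_nmval_iff (fun z hz => (mem_nmval.1 hz).1), fEE, sat_allIff]
  refine forall_congr' fun z => forall_congr' fun hz => ?_
  rw [sat_ren (get_sk c d), sat_ren (get_sh c d), mem_nmval]
  exact iff_congr ⟨fun h => ⟨hz, h⟩, fun h => h.2⟩ Iff.rfl

/-- `nmval a ψ c ∈ nmval b χ d` for `b < a` at level `a`; parameters `nmval b χ d`, `c`. -/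
def fMG (ψ : Fml) : Fml := .ex (.and (.mem 0 1) (allIff (.mem 0 1) (ren (sh 2) ψ)))

theorem sat_fMG {a : Ordinal.{0}} {ψ : Fml} {v : ZFSet.{0}} {c : List ZFSet.{0}}
    (hv : ∀ z ∈ v, z ∈ LLevel a) :
    (fMG ψ).Sat (LLevel a) (v :: c) ↔ nmval a ψ c ∈ v := by
  have h1 : ∀ z w : ZFSet.{0}, ∀ l : List ZFSet.{0},
      (Fml.mem 0 1).Sat (LLevel a) (z :: w :: l) ↔ z ∈ w := by
    intro z w l
    simp only [Fml.Sat, List.getElem?_cons_zero, List.getElem?_cons_succ, Option.some.injEq]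
    exact ⟨fun ⟨_, _, h1, h2, h3⟩ => by rw [h1, h2]; exact h3, fun h => ⟨_, _, rfl, rfl, h⟩⟩
  have h2 : ∀ w ∈ LLevel a, (allIff (.mem 0 1) (ren (sh 2) ψ)).Sat (LLevel a) (w :: v :: c) ↔
      w = nmval a ψ c := by
    intro w hw
    rw [eq_nmval_iff (fun z hz => LLevel_trans hw hz), sat_allIff]
    refine forall_congr' fun z => forall_congr' fun hz => ?_
    rw [h1, sat_ren (l := z :: c) (f := sh 2) (l' := z :: w :: v :: c) (get_sh [w, v] c)]
  simp only [fMG, Fml.Sat]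
  constructor
  · rintro ⟨w, hw, ⟨x, y, h3, h4, h5⟩, h6⟩
    rw [← (h2 w hw).1 h6]
    simp only [List.getElem?_cons_zero, List.getElem?_cons_succ, Option.some.injEq] at h3 h4
    rw [h3, h4]
    exact h5
  · intro h
    refine ⟨_, hv _ h, ⟨_, _, rfl, rfl, h⟩, (h2 _ (hv _ h)).2 rfl⟩

/-- `nmval b ψ c ∈ nmval b χ d` at level `b`; parameters `c`, `d`. -/
def fME (ψ χ : Fml) (k n : ℕ) : Fml :=
  .ex (.and (ren (sh k) χ) (allIff (.mem 0 1) (ren (sh 1) (ren (sk k n) ψ))))

theorem sat_fME {b : Ordinal.{0}} {ψ χ : Fml} {c d : List ZFSet.{0}} {k n : ℕ}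
    (hk : c.length = k) (hn : d.length = n) :
    (fME ψ χ k n).Sat (LLevel b) (c ++ d) ↔ nmval b ψ c ∈ nmval b χ d := by
  subst hk hn
  have h2 : ∀ w ∈ LLevel b, (allIff (.mem 0 1) (ren (sh 1) (ren (sk c.length d.length) ψ))).Sat
      (LLevel b) (w :: (c ++ d)) ↔ w = nmval b ψ c := by
    intro w hw
    rw [eq_nmval_iff (fun z hz => LLevel_trans hw hz), sat_allIff]
    refine forall_congr' fun z => forall_congr' fun hz => ?_
    have h1 : (Fml.mem 0 1).Sat (LLevel b) (z :: w :: (c ++ d)) ↔ z ∈ w := by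
      simp only [Fml.Sat, List.getElem?_cons_zero, List.getElem?_cons_succ, Option.some.injEq]
      exact ⟨fun ⟨_, _, h1, h2, h3⟩ => by rw [h1, h2]; exact h3, fun h => ⟨_, _, rfl, rfl, h⟩⟩
    rw [h1, sat_ren (l := z :: (c ++ d)) (f := sh 1) (l' := z :: w :: (c ++ d))
      (get_sh [w] (c ++ d)), sat_ren (get_sk c d)]
  simp only [fME, Fml.Sat]
  rw [mem_nmval]
  constructor
  · rintro ⟨w, hw, h3, h4⟩
    rw [sat_ren (get_sh c d)] at h3
    rw [← (h2 w hw).1 h4]
    exact ⟨hw, h3⟩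
  · rintro ⟨hw, h3⟩
    exact ⟨_, hw, (sat_ren (get_sh c d)).2 h3, (h2 _ hw).2 rfl⟩

end Pool.Agent.Lib.H91W
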