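import Pool.Agent.Lib.H91W.B2

/-!
# Transfer of truth along an increasing map of the ordinals
-/

set_option autoImplicit false

open Set Ordinal

namespace Pool.Agent.Lib.H91W

open Pool.Agent.Helper43.KK

/-- The quantifier depth. -/
def dp : Fml → ℕ
  | .mem _ _ => 0
  | .eq _ _ => 0
  | .neg φ => dp φ
  | .and φ ψ => max (dp φ) (dp ψ)
  | .ex φ => dp φ + 1

/-- The labels of a forest. -/
noncomputable def lbl : Frst Ordinal.{0} → Finset Ordinal.{0}
  | .nil => ∅
  | .cons a _ c r => insert a (lbl c ∪ lbl r)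

/-- The number of names of a forest. -/
def len : Frst Ordinal.{0} → ℕ
  | .nil => 0
  | .cons _ _ _ r => len r + 1

theorem length_vals (t : Frst Ordinal.{0}) : (vals t).length = len t := by
  induction t with
  | nil => rfl
  | cons a φ c r _ ihr => rw [vals_cons, List.length_cons, ihr, len]

theorem len_map (σ : Ordinal.{0} → Ordinal.{0}) (t : Frst Ordinal.{0}) : len (t.map σ) = len t := by
  induction t with
  | nil => rfl
  | cons a φ c r _ ihr => rw [Frst.map_cons, len, len, ihr]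

theorem lbl_map (σ : Ordinal.{0} → Ordinal.{0}) (t : Frst Ordinal.{0}) :
    lbl (t.map σ) = (lbl t).image σ := by
  induction t with
  | nil => rfl
  | cons a φ c r ihc ihr =>
    rw [Frst.map_cons, lbl, lbl, ihc, ihr, Finset.image_insert, Finset.image_union]

theorem over_iff {S : Set Ordinal.{0}} {t : Frst Ordinal.{0}} :
    t.Over S ↔ ∀ x ∈ lbl t, x ∈ S := by
  induction t with
  | nil => simp [Frst.Over, lbl]
  | cons a φ c r ihc ihr =>
    simp only [Frst.Over, lbl, Finset.mem_insert, Finset.mem_union, ihc, ihr]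
    constructor
    · rintro ⟨h1, h2, h3⟩ x (rfl | h | h)
      · exact h1
      · exact h2 x h
      · exact h3 x h
    · intro h
      exact ⟨h a (Or.inl rfl), fun x hx => h x (Or.inr (Or.inl hx)),
        fun x hx => h x (Or.inr (Or.inr hx))⟩

variable {σ : Ordinal.{0} → Ordinal.{0}}

theorem proper_map (hσ : StrictMono σ) {b : Ordinal.{0}} {t : Frst Ordinal.{0}} :
    Proper (σ b) (t.map σ) ↔ Proper b t := by
  induction t generalizing b with
  | nil => simp [Proper]
  | cons a φ c r ihc ihr => simp only [Frst.map_cons, Proper, hσ.lt_iff_lt, ihc, ihr]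

/-- The transfer of truth at the level `x`. -/
def TT (σ : Ordinal.{0} → Ordinal.{0}) (x : Ordinal.{0}) : Prop :=
  ∀ φ t, Tr x φ t ↔ Tr (σ x) φ (t.map σ)

/-- The transfer of equality. -/
theorem eq_transfer (hσ : StrictMono σ) {a b : Ordinal.{0}} (ha : TT σ a) (hb : TT σ b)
    {ψ χ : Fml} {c d : Frst Ordinal.{0}} (hc : Proper a c) (hd : Proper b d) :
    nmval a ψ (vals c) = nmval b χ (vals d) ↔
      nmval (σ a) ψ (vals (c.map σ)) = nmval (σ b) χ (vals (d.map σ)) := by
  have hc' := (proper_map hσ).2 hc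
  have hd' := (proper_map hσ).2 hd
  rcases lt_trichotomy a b with h | rfl | h
  · have h1 := hb (fEL χ) (.cons a ψ c d)
    simp only [Tr, Proper, Frst.map_cons, vals_cons] at h1
    rw [sat_fEL, sat_fEL] at h1
    · constructor
      · intro h2
        exact (h1.1 ⟨⟨h, hc, hd⟩, h2⟩).2
      · intro h2
        exact (h1.2 ⟨⟨hσ h, hc', hd'⟩, h2⟩).2
    · exact fun z hz => LLevel_mono (hσ h).le (mem_nmval.1 hz).1
    · exact fun z hz => LLevel_mono h.le (mem_nmval.1 hz).1
  · have h1 := hb (fEE ψ χ (len c) (len d)) (c.app d)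
    simp only [Tr, proper_app, Frst.map_app, vals_app] at h1
    rw [sat_fEE (length_vals c) (length_vals d), sat_fEE ((length_vals _).trans (len_map σ c))
      ((length_vals _).trans (len_map σ d))] at h1
    constructor
    · intro h2
      exact (h1.1 ⟨⟨hc, hd⟩, h2⟩).2
    · intro h2
      exact (h1.2 ⟨⟨hc', hd'⟩, h2⟩).2
  · have h1 := ha (fEL ψ) (.cons b χ d c)
    simp only [Tr, Proper, Frst.map_cons, vals_cons] at h1
    rw [sat_fEL, sat_fEL] at h1
    · constructor
      · intro h2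
        exact (h1.1 ⟨⟨h, hd, hc⟩, h2.symm⟩).2.symm
      · intro h2
        exact (h1.2 ⟨⟨hσ h, hd', hc'⟩, h2.symm⟩).2.symm
    · exact fun z hz => LLevel_mono (hσ h).le (mem_nmval.1 hz).1
    · exact fun z hz => LLevel_mono h.le (mem_nmval.1 hz).1

/-- The transfer of membership. -/
theorem mem_transfer (hσ : StrictMono σ) {a b : Ordinal.{0}} (ha : TT σ a) (hb : TT σ b)
    {ψ χ : Fml} {c d : Frst Ordinal.{0}} (hc : Proper a c) (hd : Proper b d) :
    nmval a ψ (vals c) ∈ nmval b χ (vals d) ↔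
      nmval (σ a) ψ (vals (c.map σ)) ∈ nmval (σ b) χ (vals (d.map σ)) := by
  have hc' := (proper_map hσ).2 hc
  have hd' := (proper_map hσ).2 hd
  rcases lt_trichotomy a b with h | rfl | h
  · have h1 := hb χ (.cons a ψ c d)
    rw [Frst.map_cons, tr_cons_iff, tr_cons_iff] at h1
    constructor
    · intro h2
      exact (h1.1 ⟨h, hc, hd, h2⟩).2.2.2
    · intro h2
      exact (h1.2 ⟨hσ h, hc', hd', h2⟩).2.2.2
  · have h1 := hb (fME ψ χ (len c) (len d)) (c.app d)
    simp only [Tr, proper_app, Frst.map_app, vals_app] at h1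
    rw [sat_fME (length_vals c) (length_vals d), sat_fME ((length_vals _).trans (len_map σ c))
      ((length_vals _).trans (len_map σ d))] at h1
    constructor
    · intro h2
      exact (h1.1 ⟨⟨hc, hd⟩, h2⟩).2
    · intro h2
      exact (h1.2 ⟨⟨hc', hd'⟩, h2⟩).2
  · have h1 := ha (fMG ψ) (.cons b χ d c)
    simp only [Tr, Proper, Frst.map_cons, vals_cons] at h1
    rw [sat_fMG, sat_fMG] at h1
    · constructor
      · intro h2
        exact (h1.1 ⟨⟨h, hd, hc⟩, h2⟩).2
      · intro h2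
        exact (h1.2 ⟨⟨hσ h, hd', hc'⟩, h2⟩).2
    · exact fun z hz => LLevel_mono (hσ h).le (mem_nmval.1 hz).1
    · exact fun z hz => LLevel_mono h.le (mem_nmval.1 hz).1

/-- The values of the rule with the level `x`, the number `m`, the parameters `G`: the entries of
least witnesses for formulas of depth at most `m` over `L_x`. -/
def Vl (x : Ordinal.{0}) (m : ℕ) (G : Finset Ordinal.{0}) : Set Ordinal.{0} :=
  {y | ∃ (t : Frst Ordinal.{0}) (φ : Fml) (k : ℕ) (s : Frst (Fin k)) (a : Fin k → Ordinal.{0})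
    (i : Fin k), lbl t = G ∧ dp φ ≤ m ∧ IsLeastWit x x φ t s a ∧ y = a i}

/-- **The transfer of truth.** -/
theorem tr_transfer (hσ : StrictMono σ) (x : Ordinal.{0}) : ∀ n : ℕ,
    (∀ y m G, (y < x ∨ (y = x ∧ m < n)) → Vl (σ y) m (Finset.image σ G) ⊆ range σ) →
      ∀ φ, dp φ ≤ n → ∀ t, Tr x φ t ↔ Tr (σ x) φ (t.map σ) := by
  induction x using WellFoundedLT.induction with
  | ind x ih =>
    intro n hn
    -- the transfer at the lower levels
    have hT : ∀ y < x, TT σ y := by
      intro y hy φ t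
      refine ih y hy (dp φ) ?_ φ le_rfl t
      rintro z m G (h | ⟨rfl, -⟩)
      · exact hn z m G (Or.inl (h.trans hy))
      · exact hn z m G (Or.inl hy)
    intro φ
    induction φ with
    | mem i j =>
      intro _ t
      rw [tr_mem_get, tr_mem_get, proper_map hσ]
      refine and_congr_right fun hp => ?_
      constructor
      · rintro ⟨u, v, hu, hv, h1⟩
        obtain ⟨hu1, hu2⟩ := hp.get? hu
        obtain ⟨hv1, hv2⟩ := hp.get? hv
        refine ⟨(σ u.1, u.2.1, u.2.2.map σ), (σ v.1, v.2.1, v.2.2.map σ), ?_, ?_, ?_⟩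
        · rw [Frst.map_get?, hu]
          rfl
        · rw [Frst.map_get?, hv]
          rfl
        · rw [tr_mem_iff] at h1 ⊢
          exact ⟨hσ hu1, (proper_map hσ).2 hu2, hσ hv1, (proper_map hσ).2 hv2,
            (mem_transfer hσ (hT _ hu1) (hT _ hv1) hu2 hv2).1 h1.2.2.2.2⟩
      · rintro ⟨u', v', hu', hv', h1⟩
        rw [Frst.map_get?, Option.map_eq_some_iff] at hu' hv'
        obtain ⟨u, hu, rfl⟩ := hu'
        obtain ⟨v, hv, rfl⟩ := hv'
        obtain ⟨hu1, hu2⟩ := hp.get? hu
        obtain ⟨hv1, hv2⟩ := hp.get? hv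
        refine ⟨u, v, hu, hv, ?_⟩
        rw [tr_mem_iff] at h1 ⊢
        exact ⟨hu1, hu2, hv1, hv2, (mem_transfer hσ (hT _ hu1) (hT _ hv1) hu2 hv2).2 h1.2.2.2.2⟩
    | eq i j =>
      intro _ t
      rw [tr_eq_get, tr_eq_get, proper_map hσ]
      refine and_congr_right fun hp => ?_
      constructor
      · rintro ⟨u, v, hu, hv, h1⟩
        obtain ⟨hu1, hu2⟩ := hp.get? hu
        obtain ⟨hv1, hv2⟩ := hp.get? hv
        refine ⟨(σ u.1, u.2.1, u.2.2.map σ), (σ v.1, v.2.1, v.2.2.map σ), ?_, ?_, ?_⟩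
        · rw [Frst.map_get?, hu]
          rfl
        · rw [Frst.map_get?, hv]
          rfl
        · rw [tr_eq_iff] at h1 ⊢
          exact ⟨hσ hu1, (proper_map hσ).2 hu2, hσ hv1, (proper_map hσ).2 hv2,
            (eq_transfer hσ (hT _ hu1) (hT _ hv1) hu2 hv2).1 h1.2.2.2.2⟩
      · rintro ⟨u', v', hu', hv', h1⟩
        rw [Frst.map_get?, Option.map_eq_some_iff] at hu' hv'
        obtain ⟨u, hu, rfl⟩ := hu'
        obtain ⟨v, hv, rfl⟩ := hv'
        obtain ⟨hu1, hu2⟩ := hp.get? hu
        obtain ⟨hv1, hv2⟩ := hp.get? hv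
        refine ⟨u, v, hu, hv, ?_⟩
        rw [tr_eq_iff] at h1 ⊢
        exact ⟨hu1, hu2, hv1, hv2, (eq_transfer hσ (hT _ hu1) (hT _ hv1) hu2 hv2).2 h1.2.2.2.2⟩
    | neg φ ihφ =>
      intro hd t
      have h1 := ihφ hd t
      have h2 : Proper (σ x) (t.map σ) ↔ Proper x t := proper_map hσ
      simp only [Tr, Fml.Sat] at h1 ⊢
      tauto
    | and φ ψ ihφ ihψ =>
      intro hd t
      have h1 := ihφ ((le_max_left _ _).trans hd) t
      have h1' := ihψ ((le_max_right _ _).trans hd) t
      have h2 : Proper (σ x) (t.map σ) ↔ Proper x t := proper_map hσ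
      simp only [Tr, Fml.Sat] at h1 h1' ⊢
      tauto
    | ex φ ihφ =>
      intro hd t
      have hd' : dp φ < n := hd
      have h1 := ihφ hd'.le
      constructor
      · rintro ⟨hp, z, hz, hs⟩
        obtain ⟨b, χ, d, hb, pd, rfl⟩ := exists_name hz
        obtain ⟨⟨h2, h3, h4⟩, h5⟩ := (h1 (.cons b χ d t)).1 ⟨⟨hb, pd, hp⟩, hs⟩
        exact ⟨h4, _, nmval_mem h2 h3.vals_mem, h5⟩
      · rintro ⟨hp, z, hz, hs⟩
        obtain ⟨b, χ, d, hb, pd, rfl⟩ := exists_name hz
        obtain ⟨k, s, a, ha1, ha2⟩ := Frst.exists_fin' (.cons b χ d .nil) (T := Iio (σ x))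
          ⟨hb, pd.over.mono (Iio_subset_Iio hb.le), trivial⟩
        obtain ⟨a', ha'⟩ := exists_isLeastWit (θ := σ x) (β := σ x) (φ := φ) (t := t.map σ)
          (σ := s) ⟨a, ha1, by rw [ha2]; exact ⟨hb, pd, trivial⟩,
            by rw [ha2]; exact ⟨⟨hb, pd, hp⟩, hs⟩⟩
        have h6 : ∀ i, a' i ∈ range σ := by
          intro i
          refine hn x (dp φ) (lbl t) (Or.inr ⟨rfl, hd'⟩) ?_
          exact ⟨t.map σ, φ, k, s, a', i, lbl_map σ t, le_rfl, ha', rfl⟩
        choose a'' ha'' using h6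
        have h7 : a' = fun i => σ (a'' i) := funext fun i => (ha'' i).symm
        subst h7
        obtain ⟨-, -, h8⟩ := ha'.1
        rw [← Frst.map_map, ← Frst.map_app] at h8
        have h9 := (h1 _).2 h8
        cases s with
        | nil => simp at ha2
        | cons i χ' sc sr =>
          simp only [Frst.map_cons, Frst.cons.injEq] at ha2
          obtain ⟨-, rfl, -, h10⟩ := ha2
          cases sr with
          | cons => simp at h10
          | nil =>
            rw [Frst.map_cons] at h9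
            obtain ⟨⟨h11, h12, h13⟩, h14⟩ := h9
            exact ⟨h13, _, nmval_mem h11 h12.vals_mem, h14⟩

end Pool.Agent.Lib.H91W
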