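import Pool.Agent.Lib.H91W.B1
import Pool.Agent.Lib.H91W.B3

/-!
# The fine machine of the constructible hierarchy
-/

set_option autoImplicit false

open Set Ordinal

namespace Pool.Agent.Lib.H91W

open Pool.Agent.Helper43.KK

theorem countable_lbl (G : Finset Ordinal.{0}) : {t : Frst Ordinal.{0} | lbl t = G}.Countable := by
  have : Countable (G : Set Ordinal.{0}) := G.countable_toSet
  refine (countable_range fun t : Frst (G : Set Ordinal.{0}) => t.map Subtype.val).mono ?_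
  intro t ht
  obtain ⟨s, hs⟩ := Frst.exists_map_eq (f := fun z : ↥(G : Set Ordinal.{0}) => z.1)
    (t := t) (over_iff.2 fun x hx => ⟨⟨x, by
      have h1 : lbl t = G := ht
      rw [← h1]
      exact hx⟩, rfl⟩)
  exact ⟨s, hs⟩

theorem vl_countable (x : Ordinal.{0}) (m : ℕ) (G : Finset Ordinal.{0}) :
    (Vl x m G).Countable := by
  have h1 : Vl x m G ⊆ ⋃ t ∈ {t : Frst Ordinal.{0} | lbl t = G}, ⋃ φ : Fml, ⋃ k : ℕ,
      ⋃ s : Frst (Fin k), ⋃ i : Fin k, {y | ∃ a, IsLeastWit x x φ t s a ∧ y = a i} := by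
    rintro y ⟨t, φ, k, s, a, i, h1, -, h3, rfl⟩
    simp only [mem_iUnion]
    exact ⟨t, h1, φ, k, s, i, a, h3, rfl⟩
  refine Countable.mono h1 ?_
  refine (countable_lbl G).biUnion fun t _ => countable_iUnion fun φ => countable_iUnion fun k =>
    countable_iUnion fun s => countable_iUnion fun i => Set.Subsingleton.countable ?_
  rintro y ⟨a, ha, rfl⟩ z ⟨b, hb, rfl⟩
  rw [ha.unique hb]

theorem vl_lt {x : Ordinal.{0}} {m : ℕ} {G : Finset Ordinal.{0}} (h : (Vl x m G).Nonempty) :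
    ∀ g ∈ G, g < x := by
  obtain ⟨y, t, φ, k, s, a, i, rfl, -, ⟨⟨-, -, h3⟩, -⟩, -⟩ := h
  intro g hg
  exact over_iff.1 (proper_app.1 h3.1).2.over g hg

theorem lexLT_map {σ : Ordinal.{0} → Ordinal.{0}} (hσ : StrictMono σ) {k : ℕ}
    {a b : Fin k → Ordinal.{0}} : LexLT (fun i => σ (a i)) (fun i => σ (b i)) ↔ LexLT a b := by
  rw [lexLT_iff, lexLT_iff]
  refine exists_congr fun i => and_congr ?_ hσ.lt_iff_lt
  exact forall_congr' fun j => forall_congr' fun _ => hσ.injective.eq_iff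

theorem wit_transfer {σ : Ordinal.{0} → Ordinal.{0}} (hσ : StrictMono σ) {x : Ordinal.{0}}
    {φ : Fml} (h : ∀ t, Tr x φ t ↔ Tr (σ x) φ (t.map σ)) (t : Frst Ordinal.{0}) {k : ℕ}
    (s : Frst (Fin k)) (a : Fin k → Ordinal.{0}) :
    IsWit x x φ t s a ↔ IsWit (σ x) (σ x) φ (t.map σ) s (fun i => σ (a i)) := by
  unfold IsWit
  rw [← Frst.map_map a σ s, ← Frst.map_app, ← h, proper_map hσ]
  refine and_congr ?_ Iff.rfl
  exact forall_congr' fun i => hσ.lt_iff_lt.symm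

/-- **Condensation.** -/
theorem vl_cond (s : Loc) (σ : Ordinal.{0} → Ordinal.{0}) (hσ : StrictMono σ)
    (hc : Clo Vl s (range σ)) (x : Ordinal.{0}) (m : ℕ) (G : Finset Ordinal.{0})
    (h : mk (σ x) m (G.image σ) < s) : Vl (σ x) m (G.image σ) = σ '' Vl x m G := by
  have himg : ∀ H : Finset Ordinal.{0}, ∀ g ∈ H.image σ, g ∈ range σ := by
    intro H g hg
    obtain ⟨g', -, rfl⟩ := Finset.mem_image.1 hg
    exact mem_range_self _
  have hT := tr_transfer hσ x m (by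
    rintro y m' H (h1 | ⟨rfl, h1⟩)
    · exact hc (σ y) m' _ ((mk_lt.2 (Or.inl (hσ h1))).trans h) (mem_range_self _) (himg H)
    · exact hc (σ y) m' _ ((mk_lt.2 (Or.inr ⟨rfl, Or.inl h1⟩)).trans h) (mem_range_self _) (himg H))
  have hr : Vl (σ x) m (G.image σ) ⊆ range σ := hc (σ x) m _ h (mem_range_self _) (himg G)
  -- least witnesses
  have key : ∀ t : Frst Ordinal.{0}, lbl t = G → ∀ φ, dp φ ≤ m → ∀ (k : ℕ) (s : Frst (Fin k))
      (b : Fin k → Ordinal.{0}), IsLeastWit (σ x) (σ x) φ (t.map σ) s b →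
      ∃ b', b = (fun i => σ (b' i)) ∧ IsLeastWit x x φ t s b' := by
    intro t ht φ hφ k s b hb
    have h1 : ∀ i, b i ∈ range σ := fun i =>
      hr ⟨t.map σ, φ, k, s, b, i, by rw [lbl_map, ht], hφ, hb, rfl⟩
    choose b' hb' using h1
    have h2 : b = fun i => σ (b' i) := funext fun i => (hb' i).symm
    subst h2
    refine ⟨b', rfl, (wit_transfer hσ (hT φ hφ) t s b').2 hb.1, ?_⟩
    intro c hc hlt
    exact hb.2 _ ((wit_transfer hσ (hT φ hφ) t s c).1 hc) ((lexLT_map hσ).2 hlt)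
  apply Subset.antisymm
  · rintro y ⟨t', φ, k, s, b, i, h1, h2, h3, rfl⟩
    obtain ⟨t, rfl⟩ := Frst.exists_map_eq (f := σ) (t := t') (over_iff.2 fun g hg =>
      himg G g (h1 ▸ hg))
    rw [lbl_map] at h1
    obtain ⟨b', rfl, h4⟩ := key t (Finset.image_injective hσ.injective h1) φ h2 k s b h3
    exact ⟨b' i, ⟨t, φ, k, s, b', i, Finset.image_injective hσ.injective h1, h2, h4, rfl⟩, rfl⟩
  · rintro _ ⟨y, ⟨t, φ, k, s, a, i, h1, h2, h3, rfl⟩, rfl⟩
    obtain ⟨b, hb⟩ := exists_isLeastWit ⟨_, (wit_transfer hσ (hT φ h2) t s a).1 h3.1⟩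
    obtain ⟨b', rfl, h4⟩ := key t h1 φ h2 k s b hb
    rw [h3.unique h4]
    exact ⟨t.map σ, φ, k, s, _, i, by rw [lbl_map, h1], h2, hb, rfl⟩

/-- **The fine machine of `L`.** -/
noncomputable def LM : FM Loc := mach vl_countable (fun _ _ _ h => vl_lt h) vl_cond

end Pool.Agent.Lib.H91W
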