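import Pool.Agent.Lib.H91W.B4

/-!
# Ordinals which are singular in `L` are singularized by the fine machine of `L`
-/

set_option autoImplicit false

open Set Ordinal

namespace Pool.Agent.Lib.H91W

open Pool.Agent.Helper43.KK

/-- `β` is singular in the constructible universe: for some `γ < β` a constructible function (a
constructible set of ordered pairs of von Neumann ordinals) maps `γ` cofinally to `β`. -/
def SingularInL (β : Ordinal.{0}) : Prop :=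
  ∃ γ < β, ∃ f : Ordinal.{0} → Ordinal.{0}, (∀ ξ < γ, f ξ < β) ∧ (∀ x < β, ∃ ξ < γ, x ≤ f ξ) ∧
    ∃ F : ZFSet.{0}, (∀ z, z ∈ F ↔ ∃ ξ < γ, z = ZFSet.pair ξ.toZFSet (f ξ).toZFSet) ∧
      ∃ α : Ordinal.{0}, F ∈ LLevel α

/-! ## Formulas -/

def all' (φ : Fml) : Fml := .neg (.ex (.neg φ))

def imp' (φ ψ : Fml) : Fml := .neg (.and φ (.neg ψ))

variable {A : Set ZFSet.{0}} {l : List ZFSet.{0}}

theorem sat_all {φ : Fml} : (all' φ).Sat A l ↔ ∀ a ∈ A, φ.Sat A (a :: l) := by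
  simp only [all', Fml.Sat]
  constructor
  · intro h a ha
    by_contra hn
    exact h ⟨a, ha, hn⟩
  · rintro h ⟨a, ha, h1⟩
    exact h1 (h a ha)

theorem sat_imp {φ ψ : Fml} : (imp' φ ψ).Sat A l ↔ (φ.Sat A l → ψ.Sat A l) := by
  simp only [imp', Fml.Sat]
  tauto

theorem sat_mem {i j : ℕ} {x y : ZFSet.{0}} (hi : l[i]? = some x) (hj : l[j]? = some y) :
    (Fml.mem i j).Sat A l ↔ x ∈ y := by
  simp only [Fml.Sat, hi, hj, Option.some.injEq]
  exact ⟨fun ⟨_, _, h1, h2, h3⟩ => by rw [h1, h2]; exact h3, fun h => ⟨_, _, rfl, rfl, h⟩⟩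

theorem sat_eq {i j : ℕ} {x y : ZFSet.{0}} (hi : l[i]? = some x) (hj : l[j]? = some y) :
    (Fml.eq i j).Sat A l ↔ x = y := by
  simp only [Fml.Sat, hi, hj, Option.some.injEq]
  exact ⟨fun ⟨_, h1, h2⟩ => h1.trans h2.symm, fun h => ⟨_, h, rfl⟩⟩

/-- `z` is an ordinal. -/
def fO : Fml :=
  .and (all' (imp' (.mem 0 1) (all' (imp' (.mem 0 1) (.mem 0 2)))))
    (all' (imp' (.mem 0 1) (all' (imp' (.mem 0 1) (all' (imp' (.mem 0 1) (.mem 0 2)))))))

theorem sat_fO (hA : ∀ x ∈ A, ∀ y ∈ x, y ∈ A) {z : ZFSet.{0}} (hz : z ∈ A) :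
    fO.Sat A (z :: l) ↔ z.IsOrdinal := by
  have h1 : fO.Sat A (z :: l) ↔ (∀ x ∈ A, x ∈ z → ∀ y ∈ A, y ∈ x → y ∈ z) ∧
      ∀ x ∈ A, x ∈ z → ∀ y ∈ A, y ∈ x → ∀ w ∈ A, w ∈ y → w ∈ x := by
    show (_ ∧ _) ↔ _
    simp only [sat_all, sat_imp]
    refine and_congr ?_ ?_
    · refine forall₂_congr fun x _ => imp_congr (sat_mem rfl rfl) ?_
      exact forall₂_congr fun y _ => imp_congr (sat_mem rfl rfl) (sat_mem rfl rfl)
    · refine forall₂_congr fun x _ => imp_congr (sat_mem rfl rfl) ?_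
      refine forall₂_congr fun y _ => imp_congr (sat_mem rfl rfl) ?_
      exact forall₂_congr fun w _ => imp_congr (sat_mem rfl rfl) (sat_mem rfl rfl)
  rw [h1]
  constructor
  · rintro ⟨h2, h3⟩
    refine ⟨fun x hx y hy => ?_, fun {w y x} hw hy hx => ?_⟩
    · exact h2 x (hA z hz x hx) hx y (hA x (hA z hz x hx) y hy) hy
    · have hxA := hA z hz x hx
      have hyA := hA x hxA y hy
      exact h3 x hxA hx y hyA hy w (hA y hyA w hw) hw
  · intro h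
    exact ⟨fun x _ hx y _ hy => h.subset_of_mem hx hy, fun x _ hx y _ hy w _ hw =>
      h.mem_trans' hw hy hx⟩

/-- The canonical name of an ordinal. -/
theorem nm_ord (a : Ordinal.{0}) : nmval a fO [] = a.toZFSet := by
  induction a using WellFoundedLT.induction with
  | ind a ih =>
    ext z
    rw [mem_nmval, mem_toZFSet_iff]
    constructor
    · rintro ⟨h1, h2⟩
      rw [sat_fO (fun x hx y hy => LLevel_trans hx hy) h1] at h2
      have h3 := ZFSet.mem_vonNeumann.1 (LLevel_subset_vonNeumann a z h1)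
      exact ⟨z.rank, h3, h2.toZFSet_rank_eq⟩
    · rintro ⟨b, hb, rfl⟩
      have h1 : b.toZFSet ∈ LLevel a := by
        rw [← ih b hb]
        exact nmval_mem hb (by simp)
      exact ⟨h1, (sat_fO (fun x hx y hy => LLevel_trans hx hy) h1).2 (ZFSet.isOrdinal_toZFSet b)⟩

/-- `(x, w) ∈ F` for the list `w, x, F`. -/
def fP : Fml :=
  .ex (.and (.mem 0 3) (.and (all' (imp' (.mem 0 1) (.mem 3 0)))
    (.and (.ex (.and (.mem 0 1) (.mem 2 0)))
      (all' (imp' (.mem 0 1) (all' (imp' (.mem 0 1) (imp' (.neg (.eq 0 4)) (.eq 0 3)))))))))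

theorem sat_fP (hA : ∀ x ∈ A, ∀ y ∈ x, y ∈ A) {w x F : ZFSet.{0}} (hF : F ∈ A) :
    fP.Sat A [w, x, F] ↔ ∃ u ∈ F, (∀ v ∈ u, x ∈ v) ∧ (∃ v ∈ u, w ∈ v) ∧
      ∀ v ∈ u, ∀ z ∈ v, z = x ∨ z = w := by
  have h1 : fP.Sat A [w, x, F] ↔ ∃ u ∈ A, u ∈ F ∧ (∀ v ∈ A, v ∈ u → x ∈ v) ∧
      (∃ v ∈ A, v ∈ u ∧ w ∈ v) ∧ ∀ v ∈ A, v ∈ u → ∀ z ∈ A, z ∈ v → ¬ z = x → z = w := by
    show (∃ u ∈ A, _ ∧ _ ∧ _ ∧ _) ↔ _
    simp only [sat_all, sat_imp]
    refine exists_congr fun u => and_congr_right fun _ => and_congr (sat_mem rfl rfl) ?_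
    refine and_congr ?_ (and_congr ?_ ?_)
    · exact forall₂_congr fun v _ => imp_congr (sat_mem rfl rfl) (sat_mem rfl rfl)
    · exact exists_congr fun v => and_congr_right fun _ =>
        and_congr (sat_mem rfl rfl) (sat_mem rfl rfl)
    · refine forall₂_congr fun v _ => imp_congr (sat_mem rfl rfl) ?_
      refine forall₂_congr fun z _ => imp_congr (sat_mem rfl rfl) ?_
      exact imp_congr (not_congr (sat_eq rfl rfl)) (sat_eq rfl rfl)
  rw [h1]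
  constructor
  · rintro ⟨u, hu, huF, h2, ⟨v, -, h3, h4⟩, h5⟩
    refine ⟨u, huF, fun v hv => h2 v (hA u hu v hv) hv, ⟨v, h3, h4⟩, ?_⟩
    intro v hv z hz
    have hvA := hA u hu v hv
    have := h5 v hvA hv z (hA v hvA z hz) hz
    tauto
  · rintro ⟨u, huF, h2, ⟨v, h3, h4⟩, h5⟩
    have huA := hA F hF u huF
    refine ⟨u, huA, huF, fun v _ hv => h2 v hv, ⟨v, hA u huA v h3, h3, h4⟩, ?_⟩
    intro v _ hv z _ hz hne
    exact (h5 v hv z hz).resolve_left hne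

theorem pair_iff {a b x w : ZFSet.{0}} : ((∀ v ∈ ZFSet.pair a b, x ∈ v) ∧
    (∃ v ∈ ZFSet.pair a b, w ∈ v) ∧ ∀ v ∈ ZFSet.pair a b, ∀ z ∈ v, z = x ∨ z = w) ↔
    x = a ∧ w = b := by
  unfold ZFSet.pair
  simp only [ZFSet.mem_pair, forall_eq_or_imp, forall_eq, ZFSet.mem_singleton, exists_eq_or_imp,
    exists_eq_left]
  constructor
  · rintro ⟨⟨h1, -⟩, h2, -, h3, h4⟩
    subst h1
    refine ⟨rfl, ?_⟩
    rcases h4 with h4 | h4
    · subst h4
      rcases h2 with h2 | h2 | h2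
      · exact h2
      · exact h2
      · exact h2
    · exact h4.symm
  · rintro ⟨rfl, rfl⟩
    exact ⟨⟨rfl, Or.inl rfl⟩, Or.inr (Or.inr rfl), Or.inl rfl, Or.inl rfl, Or.inr rfl⟩

/-- **Singularization.** -/
theorem sing_of {β : Ordinal.{0}} (h : SingularInL β) : ∃ s, Sing LM s β := by
  obtain ⟨γ, hγ, f, hf, hf', F, hF, α, hα⟩ := h
  -- the level
  obtain ⟨θ, hθβ, hθ⟩ : ∃ θ : Ordinal.{0}, β < θ ∧ F ∈ LLevel θ :=
    ⟨max α (β + 1), lt_max_of_lt_right (Order.lt_add_one_iff.2 le_rfl),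
      LLevel_mono (le_max_left _ _) hα⟩
  obtain ⟨b, ψ, c, hb, pc, hFn⟩ := exists_name hθ
  let p : Finset Ordinal.{0} := insert θ (insert b (lbl c))
  refine ⟨mk θ (dp fP + 1) ∅, γ, hγ, p, ?_⟩
  intro x hx
  obtain ⟨ξ, hξ, hxξ⟩ := hf' x hx
  refine ⟨f ξ, ?_, hxξ, hf ξ hξ⟩
  -- the forest of parameters
  let t : Frst Ordinal.{0} := .cons ξ fO .nil (.cons b ψ c .nil)
  have hsub : ∀ y ∈ Iio γ ∪ (p : Set Ordinal.{0}), Cl Vl (mk θ (dp fP + 1) ∅) (Iio γ ∪ p) y :=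
    fun y hy => Cl.base y hy
  have hξθ : ξ < θ := hξ.trans (hγ.trans hθβ)
  have hpt : Proper θ t := ⟨hξθ, trivial, hb, pc, trivial⟩
  -- witnesses
  have hwit : ∀ a : Fin 1 → Ordinal.{0},
      IsWit θ θ fP t (.cons 0 fO .nil .nil) a ↔ a 0 = f ξ := by
    intro a
    have hA : ∀ x ∈ LLevel θ, ∀ y ∈ x, y ∈ LLevel θ := fun x hx y hy => LLevel_trans hx hy
    have h1 : fP.Sat (LLevel θ) [(a 0).toZFSet, ξ.toZFSet, F] ↔ a 0 = f ξ := by
      rw [sat_fP hA hθ]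
      constructor
      · rintro ⟨u, hu, h2⟩
        obtain ⟨η, hη, rfl⟩ := (hF u).1 hu
        obtain ⟨h3, h4⟩ := pair_iff.1 h2
        rw [toZFSet_injective h3]
        exact toZFSet_injective h4
      · intro h2
        exact ⟨_, (hF _).2 ⟨ξ, hξ, rfl⟩, pair_iff.2 ⟨rfl, by rw [h2]⟩⟩
    have hv : vals ((Frst.cons (0 : Fin 1) fO .nil .nil).map a |>.app t) =
        [(a 0).toZFSet, ξ.toZFSet, F] := by
      simp only [Frst.map_cons, Frst.map_nil, Frst.app, vals_cons, vals_nil, t, nm_ord, hFn]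
    constructor
    · rintro ⟨-, -, -, h3⟩
      rw [hv] at h3
      exact h1.1 h3
    · intro h2
      have h3 : a 0 < θ := by
        rw [h2]
        exact (hf ξ hξ).trans hθβ
      refine ⟨fun i => by rw [Fin.fin_one_eq_zero i]; exact h3, ⟨h3, trivial, trivial⟩,
        ⟨h3, trivial, hpt⟩, ?_⟩
      rw [hv]
      exact h1.2 h2
  have hlw : IsLeastWit θ θ fP t (.cons 0 fO .nil .nil) (fun _ : Fin 1 => f ξ) := by
    refine ⟨(hwit _).2 rfl, ?_⟩
    intro a ha hlt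
    obtain ⟨i, -, hi⟩ := lexLT_iff.1 hlt
    rw [Fin.fin_one_eq_zero i, (hwit a).1 ha] at hi
    exact lt_irrefl _ hi
  refine Cl.rule θ (dp fP) (lbl t) (f ξ) (mk_lt.2 (Or.inr ⟨rfl, Or.inl (Nat.lt_succ_self _)⟩))
    (hsub θ (Or.inr (Finset.mem_insert_self _ _))) ?_ ?_
  · intro g hg
    refine hsub g ?_
    have h1 : lbl t = insert ξ (∅ ∪ insert b (lbl c ∪ ∅)) := rfl
    rw [h1, Finset.empty_union, Finset.union_empty] at hg
    rcases Finset.mem_insert.1 hg with rfl | hg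
    · exact Or.inl hξ
    · exact Or.inr (Finset.mem_insert_of_mem hg)
  · exact ⟨t, fP, 1, _, _, 0, rfl, le_rfl, hlw, rfl⟩

end Pool.Agent.Lib.H91W
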