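import Pool.Agent.Lib.H91W.A9
import Pool.Agent.Lib.H91W.C1

/-!
# Unbounded functions on normal sequences: the induction
-/

set_option autoImplicit false

open Set Ordinal

namespace Pool.Agent.Lib.H91W

open Pool.Agent.Lib.H45Osc (w1 isOmega1_W limitPts isClub_limitPts IsClosedCopy)

/-- There is a function into `ω₁` which tends to `ω₁` along every normal function from `ω₁` with
supremum at most `δ`. -/
def W (δ : Ordinal.{0}) : Prop := ∃ h : Ordinal.{0} → Ordinal.{0}, (∀ x, h x < w1) ∧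
  ∀ β ≤ δ, ∀ g, NC g β → ∀ ξ < w1, ∃ E, IsClub E ∧ ∀ i ∈ E, ξ < h (g i)

/-- `C` is closed and unbounded in `μ`. -/
structure IsClubIn (μ : Ordinal.{0}) (C : Set Ordinal.{0}) : Prop where
  unb : ∀ x < μ, ∃ y ∈ C, x < y ∧ y < μ
  closed : ∀ δ < μ, δ ≠ 0 → (∀ x < δ, ∃ y ∈ C, x < y ∧ y < δ) → δ ∈ C

theorem zero_lt_w1 : (0 : Ordinal.{0}) < w1 := bot_le.trans_lt omega_lt_w1

theorem W.posed {κ : Cardinal.{0}} (h : W κ.ord) : Posed κ := by
  obtain ⟨f, hf, hf'⟩ := h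
  refine posed_of_h f hf ?_
  intro A hAκ hA ξ hξ
  obtain ⟨β, hβ, hNC⟩ := exists_nc_enum hA hAκ
  obtain ⟨E, hE, hE'⟩ := hf' β hβ _ hNC ξ hξ
  obtain ⟨b0⟩ := isOmega1_W.nonempty
  obtain ⟨i, hi, -⟩ := hE.isCofinal b0
  exact ⟨hA.enum i, hA.enum_mem i, (hE' i hi).le⟩

theorem w_small {δ : Ordinal.{0}} (h : δ ≤ w1) : W δ := by
  classical
  refine ⟨fun x => if x < w1 then x else 0, ?_, ?_⟩
  · intro x
    show (if x < w1 then x else 0) < w1
    split_ifs with h1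
    · exact h1
    · exact zero_lt_w1
  · intro β hβ g hg ξ hξ
    have h1 : β = w1 := le_antisymm (hβ.trans h) hg.w1_le
    subst h1
    obtain ⟨E, hE, hE'⟩ := nc_w1 hg hξ
    refine ⟨E, hE, fun i hi => ?_⟩
    show ξ < (if g i < w1 then g i else 0)
    rw [if_pos (hg.lt i)]
    exact hE' i hi

theorem w_succ {δ : Ordinal.{0}} (h : W δ) : W (δ + 1) := by
  obtain ⟨f, hf, hf'⟩ := h
  refine ⟨f, hf, fun β hβ g hg => hf' β ?_ g hg⟩
  by_contra hn
  rw [not_le] at hn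
  exact absurd (hg.cb.succ δ hn) (not_lt.2 hβ)

/-- The case of a closed unbounded set of singular ordinals. -/
theorem w_club {μ : Ordinal.{0}} (hμ : ∀ g, ¬ NC g μ) {C : Set Ordinal.{0}}
    (hC : IsClubIn μ C) (hW : ∀ δ < μ, W δ)
    (hS : ∀ β ∈ C, β < μ → (∃ g, NC g β) → ∃ s, Sing LM s β) : W μ := by
  classical
  -- the next element
  let nx : Ordinal.{0} → Ordinal.{0} := fun x => sInf {y | y ∈ C ∧ x < y}
  have hnx : ∀ x < μ, nx x ∈ C ∧ x < nx x ∧ nx x < μ := by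
    intro x hx
    obtain ⟨y, hy, hxy, hyμ⟩ := hC.unb x hx
    have h1 : nx x ∈ {y | y ∈ C ∧ x < y} := csInf_mem ⟨y, hy, hxy⟩
    exact ⟨h1.1, h1.2, (csInf_le' (show y ∈ {y | y ∈ C ∧ x < y} from ⟨hy, hxy⟩)).trans_lt hyμ⟩
  choose H hH hH' using hW
  let loc : Ordinal.{0} → Ordinal.{0} := fun x =>
    if h : x < μ then H (nx x) (hnx x h).2.2 x else 0
  have hloc : ∀ x, loc x < w1 := by
    intro x
    simp only [loc]
    split_ifs with h
    · exact hH _ _ _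
    · exact zero_lt_w1
  refine ⟨hf LM C loc, hf_lt hloc, ?_⟩
  refine hf_club ?_
  intro β hβ g hg
  have hβμ : β < μ := lt_of_le_of_ne hβ fun h => hμ g (h ▸ hg)
  by_cases hlim : ∀ x < β, ∃ y ∈ C, x < y ∧ y < β
  · left
    have hβC : β ∈ C := hC.closed β hβμ hg.cb.pos.ne' hlim
    refine ⟨hS β hβC hβμ ⟨g, hg⟩, ?_⟩
    choose y hy hgy hyβ using fun i => hlim (g i) (hg.lt i)
    choose F hF using fun i => hg.cof (y i) (hyβ i)
    refine ⟨{i | ∀ v < i, F v < i} ∩ limitPts, club_inter (club_closed F) isClub_limitPts, ?_⟩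
    rintro i ⟨hi, hi'⟩
    refine hC.closed (g i) ((hg.lt i).trans hβμ) (hg.pos_of hi').1.ne' ?_
    intro x hx
    obtain ⟨v, hv, hxv⟩ := hg.cont i hi' x hx
    exact ⟨y v, hy v, hxv.trans (hgy v), (hF v).trans (hg.mono (hi v hv))⟩
  · right
    push Not at hlim
    obtain ⟨b, hb, hb'⟩ := hlim
    obtain ⟨i0, hi0⟩ := hg.cof b hb
    intro ξ hξ
    have hnβ : ∀ i, i0 ≤ i → nx (g i) = nx b := by
      intro i hi
      have hbi : b < g i := hi0.trans_le (hg.mono.monotone hi)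
      have h1 := hnx b (hb.trans hβμ)
      have h2 : β ≤ nx b := hb' _ h1.1 h1.2.1
      have h3 := hnx (g i) ((hg.lt i).trans hβμ)
      apply le_antisymm
      · exact csInf_le' (show nx b ∈ {y | y ∈ C ∧ g i < y} from ⟨h1.1, (hg.lt i).trans_le h2⟩)
      · exact csInf_le' (show nx (g i) ∈ {y | y ∈ C ∧ b < y} from ⟨h3.1, hbi.trans h3.2.1⟩)
    have hb1 := hnx b (hb.trans hβμ)
    obtain ⟨E, hE, hE'⟩ := hH' (nx b) hb1.2.2 β (hb' _ hb1.1 hb1.2.1) g hg ξ hξ
    refine ⟨E ∩ Ioi i0, club_inter hE (club_tail i0), ?_⟩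
    rintro i ⟨hi, hi'⟩
    have hi'' : i0 ≤ i := le_of_lt hi'
    refine ⟨fun hn => ?_, ?_⟩
    · exact absurd (hb' _ hn (hi0.trans_le (hg.mono.monotone hi''))) (not_le.2 (hg.lt i))
    · simp only [loc]
      rw [dif_pos ((hg.lt i).trans hβμ)]
      have h4 : ∀ (z : Ordinal.{0}) (hz : z < μ), z = nx b → H z hz (g i) = H (nx b) hb1.2.2 (g i) := by
        rintro z hz rfl
        rfl
      rw [h4 _ _ (hnβ i hi'')]
      exact hE' i hi

theorem NC.pos_lim {g : Iio w1 → Ordinal.{0}} {β : Ordinal.{0}} (hg : NC g β) {i : Iio w1}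
    (hi : i ∈ limitPts) : Order.IsSuccLimit (g i) := by
  obtain ⟨⟨v, hv⟩, -⟩ := id hi
  rw [Order.isSuccLimit_iff]
  refine ⟨?_, ?_⟩
  · exact not_isMin_of_lt (hg.mono hv)
  · rw [Order.isSuccPrelimit_iff_succ_lt]
    intro x hx
    obtain ⟨w, hw, hxw⟩ := hg.cont i hi x hx
    exact (Order.succ_le_of_lt hxw).trans_lt (hg.mono hw)

/-- The case of small cofinality. -/
theorem w_cof {κ ρ : Ordinal.{0}} {f : Ordinal.{0} → Ordinal.{0}} (f1 : StrictMono f)
    (f2 : ∀ i, Order.IsSuccLimit i → ∀ x < f i, ∃ k < i, x < f k) (f3 : ∀ i < ρ, f i < κ)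
    (f4 : ∀ x < κ, ∃ i < ρ, x < f i) (hρ : ρ < κ) (hlim : ∀ i < ρ, i + 1 < ρ)
    (hW : ∀ δ < κ, W δ) : W κ := by
  classical
  choose H hH hH' using hW
  let K : Ordinal.{0} → Ordinal.{0} → Ordinal.{0} := fun δ x => if h : δ < κ then H δ h x else 0
  have hK : ∀ δ x, K δ x < w1 := by
    intro δ x
    simp only [K]
    split_ifs with h
    · exact hH _ _ _
    · exact zero_lt_w1
  have hK' : ∀ δ < κ, ∀ β ≤ δ, ∀ g, NC g β → ∀ ξ < w1, ∃ E, IsClub E ∧ ∀ i ∈ E, ξ < K δ (g i) := by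
    intro δ hδ β hβ g hg ξ hξ
    obtain ⟨E, hE, hE'⟩ := hH' δ hδ β hβ g hg ξ hξ
    refine ⟨E, hE, fun i hi => ?_⟩
    simp only [K]
    rw [dif_pos hδ]
    exact hE' i hi
  let n : Ordinal.{0} → Ordinal.{0} := fun x => sInf {i | x < f i}
  have hn : ∀ x, x < f (n x) := by
    intro x
    have h1 : n x ∈ {i | x < f i} :=
      csInf_mem ⟨x + 1, (Order.lt_add_one_iff.2 le_rfl : x < x + 1).trans_le f1.le_apply⟩
    exact h1
  have hn' : ∀ x i, x < f i → n x ≤ i := fun x i hi => csInf_le' hi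
  let r : Ordinal.{0} → Ordinal.{0} := fun x => if h : ∃ i, x = f i then K ρ h.choose else 0
  have hr : ∀ i, r (f i) = K ρ i := by
    intro i
    have h : ∃ j, f i = f j := ⟨i, rfl⟩
    simp only [r]
    rw [dif_pos h, ← f1.injective h.choose_spec]
  have hrw : ∀ x, r x < w1 := by
    intro x
    simp only [r]
    split_ifs with h
    · exact hK _ _
    · exact zero_lt_w1
  refine ⟨fun x => max (K (f (n x)) x) (r x), fun x => max_lt (hK _ _) (hrw _), ?_⟩
  have hκρ : κ ≤ f ρ := by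
    refine le_of_forall_lt fun x hx => ?_
    obtain ⟨i, hi, hxi⟩ := f4 x hx
    exact hxi.trans (f1 hi)
  intro β hβ g hg ξ hξ
  -- the place of `β`
  obtain ⟨j, hj, hj'⟩ : ∃ j, β ≤ f j ∧ ∀ i < j, f i < β := by
    refine ⟨sInf {i | β ≤ f i}, csInf_mem (s := {i | β ≤ f i}) ⟨β, f1.le_apply⟩, ?_⟩
    intro i hi
    exact not_le.1 fun h => notMem_of_lt_csInf' hi h
  have hjρ : j ≤ ρ := by
    by_contra hn
    rw [not_le] at hn
    exact absurd (hj' ρ hn) (not_lt.2 (hβ.trans hκρ))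
  by_cases hjl : Order.IsSuccLimit j
  · -- `β = f j`
    have hβj : β = f j := by
      refine hj.eq_of_not_lt fun h => ?_
      obtain ⟨k, hk, hk'⟩ := f2 j hjl β h
      exact lt_asymm hk' (hj' k hk)
    have hbelow : ∀ x < β, ∃ k < j, x < f k := fun x hx => f2 j hjl x (hβj ▸ hx)
    have hCB : CB j := by
      refine ⟨hjl.bot_lt, fun x hx => ?_, fun c hc => ?_⟩
      · rw [← Order.succ_eq_add_one]
        exact hjl.succ_lt hx
      · obtain ⟨b, hb, hb'⟩ := hg.cb.bdd (fun m => f (c m)) fun m => hj' _ (hc m)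
        obtain ⟨k, hk, hbk⟩ := hbelow b hb
        exact ⟨k, hk, fun m => f1.lt_iff_lt.1 ((hb' m).trans hbk)⟩
    obtain ⟨c, hc⟩ := exists_nc hCB (fun i => n (g i)) (fun i => by
        obtain ⟨k, hk, hgk⟩ := hbelow (g i) (hg.lt i)
        exact (hn' _ _ hgk).trans_lt hk) (fun x hx => by
        obtain ⟨i, hi⟩ := hg.cof (f x) (hj' x hx)
        exact ⟨i, (f1.lt_iff_lt.1 (hi.trans (hn (g i)))).le⟩)
    have hfc : NC (fun i => f (c i)) β := by
      refine ⟨fun i i' h => f1 (hc.mono h), fun i => hj' _ (hc.lt i), fun x hx => ?_, ?_⟩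
      · obtain ⟨k, hk, hxk⟩ := hbelow x hx
        obtain ⟨i, hi⟩ := hc.cof k hk
        exact ⟨i, hxk.trans (f1 hi)⟩
      · intro i hi x hx
        obtain ⟨k, hk, hxk⟩ := f2 (c i) (hc.pos_lim hi) x hx
        obtain ⟨v, hv, hkv⟩ := hc.cont i hi k hk
        exact ⟨v, hv, hxk.trans (f1 hkv)⟩
    obtain ⟨E, hE, hE'⟩ := nc_agree hg hfc
    obtain ⟨E1, hE1, hE1'⟩ := hK' ρ hρ j hjρ c hc ξ hξ
    refine ⟨E ∩ E1, club_inter hE hE1, ?_⟩
    rintro i ⟨hi, hi1⟩
    refine (hE1' i hi1).trans_le (le_trans ?_ (le_max_right _ _))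
    rw [hE' i hi, hr]
  · -- `β` lies in an interval
    obtain ⟨⟨i0, hi0⟩, hjκ⟩ : (∃ i0 : Iio w1, ∀ i, i0 ≤ i → n (g i) = j) ∧ j < ρ := by
      have h1 : ∀ i, n (g i) ≤ j := fun i => hn' _ _ ((hg.lt i).trans_le hj)
      rcases Ordinal.zero_or_succ_or_isSuccLimit j with h | ⟨j', h⟩ | h
      · obtain ⟨b0⟩ := isOmega1_W.nonempty
        refine ⟨⟨b0, fun i _ => ?_⟩, ?_⟩
        · have h2 := h1 i
          rw [h] at h2 ⊢
          exact le_bot_iff.1 h2
        · obtain ⟨i, hi, -⟩ := f4 0 (bot_le.trans_lt hρ)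
          rw [h]
          exact bot_le.trans_lt hi
      · have hj'' : j' < j := by
          rw [← h]
          exact Order.lt_succ j'
        obtain ⟨i0, hi0⟩ := hg.cof (f j') (hj' j' hj'')
        refine ⟨⟨i0, fun i hi => ?_⟩, ?_⟩
        · refine le_antisymm (h1 i) ?_
          by_contra hlt
          rw [not_le, ← h, Order.lt_succ_iff] at hlt
          have h2 := (hn (g i)).trans_le (f1.monotone hlt)
          exact lt_asymm h2 (hi0.trans_le (hg.mono.monotone hi))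
        · have h3 : j' < ρ := by
            by_contra hn
            rw [not_lt] at hn
            exact absurd (hj' j' hj'') (not_lt.2 ((hβ.trans hκρ).trans (f1.monotone hn)))
          rw [← h, Order.succ_eq_add_one]
          exact hlim j' h3
      · exact absurd h hjl
    obtain ⟨E, hE, hE'⟩ := hK' (f j) (f3 j hjκ) β hj g hg ξ hξ
    refine ⟨E ∩ Ioi i0, club_inter hE (club_tail i0), ?_⟩
    rintro i ⟨hi, hi'⟩
    refine (hE' i hi).trans_le (le_trans ?_ (le_max_left _ _))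
    rw [hi0 i (le_of_lt hi')]

end Pool.Agent.Lib.H91W
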