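import Pool.Agent.Lib.H91W.D1

/-!
# The main theorem
-/

set_option autoImplicit false

open Set Ordinal

namespace Pool.Agent.Lib.H91W

open Pool.Agent.Lib.H45Osc (w1 isOmega1_W limitPts isClub_limitPts IsClosedCopy)

/-- A normal function of length `cf κ` cofinal in `κ`. -/
theorem exists_f {κ : Ordinal.{0}} (hκ : Order.IsSuccLimit κ) :
    ∃ f : Ordinal.{0} → Ordinal.{0}, StrictMono f ∧
      (∀ i, Order.IsSuccLimit i → ∀ x < f i, ∃ k < i, x < f k) ∧
      (∀ i < κ.cof.ord, f i < κ) ∧ ∀ x < κ, ∃ i < κ.cof.ord, x < f i := by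
  classical
  have hlim : Order.IsSuccLimit κ.cof.ord :=
    Cardinal.isSuccLimit_ord (Cardinal.isRegular_cof hκ).aleph0_le
  obtain ⟨s, hs, hs'⟩ := Order.exists_cof_eq (Iio κ)
  have hcard : Cardinal.mk (Iio κ.cof.ord) = Cardinal.mk s := by
    rw [hs', cof_Iio, ← lift_cof, Cardinal.mk_Iio_ordinal, Cardinal.card_ord]
  obtain ⟨e⟩ := Cardinal.eq.1 hcard
  let f0 : Ordinal.{0} → Ordinal.{0} := fun j => if h : j < κ.cof.ord then (e ⟨j, h⟩).1.1 else 0
  have hf0 : ∀ j, f0 j < κ := by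
    intro j
    simp only [f0]
    split_ifs with h
    · exact (e ⟨j, h⟩).1.2
    · exact hκ.bot_lt
  have hf0' : ∀ x < κ, ∃ j < κ.cof.ord, x ≤ f0 j := by
    intro x hx
    obtain ⟨y, hy, hxy⟩ := hs ⟨x, hx⟩
    refine ⟨(e.symm ⟨y, hy⟩).1, (e.symm ⟨y, hy⟩).2, ?_⟩
    simp only [f0]
    rw [dif_pos (show (e.symm ⟨y, hy⟩).1 < κ.cof.ord from (e.symm ⟨y, hy⟩).2)]
    have h1 : e ⟨(e.symm ⟨y, hy⟩).1, (e.symm ⟨y, hy⟩).2⟩ = ⟨y, hy⟩ := e.apply_symm_apply _
    rw [h1]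
    exact hxy
  let f : Ordinal.{0} → Ordinal.{0} := (wellFounded_lt (α := Ordinal.{0})).fix
    fun i ih => ⨆ j : Iio i, max (ih j.1 j.2) (f0 j.1) + 1
  have hf : ∀ i, f i = ⨆ j : Iio i, max (f j.1) (f0 j.1) + 1 := by
    intro i
    exact WellFounded.fix_eq _ _ i
  have hlt : ∀ i, ∀ j < i, max (f j) (f0 j) < f i := by
    intro i j hj
    rw [hf i]
    refine (Order.lt_add_one_iff.2 le_rfl : max (f j) (f0 j) < max (f j) (f0 j) + 1).trans_le ?_
    exact le_ciSup (f := fun j : Iio i => max (f j.1) (f0 j.1) + 1) bddAbove_of_small ⟨j, hj⟩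
  refine ⟨f, fun j i h => (le_max_left _ _).trans_lt (hlt i j h), ?_, ?_, ?_⟩
  · intro i hi x hx
    rw [hf i, lt_iSup_add_one_iff] at hx
    obtain ⟨j, hj⟩ := hx
    exact ⟨j.1 + 1, by rw [← Order.succ_eq_add_one]; exact hi.succ_lt j.2,
      hj.trans_lt (hlt _ _ (Order.lt_add_one_iff.2 le_rfl))⟩
  · intro i
    induction i using WellFoundedLT.induction with
    | ind i ih =>
      intro hi
      rw [hf i]
      refine lift_iSup_add_one_lt_of_lt_cof ?_ ?_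
      · rw [← lift_cof, Cardinal.mk_Iio_ordinal, Cardinal.lift_lift]
        exact Cardinal.lift_lt.2 (Cardinal.lt_ord.1 hi)
      · intro j
        exact max_lt (ih j.1 j.2 (j.2.trans hi)) (hf0 _)
  · intro x hx
    obtain ⟨j, hj, hxj⟩ := hf0' x hx
    exact ⟨j + 1, by rw [← Order.succ_eq_add_one]; exact hlim.succ_lt hj,
      hxj.trans_lt ((le_max_right _ _).trans_lt (hlt _ _ (Order.lt_add_one_iff.2 le_rfl)))⟩

/-- The least ordinal without such a function is a regular cardinal above `ω₁`. -/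
theorem w_step {κ : Ordinal.{0}} (hW : ∀ δ < κ, W δ) :
    W κ ∨ ∃ μ : Cardinal.{0}, μ.IsRegular ∧ Cardinal.aleph 1 < μ ∧ κ = μ.ord := by
  rcases le_or_gt κ w1 with h1 | h1
  · exact Or.inl (w_small h1)
  rcases Ordinal.zero_or_succ_or_isSuccLimit κ with h | ⟨δ, h⟩ | h
  · rw [h] at h1
    exact absurd h1 (not_lt_bot (α := Ordinal.{0}))
  · left
    rw [← h, Order.succ_eq_add_one]
    exact w_succ (hW δ (by rw [← h]; exact Order.lt_succ δ))
  · rcases (ord_cof_le κ).lt_or_eq with h2 | h2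
    · obtain ⟨f, f1, f2, f3, f4⟩ := exists_f h
      have hlim : Order.IsSuccLimit κ.cof.ord :=
        Cardinal.isSuccLimit_ord (Cardinal.isRegular_cof h).aleph0_le
      refine Or.inl (w_cof f1 f2 f3 f4 h2 (fun i hi => ?_) hW)
      rw [← Order.succ_eq_add_one]
      exact hlim.succ_lt hi
    · refine Or.inr ⟨κ.cof, Cardinal.isRegular_cof h, ?_, h2.symm⟩
      rw [← h2] at h1
      exact Cardinal.ord_lt_ord.1 h1

theorem NC.cof_eq {g : Iio w1 → Ordinal.{0}} {β : Ordinal.{0}} (hg : NC g β) :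
    β.cof = Cardinal.aleph 1 := by
  have h1 : β = ⨆ i, g i := by
    apply le_antisymm
    · refine le_of_forall_lt fun x hx => ?_
      obtain ⟨i, hi⟩ := hg.cof x hx
      exact hi.trans_le (le_ciSup (f := g) bddAbove_of_small i)
    · obtain ⟨b0⟩ := isOmega1_W.nonempty
      have : Nonempty (Iio w1) := ⟨b0⟩
      exact ciSup_le fun i => (hg.lt i).le
  have h2 : Order.IsSuccLimit w1 := Cardinal.isSuccLimit_ord Cardinal.isRegular_aleph_one.aleph0_le
  rw [h1, cof_iSup_Iio hg.mono h2.isSuccPrelimit]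
  exact Cardinal.isRegular_aleph_one.cof_ord

/-- **The main theorem.** -/
theorem main (κ : Cardinal.{0}) : Posed κ ∨ ∃ μ ≤ κ, Cardinal.aleph 1 < μ ∧ μ.IsRegular ∧
    ∀ C, IsClubIn μ.ord C → ∃ β ∈ C, β < μ.ord ∧ β.cof = Cardinal.aleph 1 ∧ ¬ SingularInL β := by
  by_cases hκ : W κ.ord
  · exact Or.inl hκ.posed
  right
  obtain ⟨δ, hδ, hm⟩ := WellFounded.has_min (wellFounded_lt (α := Ordinal.{0})) {δ | ¬ W δ}
    ⟨κ.ord, hκ⟩
  have hW : ∀ δ' < δ, W δ' := fun δ' h => by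
    by_contra hn
    exact hm δ' hn h
  rcases w_step hW with h | ⟨μ, hμ, hμ1, rfl⟩
  · exact absurd h hδ
  refine ⟨μ, Cardinal.ord_le_ord.1 (not_lt.1 (hm κ.ord hκ)), hμ1, hμ, ?_⟩
  intro C hC
  by_contra hn
  push Not at hn
  refine hδ (w_club ?_ hC hW ?_)
  · intro g hg
    have h1 := hg.cof_eq
    rw [hμ.cof_ord] at h1
    exact absurd h1 hμ1.ne'
  · rintro β hβ hβμ ⟨g, hg⟩
    exact sing_of (hn β hβ hβμ hg.cof_eq)

end Pool.Agent.Lib.H91W
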