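import Pool.Agent.Lib.H91W.D2

/-!
# The least counterexample
-/

set_option autoImplicit false

open Set Ordinal

namespace Pool.Agent.Lib.H91W

open Pool.Agent.Lib.H45Osc (w1 isOmega1_W limitPts isClub_limitPts IsClosedCopy
  orderIso_of_countable)

/-- The image of a club under a normal function is a closed copy of `ω₁`. -/
theorem NC.image {g : Iio w1 → Ordinal.{0}} {β : Ordinal.{0}} (hg : NC g β) {D : Set (Iio w1)}
    (hD : IsClub D) : IsClosedCopy (g '' D) := by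
  constructor
  · intro B hB hBne hBb
    obtain ⟨_, ⟨j, hj, rfl⟩, hb⟩ := hBb
    have hbdd : BddAbove B := ⟨_, hb⟩
    let T : Set (Iio w1) := {i | g i ∈ B}
    have hTne : T.Nonempty := by
      obtain ⟨x, hx⟩ := hBne
      obtain ⟨i, _, rfl⟩ := hB hx
      exact ⟨i, hx⟩
    have hTD : T ⊆ D := by
      intro i hi
      obtain ⟨i', hi', hii⟩ := hB hi
      rw [← hg.mono.injective hii]
      exact hi'
    have hTj : ∀ i ∈ T, i ≤ j := fun i hi => hg.mono.le_iff_le.1 (hb _ hi)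
    obtain ⟨w, hw, hm⟩ := WellFounded.has_min (wellFounded_lt (α := Iio w1))
      {w | ∀ i ∈ T, i ≤ w} ⟨j, hTj⟩
    have hlub : IsLUB T w := ⟨hw, fun y hy => not_lt.1 (hm y hy)⟩
    have hwD : w ∈ D := hD.isLUB_mem hTD hTne hlub
    refine ⟨w, hwD, ?_⟩
    apply le_antisymm
    · by_cases hwT : w ∈ T
      · exact le_csSup hbdd hwT
      · have hlt : ∀ i ∈ T, i < w := fun i hi => lt_of_le_of_ne (hw i hi) fun h => hwT (h ▸ hi)
        have hlim : w ∈ limitPts := by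
          obtain ⟨i, hi⟩ := hTne
          refine ⟨⟨i, hlt i hi⟩, fun v hv => ?_⟩
          obtain ⟨i', hi', hvi⟩ := (lt_isLUB_iff hlub).1 hv
          exact ⟨i', hvi, hlt i' hi'⟩
        by_contra hn
        rw [not_le] at hn
        obtain ⟨v, hv, hxv⟩ := hg.cont w hlim _ hn
        obtain ⟨i', hi', hvi⟩ := (lt_isLUB_iff hlub).1 hv
        exact absurd (hxv.trans (hg.mono hvi)) (not_lt.2 (le_csSup hbdd hi'))
    · refine csSup_le hBne fun x hx => ?_
      obtain ⟨i, _, rfl⟩ := hB hx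
      exact hg.mono.monotone (hw i hx)
  · apply orderIso_of_countable
    · rintro _ ⟨i, _, rfl⟩
      refine ((isOmega1_W.countable_Iio i).image g).mono ?_
      rintro _ ⟨⟨j, _, rfl⟩, hji⟩
      exact ⟨j, hg.mono.lt_iff_lt.1 hji, rfl⟩
    · intro hc
      have h1 : D.Countable := by
        have h2 := hc.preimage hg.mono.injective
        refine h2.mono ?_
        intro i hi
        exact ⟨i, hi, rfl⟩
      obtain ⟨b, hb⟩ := isOmega1_W.exists_gt h1
      obtain ⟨i, hi, hbi⟩ := hD.isCofinal b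
      exact absurd (hb i hi) (not_lt.2 hbi)

/-- The posed statement for the ordinal `δ`, in terms of normal functions. -/
def PN (δ : Ordinal.{0}) : Prop := ∃ c : Ordinal.{0} → Ordinal.{0} → Ordinal.{0},
  (∀ α β, c α β < w1) ∧ ∀ β ≤ δ, ∀ g, NC g β → ∀ E, IsClub E → ∀ ξ < w1,
    ∃ i ∈ E, ∃ j ∈ E, i < j ∧ c (g i) (g j) = ξ

theorem PN.posed {κ : Cardinal.{0}} (h : PN κ.ord) : Posed κ := by
  obtain ⟨c, hc, hc'⟩ := h
  refine ⟨c, fun α β _ _ => hc α β, ?_⟩
  intro A hAκ hA1 hA2 ξ hξ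
  have hA : IsClosedCopy A := ⟨hA1, hA2⟩
  obtain ⟨β, hβ, hNC⟩ := exists_nc_enum hA hAκ
  obtain ⟨i, -, j, -, hij, h⟩ := hc' β hβ _ hNC univ IsClub.univ ξ hξ
  exact ⟨_, hA.enum_mem i, _, hA.enum_mem j, hA.enum_strictMono hij, h⟩

theorem Posed.pn {κ : Cardinal.{0}} (h : Posed κ) : PN κ.ord := by
  classical
  obtain ⟨c, hc, hc'⟩ := h
  refine ⟨fun α β => if c α β < w1 then c α β else 0, ?_, ?_⟩
  · intro α β
    show (if c α β < w1 then c α β else 0) < w1
    split_ifs with h1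
    · exact h1
    · exact zero_lt_w1
  · intro β hβ g hg E hE ξ hξ
    have hA := hg.image hE
    obtain ⟨_, ⟨i, hi, rfl⟩, _, ⟨j, hj, rfl⟩, hij, h⟩ := hc' (g '' E) (by
      rintro _ ⟨i, _, rfl⟩
      exact (hg.lt i).trans_le hβ) hA.1 hA.2 ξ hξ
    refine ⟨i, hi, j, hj, hg.mono.lt_iff_lt.1 hij, ?_⟩
    show (if c (g i) (g j) < w1 then c (g i) (g j) else 0) = ξ
    rw [h, if_pos hξ]

theorem PN.mono {δ δ' : Ordinal.{0}} (h : δ' ≤ δ) (hδ : PN δ) : PN δ' := by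
  obtain ⟨c, hc, hc'⟩ := hδ
  exact ⟨c, hc, fun β hβ => hc' β (hβ.trans h)⟩

theorem pn_small {δ : Ordinal.{0}} (h : δ ≤ w1) : PN δ :=
  PN.mono h (Posed.pn (κ := Cardinal.aleph 1) (W.posed (w_small le_rfl)))

theorem pn_succ {δ : Ordinal.{0}} (h : PN δ) : PN (δ + 1) := by
  obtain ⟨f, hf, hf'⟩ := h
  refine ⟨f, hf, fun β hβ g hg => hf' β ?_ g hg⟩
  by_contra hn
  rw [not_le] at hn
  exact absurd (hg.cb.succ δ hn) (not_lt.2 hβ)

/-- The case of a closed unbounded set of singular ordinals. -/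
theorem pn_club {μ : Ordinal.{0}} (hμ : ∀ g, ¬ NC g μ) {C : Set Ordinal.{0}}
    (hC : IsClubIn μ C) (hW : ∀ δ < μ, PN δ)
    (hS : ∀ β ∈ C, β < μ → (∃ g, NC g β) → ∃ s, Sing LM s β) : PN μ := by
  classical
  let nx : Ordinal.{0} → Ordinal.{0} := fun x => sInf {y | y ∈ C ∧ x < y}
  have hnx : ∀ x < μ, nx x ∈ C ∧ x < nx x ∧ nx x < μ := by
    intro x hx
    obtain ⟨y, hy, hxy, hyμ⟩ := hC.unb x hx
    have h1 : nx x ∈ {y | y ∈ C ∧ x < y} := csInf_mem ⟨y, hy, hxy⟩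
    exact ⟨h1.1, h1.2, (csInf_le' (show y ∈ {y | y ∈ C ∧ x < y} from ⟨hy, hxy⟩)).trans_lt hyμ⟩
  choose H hH hH' using hW
  let K : Ordinal.{0} → Ordinal.{0} → Ordinal.{0} → Ordinal.{0} := fun δ α β =>
    if h : δ < μ then H δ h α β else 0
  have hK : ∀ δ α β, K δ α β < w1 := by
    intro δ α β
    simp only [K]
    split_ifs with h
    · exact hH _ _ _ _
    · exact zero_lt_w1
  let h : Ordinal.{0} → Ordinal.{0} := hf LM C (fun x => x)
  -- the main claim
  have key : ∀ β ≤ μ, ∀ g, NC g β → ∃ δ < μ, ∃ γ ≤ δ, ∃ c, NC c γ ∧ ∃ E, IsClub E ∧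
      ∀ i ∈ E, h (g i) = c i ∧ nx (c i) = δ := by
    intro β
    induction β using WellFoundedLT.induction with
    | ind β ih =>
      intro hβ g hg
      have hβμ : β < μ := lt_of_le_of_ne hβ fun h => hμ g (h ▸ hg)
      by_cases hlim : ∀ x < β, ∃ y ∈ C, x < y ∧ y < β
      · have hβC : β ∈ C := hC.closed β hβμ hg.cb.pos.ne' hlim
        obtain ⟨γ, hγ, c, hc, E1, hE1, hE1'⟩ := gs_club hg (hS β hβC hβμ ⟨g, hg⟩)
        obtain ⟨δ, hδ, γ', hγ', c', hc', E2, hE2, hE2'⟩ := ih γ hγ (hγ.le.trans hβ) c hc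
        choose y hy hgy hyβ using fun i => hlim (g i) (hg.lt i)
        choose F hF using fun i => hg.cof (y i) (hyβ i)
        refine ⟨δ, hδ, γ', hγ', c', hc', ({i | ∀ v < i, F v < i} ∩ limitPts) ∩ (E1 ∩ E2),
          club_inter (club_inter (club_closed F) isClub_limitPts) (club_inter hE1 hE2), ?_⟩
        rintro i ⟨⟨hi, hi'⟩, hi1, hi2⟩
        have hgC : g i ∈ C := by
          refine hC.closed (g i) ((hg.lt i).trans hβμ) (hg.pos_of hi').1.ne' ?_
          intro x hx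
          obtain ⟨v, hv, hxv⟩ := hg.cont i hi' x hx
          exact ⟨y v, hy v, hxv.trans (hgy v), (hF v).trans (hg.mono (hi v hv))⟩
        obtain ⟨h5, h6⟩ := hE1' i hi1
        have h7 : h (g i) = h (c i) := by
          show hf LM C (fun x => x) (g i) = _
          rw [hf_of_mem hgC (by rw [h5]; exact h6), h5]
        rw [h7]
        exact hE2' i hi2
      · push Not at hlim
        obtain ⟨b, hb, hb'⟩ := hlim
        obtain ⟨i0, hi0⟩ := hg.cof b hb
        have hb1 := hnx b (hb.trans hβμ)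
        refine ⟨nx b, hb1.2.2, β, hb' _ hb1.1 hb1.2.1, g, hg, Ioi i0, club_tail i0, ?_⟩
        intro i hi
        have hbi : b < g i := hi0.trans (hg.mono hi)
        have h3 := hnx (g i) ((hg.lt i).trans hβμ)
        refine ⟨hf_of_notMem fun hn => ?_, ?_⟩
        · exact absurd (hb' _ hn hbi) (not_le.2 (hg.lt i))
        · apply le_antisymm
          · exact csInf_le' (show nx b ∈ {y | y ∈ C ∧ g i < y} from
              ⟨hb1.1, (hg.lt i).trans_le (hb' _ hb1.1 hb1.2.1)⟩)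
          · exact csInf_le' (show nx (g i) ∈ {y | y ∈ C ∧ b < y} from ⟨h3.1, hbi.trans h3.2.1⟩)
  refine ⟨fun α β => K (nx (h α)) (h α) (h β), fun α β => hK _ _ _, ?_⟩
  intro β hβ g hg E hE ξ hξ
  obtain ⟨δ, hδ, γ, hγ, c, hc, E1, hE1, hE1'⟩ := key β hβ g hg
  obtain ⟨i, ⟨hi, hi1⟩, j, ⟨hj, hj1⟩, hij, hξ'⟩ := hH' δ hδ γ hγ c hc (E ∩ E1)
    (club_inter hE hE1) ξ hξ
  refine ⟨i, hi, j, hj, hij, ?_⟩
  show K (nx (h (g i))) (h (g i)) (h (g j)) = ξ
  rw [(hE1' i hi1).1, (hE1' i hi1).2, (hE1' j hj1).1]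
  simp only [K]
  rw [dif_pos hδ]
  exact hξ'

/-- The case of small cofinality. -/
theorem pn_cof {κ ρ : Ordinal.{0}} {f : Ordinal.{0} → Ordinal.{0}} (f1 : StrictMono f)
    (f2 : ∀ i, Order.IsSuccLimit i → ∀ x < f i, ∃ k < i, x < f k) (f3 : ∀ i < ρ, f i < κ)
    (f4 : ∀ x < κ, ∃ i < ρ, x < f i) (hρ : ρ < κ) (hlim : ∀ i < ρ, i + 1 < ρ)
    (hW : ∀ δ < κ, PN δ) : PN κ := by
  classical
  choose H hH hH' using hW
  let K : Ordinal.{0} → Ordinal.{0} → Ordinal.{0} → Ordinal.{0} := fun δ α β =>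
    if h : δ < κ then H δ h α β else 0
  have hK : ∀ δ α β, K δ α β < w1 := by
    intro δ α β
    simp only [K]
    split_ifs with h
    · exact hH _ _ _ _
    · exact zero_lt_w1
  have hK' : ∀ δ < κ, ∀ β ≤ δ, ∀ g, NC g β → ∀ E, IsClub E → ∀ ξ < w1,
      ∃ i ∈ E, ∃ j ∈ E, i < j ∧ K δ (g i) (g j) = ξ := by
    intro δ hδ β hβ g hg E hE ξ hξ
    obtain ⟨i, hi, j, hj, hij, h⟩ := hH' δ hδ β hβ g hg E hE ξ hξ
    refine ⟨i, hi, j, hj, hij, ?_⟩
    simp only [K]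
    rw [dif_pos hδ]
    exact h
  let n : Ordinal.{0} → Ordinal.{0} := fun x => sInf {i | x < f i}
  have hn : ∀ x, x < f (n x) := by
    intro x
    have h1 : n x ∈ {i | x < f i} :=
      csInf_mem ⟨x + 1, (Order.lt_add_one_iff.2 le_rfl : x < x + 1).trans_le f1.le_apply⟩
    exact h1
  have hn' : ∀ x i, x < f i → n x ≤ i := fun x i hi => csInf_le' hi
  let r : Ordinal.{0} → Ordinal.{0} := fun x => if h : ∃ i, x = f i then h.choose else 0
  have hr : ∀ i, r (f i) = i := by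
    intro i
    have h : ∃ j, f i = f j := ⟨i, rfl⟩
    simp only [r]
    rw [dif_pos h, ← f1.injective h.choose_spec]
  refine ⟨fun α β => if α ∈ range f then K ρ (r α) (r β) else K (f (n α)) α β,
    fun α β => ?_, ?_⟩
  · show (if α ∈ range f then K ρ (r α) (r β) else K (f (n α)) α β) < w1
    split_ifs
    · exact hK _ _ _
    · exact hK _ _ _
  have hκρ : κ ≤ f ρ := by
    refine le_of_forall_lt fun x hx => ?_
    obtain ⟨i, hi, hxi⟩ := f4 x hx
    exact hxi.trans (f1 hi)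
  intro β hβ g hg E hE ξ hξ
  obtain ⟨j, hj, hj'⟩ : ∃ j, β ≤ f j ∧ ∀ i < j, f i < β := by
    refine ⟨sInf {i | β ≤ f i}, csInf_mem (s := {i | β ≤ f i}) ⟨β, f1.le_apply⟩, ?_⟩
    intro i hi
    exact not_le.1 fun h => notMem_of_lt_csInf' hi h
  have hjρ : j ≤ ρ := by
    by_contra hn
    rw [not_le] at hn
    exact absurd (hj' ρ hn) (not_lt.2 (hβ.trans hκρ))
  by_cases hjl : Order.IsSuccLimit j
  · have hβj : β = f j := by
      refine hj.eq_of_not_lt fun h => ?_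
      obtain ⟨k, hk, hk'⟩ := f2 j hjl β h
      exact lt_asymm hk' (hj' k hk)
    have hbelow : ∀ x < β, ∃ k < j, x < f k := fun x hx => f2 j hjl x (hβj ▸ hx)
    have hCB : CB j := by
      refine ⟨hjl.bot_lt, fun x hx => ?_, fun c hc => ?_⟩
      · rw [← Order.succ_eq_add_one]
        exact hjl.succ_lt hx
      · obtain ⟨b, hb, hb'⟩ := hg.cb.bdd (fun m => f (c m)) fun m => hj' _ (hc m)
        obtain ⟨k, hk, hbk⟩ := hbelow b hb
        exact ⟨k, hk, fun m => f1.lt_iff_lt.1 ((hb' m).trans hbk)⟩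
    obtain ⟨c, hc⟩ := exists_nc hCB (fun i => n (g i)) (fun i => by
        obtain ⟨k, hk, hgk⟩ := hbelow (g i) (hg.lt i)
        exact (hn' _ _ hgk).trans_lt hk) (fun x hx => by
        obtain ⟨i, hi⟩ := hg.cof (f x) (hj' x hx)
        exact ⟨i, (f1.lt_iff_lt.1 (hi.trans (hn (g i)))).le⟩)
    have hfc : NC (fun i => f (c i)) β := by
      refine ⟨fun i i' h => f1 (hc.mono h), fun i => hj' _ (hc.lt i), fun x hx => ?_, ?_⟩
      · obtain ⟨k, hk, hxk⟩ := hbelow x hx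
        obtain ⟨i, hi⟩ := hc.cof k hk
        exact ⟨i, hxk.trans (f1 hi)⟩
      · intro i hi x hx
        obtain ⟨k, hk, hxk⟩ := f2 (c i) (hc.pos_lim hi) x hx
        obtain ⟨v, hv, hkv⟩ := hc.cont i hi k hk
        exact ⟨v, hv, hxk.trans (f1 hkv)⟩
    obtain ⟨E1, hE1, hE1'⟩ := nc_agree hg hfc
    obtain ⟨i, ⟨hi, hi1⟩, i', ⟨hi', hi1'⟩, hii, h⟩ := hK' ρ hρ j hjρ c hc (E ∩ E1)
      (club_inter hE hE1) ξ hξ
    refine ⟨i, hi, i', hi', hii, ?_⟩
    show (if g i ∈ range f then K ρ (r (g i)) (r (g i')) else K (f (n (g i))) (g i) (g i')) = ξ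
    rw [hE1' i hi1, hE1' i' hi1', hr, hr, if_pos (mem_range_self _)]
    exact h
  · obtain ⟨⟨i0, hi0⟩, hjκ⟩ : (∃ i0 : Iio w1, ∀ i, i0 < i → n (g i) = j ∧ g i ∉ range f) ∧
        j < ρ := by
      have h1 : ∀ i, n (g i) ≤ j := fun i => hn' _ _ ((hg.lt i).trans_le hj)
      rcases Ordinal.zero_or_succ_or_isSuccLimit j with h | ⟨j', h⟩ | h
      · obtain ⟨b0⟩ := isOmega1_W.nonempty
        refine ⟨⟨b0, fun i _ => ⟨?_, ?_⟩⟩, ?_⟩
        · have h2 := h1 i
          rw [h] at h2 ⊢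
          exact le_bot_iff.1 h2
        · rintro ⟨k, hk⟩
          have h2 := (hg.lt i).trans_le hj
          rw [← hk, f1.lt_iff_lt, h] at h2
          exact not_lt_bot (α := Ordinal.{0}) h2
        · obtain ⟨i, hi, -⟩ := f4 0 (bot_le.trans_lt hρ)
          rw [h]
          exact bot_le.trans_lt hi
      · have hj'' : j' < j := by
          rw [← h]
          exact Order.lt_succ j'
        obtain ⟨i0, hi0⟩ := hg.cof (f j') (hj' j' hj'')
        refine ⟨⟨i0, fun i hi => ⟨?_, ?_⟩⟩, ?_⟩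
        · refine le_antisymm (h1 i) ?_
          by_contra hlt
          rw [not_le, ← h, Order.lt_succ_iff] at hlt
          have h2 := (hn (g i)).trans_le (f1.monotone hlt)
          exact lt_asymm h2 (hi0.trans (hg.mono hi))
        · rintro ⟨k, hk⟩
          have h2 := (hg.lt i).trans_le hj
          have h3 := hi0.trans (hg.mono hi)
          rw [← hk, f1.lt_iff_lt] at h2 h3
          rw [← h, Order.lt_succ_iff] at h2
          exact absurd h3 (not_lt.2 h2)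
        · have h3 : j' < ρ := by
            by_contra hn
            rw [not_lt] at hn
            exact absurd (hj' j' hj'') (not_lt.2 ((hβ.trans hκρ).trans (f1.monotone hn)))
          rw [← h, Order.succ_eq_add_one]
          exact hlim j' h3
      · exact absurd h hjl
    obtain ⟨i, ⟨hi, hi1⟩, i', ⟨hi', -⟩, hii, h⟩ := hK' (f j) (f3 j hjκ) β hj g hg (E ∩ Ioi i0)
      (club_inter hE (club_tail i0)) ξ hξ
    refine ⟨i, hi, i', hi', hii, ?_⟩
    show (if g i ∈ range f then K ρ (r (g i)) (r (g i')) else K (f (n (g i))) (g i) (g i')) = ξ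
    rw [if_neg (hi0 i hi1).2, (hi0 i hi1).1]
    exact h

theorem pn_step {κ : Ordinal.{0}} (hW : ∀ δ < κ, PN δ) :
    PN κ ∨ ∃ μ : Cardinal.{0}, μ.IsRegular ∧ Cardinal.aleph 1 < μ ∧ κ = μ.ord := by
  rcases le_or_gt κ w1 with h1 | h1
  · exact Or.inl (pn_small h1)
  rcases Ordinal.zero_or_succ_or_isSuccLimit κ with h | ⟨δ, h⟩ | h
  · rw [h] at h1
    exact absurd h1 (not_lt_bot (α := Ordinal.{0}))
  · left
    rw [← h, Order.succ_eq_add_one]
    exact pn_succ (hW δ (by rw [← h]; exact Order.lt_succ δ))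
  · rcases (ord_cof_le κ).lt_or_eq with h2 | h2
    · obtain ⟨f, f1, f2, f3, f4⟩ := exists_f h
      have hlim : Order.IsSuccLimit κ.cof.ord :=
        Cardinal.isSuccLimit_ord (Cardinal.isRegular_cof h).aleph0_le
      refine Or.inl (pn_cof f1 f2 f3 f4 h2 (fun i hi => ?_) hW)
      rw [← Order.succ_eq_add_one]
      exact hlim.succ_lt hi
    · refine Or.inr ⟨κ.cof, Cardinal.isRegular_cof h, ?_, h2.symm⟩
      rw [← h2] at h1
      exact Cardinal.ord_lt_ord.1 h1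

/-- **The least counterexample.** -/
theorem least {κ : Cardinal.{0}} (h : ¬ Posed κ) (hm : ∀ l < κ, Posed l) :
    κ.IsRegular ∧ Cardinal.aleph 1 < κ ∧ ∀ C, IsClubIn κ.ord C →
      ∃ β ∈ C, β < κ.ord ∧ β.cof = Cardinal.aleph 1 ∧ ¬ SingularInL β := by
  obtain ⟨δ, hδ, hmin⟩ := WellFounded.has_min (wellFounded_lt (α := Ordinal.{0})) {δ | ¬ PN δ}
    ⟨κ.ord, fun hn => h hn.posed⟩
  have hW : ∀ δ' < δ, PN δ' := fun δ' h => by
    by_contra hn
    exact hmin δ' hn h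
  have hδκ : δ ≤ κ.ord := not_lt.1 (hmin κ.ord fun hn => h hn.posed)
  rcases pn_step hW with h1 | ⟨μ, hμ, hμ1, rfl⟩
  · exact absurd h1 hδ
  have hμκ : μ = κ := by
    refine le_antisymm (Cardinal.ord_le_ord.1 hδκ) ?_
    by_contra hn
    rw [not_le] at hn
    exact hδ (hm μ hn).pn
  subst hμκ
  refine ⟨hμ, hμ1, ?_⟩
  intro C hC
  by_contra hn
  push Not at hn
  refine hδ (pn_club ?_ hC hW ?_)
  · intro g hg
    have h1 := hg.cof_eq
    rw [hμ.cof_ord] at h1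
    exact absurd h1 hμ1.ne'
  · rintro β hβ hβμ ⟨g, hg⟩
    exact sing_of (hn β hβ hβμ hg.cof_eq)

end Pool.Agent.Lib.H91W
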