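import Pool.Agent.Lib.H91W.D3
import Pool.Agent.Lib.H45Osc.Chang

/-!
# The case `κ = ω₂`: elementary embeddings of levels of `L`
-/

set_option autoImplicit false

open Set Ordinal

namespace Pool.Agent.Lib.H91W

open Pool.Agent.Helper43.KK
open Pool.Agent.Lib.H45Osc (w1 isOmega1_W limitPts isClub_limitPts IsClosedCopy
  orderIso_of_countable)

/-- `0^♯` exists, in Kunen's form: there is an elementary embedding `j : L_η → L_θ` which moves an
ordinal of cardinality less than `|η|`. -/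
def ZeroSharp : Prop := ∃ (η θ δ : Ordinal.{0})
  (j : FirstOrder.Language.ElementaryEmbedding setLanguage (LLevel η) (LLevel θ))
  (h : δ.toZFSet ∈ LLevel η), δ.card < η.card ∧ (j ⟨δ.toZFSet, h⟩ : ZFSet.{0}) ≠ δ.toZFSet

/-- An elementary embedding from the transfer of truth. -/
theorem exists_emb {σ : Ordinal.{0} → Ordinal.{0}} (hσ : StrictMono σ) {x : Ordinal.{0}}
    (hx : TT σ x) (hlow : ∀ y < x, TT σ y) :
    ∃ j : FirstOrder.Language.ElementaryEmbedding setLanguage (LLevel x) (LLevel (σ x)),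
      ∀ δ < x, ∀ h : δ.toZFSet ∈ LLevel x, (j ⟨δ.toZFSet, h⟩ : ZFSet.{0}) = (σ δ).toZFSet := by
  choose a φ c ha hc hv using fun z : LLevel x => exists_name z.2
  let j : LLevel x → LLevel (σ x) := fun z =>
    ⟨nmval (σ (a z)) (φ z) (vals ((c z).map σ)),
      nmval_mem (hσ (ha z)) ((proper_map hσ).2 (hc z)).vals_mem⟩
  refine ⟨⟨j, ?_⟩, ?_⟩
  · intro n ψ v
    -- the forest of the names of the entries
    have hfor : ∀ l : List (LLevel x), ∃ t : Frst Ordinal.{0}, Proper x t ∧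
        vals t = List.map (fun z : LLevel x => (z.1 : ZFSet.{0})) l ∧
        vals (t.map σ) = List.map (fun z : LLevel x => ((j z).1 : ZFSet.{0})) l := by
      intro l
      induction l with
      | nil => exact ⟨.nil, trivial, rfl, rfl⟩
      | cons z l ih =>
        obtain ⟨t, h1, h2, h3⟩ := ih
        refine ⟨.cons (a z) (φ z) (c z) t, ⟨ha z, hc z, h1⟩, ?_, ?_⟩
        · rw [vals_cons, List.map_cons, hv z, h2]
        · rw [Frst.map_cons, vals_cons, List.map_cons, h3]
    obtain ⟨t, h1, h2, h3⟩ := hfor (List.ofFn v)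
    have h4 := hx (toFml Fin.val ψ) t
    have h5 : (toFml Fin.val ψ).Sat (LLevel x) (vals t) ↔ ψ.Realize v := by
      have h6 := sat_toFml (A := LLevel x) (f := (Fin.val : Fin n → ℕ)) (v := v)
        (l := List.map (fun z : LLevel x => (z.1 : ZFSet.{0})) (List.ofFn v)) (fun a => by
          rw [List.getElem?_map, List.getElem?_ofFn]
          simp) ψ default
      rw [h2]
      refine Iff.trans ?_ h6
      have h7 : revList (LLevel x) (default : Fin 0 → LLevel x) = [] := rfl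
      rw [h7, List.nil_append]
    have h8 : (toFml Fin.val ψ).Sat (LLevel (σ x)) (vals (t.map σ)) ↔ ψ.Realize (j ∘ v) := by
      have h6 := sat_toFml (A := LLevel (σ x)) (f := (Fin.val : Fin n → ℕ)) (v := j ∘ v)
        (l := List.map (fun z : LLevel x => ((j z).1 : ZFSet.{0})) (List.ofFn v)) (fun a => by
          rw [List.getElem?_map, List.getElem?_ofFn]
          simp) ψ default
      rw [h3]
      refine Iff.trans ?_ h6
      have h7 : revList (LLevel (σ x)) (default : Fin 0 → LLevel (σ x)) = [] := rfl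
      rw [h7, List.nil_append]
    rw [← h5, ← h8]
    constructor
    · intro h
      exact (h4.2 ⟨(proper_map hσ).2 h1, h⟩).2
    · intro h
      exact (h4.1 ⟨h1, h⟩).2
  · intro δ hδ h
    have h1 := (hv ⟨δ.toZFSet, h⟩).trans (nm_ord δ).symm
    have h2 := (eq_transfer hσ (hlow _ (ha _)) (hlow δ hδ) (hc ⟨δ.toZFSet, h⟩)
      (d := .nil) trivial).1 h1
    show nmval _ _ _ = _
    rw [h2]
    exact nm_ord (σ δ)

theorem w1_lt_w2 : w1 < (Cardinal.aleph.{0} 2).ord :=
  Cardinal.ord_lt_ord.2 (Cardinal.aleph_lt_aleph.2 one_lt_two)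

/-- **`0^♯` from a counterexample at `ω₂`.** -/
theorem zeroSharp_of (h : ¬ Posed (Cardinal.aleph 2)) : ZeroSharp := by
  classical
  -- the colouring of finite sets
  let θ : Ordinal.{0} := (Cardinal.aleph.{0} 2).ord
  let s : Loc := mk (θ + 1) 0 ∅
  let f : Finset Ordinal.{0} → Ordinal.{0} := fun F =>
    sSup ((fun y => y + 1) '' ({y | Cl Vl s (F ∪ {θ} : Set Ordinal.{0}) y} ∩ Iio w1))
  have hctb : ∀ F : Finset Ordinal.{0}, ({y | Cl Vl s (F ∪ {θ} : Set Ordinal.{0}) y}).Countable :=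
    fun F => Cl.ctb vl_countable (F.countable_toSet.union (countable_singleton θ))
  have hbd : ∀ Y : Set Ordinal.{0}, Y.Countable → Y ⊆ Iio w1 → ∃ b < w1, ∀ y ∈ Y, y < b := by
    intro Y hY hY'
    have h1 : ((Subtype.val : Iio w1 → Ordinal.{0}) ⁻¹' Y).Countable :=
      hY.preimage Subtype.val_injective
    obtain ⟨b, hb⟩ := isOmega1_W.exists_gt h1
    exact ⟨b.1, b.2, fun y hy => hb ⟨y, hY' hy⟩ hy⟩
  have hf : ∀ F, f F < w1 := by
    intro F
    obtain ⟨b, hb, hb'⟩ := hbd ({y | Cl Vl s (F ∪ {θ} : Set Ordinal.{0}) y} ∩ Iio w1)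
      ((hctb F).mono inter_subset_left) inter_subset_right
    refine lt_of_le_of_lt (csSup_le' ?_) hb
    rintro _ ⟨y, hy, rfl⟩
    exact Order.add_one_le_of_lt (hb' y hy)
  have hf' : ∀ F : Finset Ordinal.{0}, ∀ y, Cl Vl s (F ∪ {θ} : Set Ordinal.{0}) y → y < w1 →
      y < f F := by
    intro F y hy hy'
    obtain ⟨b, hb, hb'⟩ := hbd ({y | Cl Vl s (F ∪ {θ} : Set Ordinal.{0}) y} ∩ Iio w1)
      ((hctb F).mono inter_subset_left) inter_subset_right
    refine (Order.lt_add_one_iff.2 le_rfl : y < y + 1).trans_le ?_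
    refine le_csSup ⟨b, ?_⟩ ⟨y, ⟨hy, hy'⟩, rfl⟩
    rintro _ ⟨z, hz, rfl⟩
    exact Order.add_one_le_of_lt (hb' z hz)
  -- a closed copy on which `f` is bounded
  obtain ⟨A, hAθ, hA, ν, hν, hAν⟩ : ∃ A : Set Ordinal.{0}, A ⊆ Iio θ ∧ IsClosedCopy A ∧ ∃ ν < w1,
      ∀ F : Finset Ordinal.{0}, (F : Set Ordinal.{0}) ⊆ A → f F < ν := by
    by_contra hn
    push Not at hn
    refine h ⟨Pool.Agent.Lib.H45Osc.col f, ?_, ?_⟩
    · intro α β hαβ hβ
      exact Pool.Agent.Lib.H45Osc.col_lt hf hαβ hβ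
    · intro A hA0 hA1 hA2 ξ hξ
      have h1 := Pool.Agent.Lib.H45Osc.main (A := A) ⟨hA1, hA2⟩ (f := f) (ξ := ξ) hf
        (fun B hB hBc ν hν => hn B (hB.trans hA0) hBc ν hν)
        (fun α hα => hA0 hα) hξ
      unfold Pool.Agent.Lib.H45Osc.Miss at h1
      push Not at h1
      exact h1
  -- the hull
  let X : Set Ordinal.{0} := {y | Cl Vl s (A ∪ {θ}) y}
  have hXν : ∀ y ∈ X, y < w1 → y < ν := by
    intro y hy hy'
    obtain ⟨F, hF, hyF⟩ := Cl.fin hy
    have h1 : ((F.erase θ : Finset Ordinal.{0}) : Set Ordinal.{0}) ⊆ A := by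
      intro z hz
      rw [Finset.coe_erase] at hz
      rcases hF hz.1 with h2 | h2
      · exact h2
      · exact absurd h2 hz.2
    refine (hf' (F.erase θ) y (hyF.mono ?_) hy').trans (hAν _ h1)
    intro z hz
    by_cases h2 : z = θ
    · exact Or.inr h2
    · exact Or.inl (by rw [Finset.coe_erase]; exact ⟨hz, h2⟩)
  obtain ⟨σ, s', hr, hcol⟩ := exists_col (M := LM) s (X := X) (LM.idem s _) (l := θ + 1) (by
    show Dm s ≤ θ + 1
    by_contra hn
    rw [not_le] at hn
    exact lt_irrefl _ (lt_Dm.1 hn))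
  have hσ := hcol.mono
  have hclo : Clo Vl s (range σ) := by
    intro x m G h1 h2 h3 y hy
    have hxθ : x < θ + 1 := lt_Dm.2 (mk_zero_le.trans_lt h1) |>.trans_le (by
      show Dm s ≤ θ + 1
      by_contra hn
      rw [not_le] at hn
      exact lt_irrefl _ (lt_Dm.1 hn))
    have hG : ∀ g ∈ G, g < x := vl_lt ⟨y, hy⟩
    rw [hr] at h2 h3 ⊢
    have hin : ∀ z < θ + 1, z ∈ X ∪ Ici (θ + 1) → z ∈ X := by
      rintro z hz (h4 | h4)
      · exact h4
      · exact absurd hz (not_lt.2 h4)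
    exact Or.inl (Cl.rule x m G y h1 (hin x hxθ h2)
      (fun g hg => hin g ((hG g hg).trans hxθ) (h3 g hg)) hy)
  have hθX : θ ∈ X := Cl.base θ (Or.inr rfl)
  obtain ⟨x, hx⟩ : θ ∈ range σ := by
    rw [hr]
    exact Or.inl hθX
  have hTT : ∀ y ≤ x, TT σ y := by
    intro y hy φ t
    refine tr_transfer hσ y (dp φ) ?_ φ le_rfl t
    intro z m G hz
    have hz' : z ≤ x := by
      rcases hz with h1 | ⟨rfl, -⟩
      · exact h1.le.trans hy
      · exact hy
    refine hclo (σ z) m _ (mk_lt.2 (Or.inl ?_)) (mem_range_self _) ?_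
    · rw [Order.lt_add_one_iff, ← hx]
      exact hσ.monotone hz'
    · intro g hg
      obtain ⟨g', -, rfl⟩ := Finset.mem_image.1 hg
      exact mem_range_self _
  obtain ⟨j, hj⟩ := exists_emb hσ (hTT x le_rfl) fun y hy => hTT y hy.le
  -- `x` is uncountable
  have hxw : w1 ≤ x := by
    by_contra hn
    rw [not_le] at hn
    have h1 := (Pool.Agent.Lib.H45Osc.countable_Iio_ord hn).image σ
    have h2 : A ⊆ σ '' Iio x := by
      intro y hy
      have h3 : y ∈ range σ := by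
        rw [hr]
        exact Or.inl (Cl.base y (Or.inl hy))
      obtain ⟨z, rfl⟩ := h3
      refine ⟨z, ?_, rfl⟩
      show z < x
      rw [← hσ.lt_iff_lt, hx]
      exact hAθ hy
    obtain ⟨e⟩ := hA.2
    have h4 : Countable A := (h1.mono h2).to_subtype
    have h5 : Countable (Iio w1) := e.toEquiv.countable_iff.1 h4
    exact Pool.Agent.Lib.H45Osc.not_countable_Iio_w1 (Set.countable_coe_iff.1 h5)
  -- `σ` moves a countable ordinal
  obtain ⟨δ, hδ, hδσ⟩ : ∃ δ ≤ ν, σ δ ≠ δ := by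
    by_contra hn
    push Not at hn
    have h1 : ν ∈ range σ := ⟨ν, hn ν le_rfl⟩
    rw [hr] at h1
    rcases h1 with h1 | h1
    · exact lt_irrefl _ (hXν ν h1 hν)
    · have h2 : θ + 1 ≤ ν := h1
      have h3 : θ < w1 := (Order.add_one_le_iff.1 h2).trans hν
      exact lt_asymm h3 w1_lt_w2
  have hδw : δ < w1 := hδ.trans_lt hν
  have hδx : δ < x := hδw.trans_le hxw
  have hmem : δ.toZFSet ∈ LLevel x := by
    rw [← nm_ord δ]
    exact nmval_mem hδx (by simp)
  refine ⟨x, σ x, δ, j, hmem, ?_, ?_⟩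
  · exact (Cardinal.lt_ord.1 hδw).trans_le (Cardinal.ord_le.1 hxw)
  · rw [hj δ hδx hmem]
    exact fun h => hδσ (toZFSet_injective h)

end Pool.Agent.Lib.H91W
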