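import Pool.Agent.Lib.H91W.D3

/-!
# Hulls and their enumerations
-/

set_option autoImplicit false

open Set Ordinal

namespace Pool.Agent.Lib.H91W

open Pool.Agent.Helper43.KK

/-- The level of a location. -/
def lv (t : Loc) : Ordinal.{0} := (ofLex t).1

/-- The number of a location. -/
def nb (t : Loc) : ℕ := (ofLex (ofLex t).2).1

/-- The parameters of a location. -/
def pr (t : Loc) : Finset Ordinal.{0} := ofColex (ofLex (ofLex t).2).2

theorem mk_eta (t : Loc) : mk (lv t) (nb t) (pr t) = t := rfl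

theorem lv_mk (x : Ordinal.{0}) (m : ℕ) (G : Finset Ordinal.{0}) : lv (mk x m G) = x := rfl

theorem nb_mk (x : Ordinal.{0}) (m : ℕ) (G : Finset Ordinal.{0}) : nb (mk x m G) = m := rfl

theorem pr_mk (x : Ordinal.{0}) (m : ℕ) (G : Finset Ordinal.{0}) : pr (mk x m G) = G := rfl

theorem lv_tau (σ : Ordinal.{0} → Ordinal.{0}) (t : Loc) : lv (tau σ t) = σ (lv t) := rfl

theorem nb_tau (σ : Ordinal.{0} → Ordinal.{0}) (t : Loc) : nb (tau σ t) = nb t := rfl

theorem pr_tau (σ : Ordinal.{0} → Ordinal.{0}) (t : Loc) : pr (tau σ t) = (pr t).image σ := rfl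

/-- The ordinals which occur in a location. -/
noncomputable def sp (t : Loc) : Finset Ordinal.{0} := insert (lv t) (pr t)

theorem lv_mem (t : Loc) : lv t ∈ sp t := Finset.mem_insert_self _ _

theorem sp_tau (σ : Ordinal.{0} → Ordinal.{0}) (t : Loc) : sp (tau σ t) = (sp t).image σ := by
  unfold sp
  rw [Finset.image_insert, lv_tau, pr_tau]

theorem tau_tau (σ τ : Ordinal.{0} → Ordinal.{0}) (t : Loc) :
    tau σ (tau τ t) = tau (fun x => σ (τ x)) t := by
  unfold tau
  show mk (σ (τ _)) _ (((ofColex (ofLex (ofLex t).2).2).image τ).image σ) = mk _ _ _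
  rw [Finset.image_image]
  rfl

theorem tau_congr {σ τ : Ordinal.{0} → Ordinal.{0}} {t : Loc} (h : ∀ x ∈ sp t, σ x = τ x) :
    tau σ t = tau τ t := by
  have h1 : (pr t).image σ = (pr t).image τ :=
    Finset.image_congr fun x hx => h x (Finset.mem_insert_of_mem hx)
  show mk (σ (lv t)) (nb t) ((pr t).image σ) = mk (τ (lv t)) (nb t) ((pr t).image τ)
  rw [h _ (lv_mem t), h1]

theorem tau_id {σ : Ordinal.{0} → Ordinal.{0}} {t : Loc} (h : ∀ x ∈ sp t, σ x = x) :
    tau σ t = t := by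
  rw [tau_congr (τ := id) h]
  show mk (lv t) (nb t) ((pr t).image id) = t
  rw [Finset.image_id, mk_eta]

theorem lv_mono {s t : Loc} (h : s ≤ t) : lv s ≤ lv t := by
  rcases h.eq_or_lt with rfl | h
  · exact le_rfl
  · rw [← mk_eta s, ← mk_eta t, mk_lt] at h
    rcases h with h | ⟨h, -⟩
    · exact h.le
    · exact h.le

theorem nb_mono {s t : Loc} (h : s ≤ t) (hl : lv s = lv t) : nb s ≤ nb t := by
  rcases h.eq_or_lt with rfl | h
  · exact le_rfl
  · rw [← mk_eta s, ← mk_eta t, mk_lt] at h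
    rcases h with h | ⟨-, h | ⟨h, -⟩⟩
    · exact absurd hl h.ne
    · exact h.le
    · exact h.le

theorem Clo.mono {s t : Loc} (h : t ≤ s) {Y : Set Ordinal.{0}} (hc : Clo Vl s Y) : Clo Vl t Y :=
  fun x m G h1 h2 h3 => hc x m G (h1.trans_le h) h2 h3

/-- The hull. -/
def Nn (t : Loc) (Y : Set Ordinal.{0}) : Set Ordinal.{0} := {x | Cl Vl t Y x}

theorem nn_eq (t : Loc) (Y : Set Ordinal.{0}) : LM.N t Y = Nn t Y := rfl

theorem nn_clo (t : Loc) (Y : Set Ordinal.{0}) : Clo Vl t (Nn t Y) := clo_cl t Y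

theorem nn_sub {t : Loc} {Y : Set Ordinal.{0}} : Y ⊆ Nn t Y := fun x hx => Cl.base x hx

theorem nn_mono {s t : Loc} (h : s ≤ t) {X Y : Set Ordinal.{0}} (hX : X ⊆ Y) :
    Nn s X ⊆ Nn t Y := fun _ hx => (Cl.mono hX hx).loc h

theorem nn_least {t : Loc} {X Y : Set Ordinal.{0}} (hX : X ⊆ Y) (hY : Clo Vl t Y) : Nn t X ⊆ Y :=
  fun _ hx => Cl.induct hX hY hx

/-- Hulls and maps with closed range. -/
theorem nn_image {σ : Ordinal.{0} → Ordinal.{0}} (hσ : StrictMono σ) {u : Loc}
    (hc : Clo Vl (tau σ u) (range σ)) (Y : Set Ordinal.{0}) :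
    σ '' Nn u Y = Nn (tau σ u) (σ '' Y) :=
  cl_image (fun x m G h => vl_cond _ σ hσ hc x m G h) (fun _ => (tau_mono hσ).lt_iff_lt.symm) Y

theorem vl_lt_level {x y : Ordinal.{0}} {m : ℕ} {G : Finset Ordinal.{0}} (h : y ∈ Vl x m G) :
    y < x := by
  obtain ⟨t, φ, k, s, a, i, -, -, h3, rfl⟩ := h
  exact h3.1.1 i

/-- The elements of a hull are bounded by the generators. -/
theorem nn_bound {t : Loc} {Y : Set Ordinal.{0}} {y : Ordinal.{0}} (h : y ∈ Nn t Y) :
    y ∈ Y ∨ ∃ z ∈ Y, y < z := by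
  change Cl Vl t Y y at h
  induction h with
  | base x hx => exact Or.inl hx
  | rule x m G y _ _ _ h4 ih1 _ =>
    right
    have h5 := vl_lt_level h4
    rcases ih1 with h | ⟨z, hz, h⟩
    · exact ⟨x, h, h5⟩
    · exact ⟨z, hz, h5.trans h⟩

/-- The levels of the rules before a location. -/
theorem lv_rule {t : Loc} {x : Ordinal.{0}} {m : ℕ} {G : Finset Ordinal.{0}}
    (h : mk x m G < t) : x ≤ lv t := lv_mono h.le

theorem nn_ici {t : Loc} {Y : Set Ordinal.{0}} {c : Ordinal.{0}} (hc : lv t < c)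
    (hY : Clo Vl t Y) : Clo Vl t (Y ∪ Ici c) := by
  intro x m G h1 h2 h3 y hy
  have hx : x ≤ lv t := lv_rule h1
  have hin : ∀ z ≤ lv t, z ∈ Y ∪ Ici c → z ∈ Y := by
    rintro z hz (h4 | h4)
    · exact h4
    · exact absurd (hz.trans_lt hc) (not_lt.2 h4)
  exact Or.inl (hY x m G h1 (hin x hx h2)
    (fun g hg => hin g ((vl_lt ⟨y, hy⟩ g hg).le.trans hx) (h3 g hg)) hy)

/-! ## Increasing functions -/

/-- A left inverse. -/
noncomputable def iv (f : Ordinal.{0} → Ordinal.{0}) (y : Ordinal.{0}) : Ordinal.{0} :=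
  sInf {x | y ≤ f x}

theorem iv_apply {f : Ordinal.{0} → Ordinal.{0}} (hf : StrictMono f) (x : Ordinal.{0}) :
    iv f (f x) = x := by
  have h0 : x ∈ {z | f x ≤ f z} := le_refl (f x)
  apply le_antisymm
  · exact csInf_le' h0
  · have h1 : iv f (f x) ∈ {z | f x ≤ f z} := csInf_mem ⟨x, h0⟩
    exact hf.le_iff_le.1 h1

theorem apply_iv {f : Ordinal.{0} → Ordinal.{0}} (hf : StrictMono f) {y : Ordinal.{0}}
    (hy : y ∈ range f) : f (iv f y) = y := by
  obtain ⟨x, rfl⟩ := hy
  rw [iv_apply hf]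

theorem image_iv {f : Ordinal.{0} → Ordinal.{0}} (hf : StrictMono f) {p : Finset Ordinal.{0}}
    (hp : ∀ y ∈ p, y ∈ range f) : (p.image (iv f)).image f = p := by
  rw [Finset.image_image]
  have h : ∀ y ∈ p, (f ∘ iv f) y = y := fun y hy => apply_iv hf (hp y hy)
  rw [Finset.image_congr h, Finset.image_id']

theorem tau_iv {f : Ordinal.{0} → Ordinal.{0}} (hf : StrictMono f) {t : Loc}
    (ht : ∀ y ∈ sp t, y ∈ range f) : tau f (tau (iv f) t) = t := by
  rw [tau_tau]
  exact tau_id fun x hx => apply_iv hf (ht x hx)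

theorem iv_tau {f : Ordinal.{0} → Ordinal.{0}} (hf : StrictMono f) (t : Loc) :
    tau (iv f) (tau f t) = t := by
  rw [tau_tau]
  exact tau_id fun x _ => iv_apply hf x

theorem iv_le_iff {f : Ordinal.{0} → Ordinal.{0}} (hf : StrictMono f) {y x : Ordinal.{0}}
    (hy : y ∈ range f) : iv f y ≤ x ↔ y ≤ f x := by
  obtain ⟨z, rfl⟩ := hy
  rw [iv_apply hf, hf.le_iff_le]

/-- Increasing functions with the same values up to `z` agree. -/
theorem eq_of_range {f g : Ordinal.{0} → Ordinal.{0}} (hf : StrictMono f) (hg : StrictMono g)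
    {z : Ordinal.{0}} (h : ∀ y ≤ z, y ∈ range f ↔ y ∈ range g) :
    ∀ x, f x ≤ z → f x = g x := by
  intro x
  induction x using WellFoundedLT.induction with
  | ind x ih =>
    intro hx
    obtain ⟨w, hw⟩ := (h _ hx).1 (mem_range_self x)
    rcases lt_trichotomy w x with h1 | h1 | h1
    · have h2 := ih w h1 ((hf h1).le.trans hx)
      rw [hw] at h2
      exact absurd (hf.injective h2) h1.ne
    · rw [h1] at hw
      exact hw.symm
    · have h2 : g x < f x := by
        rw [← hw]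
        exact hg h1
      obtain ⟨v, hv⟩ := (h _ (h2.le.trans hx)).2 (mem_range_self x)
      have h3 : v < x := by
        rw [← hf.lt_iff_lt, hv]
        exact h2
      have h4 := ih v h3 (by rw [hv]; exact h2.le.trans hx)
      rw [hv] at h4
      exact absurd (hg.injective h4) h3.ne'

theorem eq_of_range' {f g : Ordinal.{0} → Ordinal.{0}} (hf : StrictMono f) (hg : StrictMono g)
    (h : range f = range g) : f = g :=
  funext fun x => eq_of_range hf hg (z := f x) (fun y _ => by rw [h]) x le_rfl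

/-! ## Enumerations of hulls -/

/-- The enumeration of the hull of `γ` and `q` at `t`, followed by the ordinals above the level. -/
noncomputable def En (t : Loc) (γ : Ordinal.{0}) (q : Finset Ordinal.{0}) :
    Ordinal.{0} → Ordinal.{0} := enumOrd (Nn t (Iio γ ∪ q) ∪ Ici (lv t + 1))

variable {t : Loc} {γ : Ordinal.{0}} {q : Finset Ordinal.{0}}

theorem not_bdd_ici (A : Set Ordinal.{0}) (l : Ordinal.{0}) : ¬ BddAbove (A ∪ Ici l) := by
  rintro ⟨b, hb⟩
  have h1 : max b l + 1 ∈ A ∪ Ici l := Or.inr ((le_max_right b l).trans (le_add_right le_rfl))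
  exact absurd ((le_max_left b l).trans_lt (lt_add_one _)) (not_lt.2 (hb h1))

theorem en_mono : StrictMono (En t γ q) := enumOrd_strictMono (not_bdd_ici _ _)

theorem en_range : range (En t γ q) = Nn t (Iio γ ∪ q) ∪ Ici (lv t + 1) :=
  range_enumOrd (not_bdd_ici _ _)

theorem en_clo : Clo Vl t (range (En t γ q)) := by
  rw [en_range]
  exact nn_ici (Order.lt_add_one_iff.2 le_rfl) (nn_clo _ _)

theorem sub_en_range : Iio γ ∪ (q : Set Ordinal.{0}) ⊆ range (En t γ q) := by
  rw [en_range]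
  exact nn_sub.trans subset_union_left

theorem mem_en_range {x : Ordinal.{0}} (hx : x ∈ q) : x ∈ range (En t γ q) :=
  sub_en_range (Or.inr hx)

theorem mem_en_range_iff {x : Ordinal.{0}} (hx : x ≤ lv t) :
    x ∈ range (En t γ q) ↔ x ∈ Nn t (Iio γ ∪ q) := by
  rw [en_range]
  refine ⟨fun h => h.resolve_right fun h => ?_, fun h => Or.inl h⟩
  exact absurd (hx.trans_lt (Order.lt_add_one_iff.2 le_rfl)) (not_lt.2 h)

theorem en_fix : ∀ x < γ, En t γ q x = x :=
  StrictMono.fix en_mono (subset_union_left.trans sub_en_range)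

/-- The growth of the enumeration. -/
theorem en_le (x : Ordinal.{0}) : En t γ q x ≤ lv t + 1 + x := by
  have h1 : ∀ y, lv t + 1 + y ∈ range (En t γ q) := by
    intro y
    rw [en_range]
    have h0 : lv t + 1 ≤ lv t + 1 + y := le_add_right le_rfl
    exact Or.inr h0
  have h2 : StrictMono fun y => iv (En t γ q) (lv t + 1 + y) := by
    intro y z hyz
    rw [← (en_mono (t := t) (γ := γ) (q := q)).lt_iff_lt, apply_iv en_mono (h1 y),
      apply_iv en_mono (h1 z)]
    exact (add_lt_add_iff_left _).2 hyz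
  have h3 : x ≤ iv (En t γ q) (lv t + 1 + x) := h2.le_apply
  calc En t γ q x ≤ En t γ q (iv (En t γ q) (lv t + 1 + x)) := en_mono.monotone h3
    _ = lv t + 1 + x := apply_iv en_mono (h1 x)

/-- **The composition of enumerations.** -/
theorem en_comp {f : Ordinal.{0} → Ordinal.{0}} (hf : StrictMono f) {w : Loc}
    (hc : Clo Vl (tau f w) (range f)) (hfix : ∀ x < γ, f x = x) :
    ∀ x, f (En w γ q x) ≤ f (lv w) → f (En w γ q x) = En (tau f w) γ (q.image f) x := by
  classical
  refine eq_of_range (hf.comp en_mono) en_mono (z := f (lv w)) ?_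
  intro y hy
  have h1 : f '' Nn w (Iio γ ∪ q) = Nn (tau f w) (Iio γ ∪ (q.image f : Finset Ordinal.{0})) := by
    rw [nn_image hf hc, image_set hfix le_rfl]
  have h2 : range (f ∘ En w γ q) = f '' range (En w γ q) := range_comp _ _
  rw [h2, mem_en_range_iff (t := tau f w) (by rw [lv_tau]; exact hy), ← h1]
  constructor
  · rintro ⟨z, hz, rfl⟩
    rw [hf.le_iff_le] at hy
    exact ⟨z, (mem_en_range_iff hy).1 hz, rfl⟩
  · rintro ⟨z, hz, rfl⟩
    rw [hf.le_iff_le] at hy
    exact ⟨z, (mem_en_range_iff hy).2 hz, rfl⟩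

end Pool.Agent.Lib.H91W
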