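import Pool.Agent.Lib.H91W.F9

/-!
# Ill-founded lifts and their reflection
-/

set_option autoImplicit false

open Set Ordinal

namespace Pool.Agent.Lib.H91W

open Pool.Agent.Helper43.KK

/-- The lift of the map of `X` is ill-founded at `s`. -/
structure Bad (l β : Ordinal.{0}) (X : Set Ordinal.{0}) (s : Loc) (a : ℕ → Ix)
    (u : ℕ → Ordinal.{0}) : Prop where
  lf : Lf s (iv (sg l X) β)
  jj : ∀ n, JJ s (iv (sg l X) β) (a n)
  le : ∀ n, Le (a n) (a (n + 1))
  lev : ∀ n, u n ≤ sg l X (xb (a n))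
  lt : ∀ n, u (n + 1) < ps (sg l X) (a n) (a (n + 1)) (u n)

open Classical in
/-- A descending sequence for the least location. -/
noncomputable def wit (l β : Ordinal.{0}) (X : Set Ordinal.{0}) : Set Ordinal.{0} :=
  if h : ∃ (s : Loc) (u : ℕ → Ordinal.{0}), (∃ a, Bad l β X s a u) ∧
    ∀ s' a' u', Bad l β X s' a' u' → s ≤ s' then range h.choose_spec.choose else ∅

theorem wit_spec {l β : Ordinal.{0}} {X : Set Ordinal.{0}} {s : Loc} {a : ℕ → Ix}
    {u : ℕ → Ordinal.{0}} (h : Bad l β X s a u) :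
    ∃ s' ≤ s, ∃ a' u', Bad l β X s' a' u' ∧ wit l β X = range u' := by
  have h1 : ∃ (s : Loc) (u : ℕ → Ordinal.{0}), (∃ a, Bad l β X s a u) ∧
      ∀ s' a' u', Bad l β X s' a' u' → s ≤ s' := by
    obtain ⟨s0, ⟨a0, u0, h0⟩, hm⟩ := WellFounded.has_min (wellFounded_lt (α := Loc))
      {s | ∃ a u, Bad l β X s a u} ⟨s, a, u, h⟩
    exact ⟨s0, u0, ⟨a0, h0⟩, fun s' a' u' h' => not_lt.1 (hm s' ⟨a', u', h'⟩)⟩
  have h2 : wit l β X = range h1.choose_spec.choose := by
    unfold wit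
    rw [dif_pos h1]
  obtain ⟨⟨a', h3⟩, h4⟩ := h1.choose_spec.choose_spec
  exact ⟨_, h4 s a u h, a', _, h3, h2⟩

theorem wit_countable (l β : Ordinal.{0}) (X : Set Ordinal.{0}) : (wit l β X).Countable := by
  unfold wit
  split_ifs
  · exact countable_range _
  · exact countable_empty

theorem iv_sg {l β : Ordinal.{0}} {X : Set Ordinal.{0}} (h : β ∈ X) :
    sg l X (iv (sg l X) β) = β := apply_iv sg_mono (mem_sg h)

theorem wit_lt {l β : Ordinal.{0}} {X : Set Ordinal.{0}} (h : β ∈ X) : wit l β X ⊆ Iio β := by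
  unfold wit
  split_ifs with h1
  · obtain ⟨⟨a', h3⟩, h4⟩ := h1.choose_spec.choose_spec
    rintro _ ⟨n, rfl⟩
    refine lt_of_le_of_lt (h3.lev n) ?_
    conv_rhs => rw [← iv_sg (l := l) h]
    exact sg_mono (h3.lf _ (h3.jj n))
  · exact empty_subset _

theorem va_of_imx {f : Ordinal.{0} → Ordinal.{0}} (hf : StrictMono f) {a : Ix}
    (h : Va (imx f a)) : Va a := by
  refine ⟨?_, ?_⟩
  · have h1 : (sp a.t).image f ⊆ a.p.image f := by
      rw [← sp_tau]
      exact h.sp
    exact (Finset.image_subset_image_iff hf.injective).1 h1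
  · intro x hx
    exact hf.le_iff_le.1 (h.le (f x) (Finset.mem_image_of_mem _ hx))

theorem le_of_imx {f : Ordinal.{0} → Ordinal.{0}} (hf : StrictMono f) {a c : Ix}
    (h : Le (imx f a) (imx f c)) : Le a c :=
  ⟨(tau_mono hf).le_iff_le.1 h.t, hf.le_iff_le.1 h.g,
    (Finset.image_subset_image_iff hf.injective).1 h.p⟩

theorem imx_iv {f : Ordinal.{0} → Ordinal.{0}} (hf : StrictMono f) {a : Ix}
    (h : ∀ x ∈ od a, x ∈ range f) : imx f (imx (iv f) a) = a := by
  rw [imx_imx]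
  exact imx_id fun x hx => apply_iv hf (h x hx)

theorem Bad.nlt {l β : Ordinal.{0}} {X : Set Ordinal.{0}} {s : Loc} {a : ℕ → Ix}
    {u : ℕ → Ordinal.{0}} (h : Bad l β X s a u) {s' : Loc} (hs : s ≤ s') (n : ℕ) :
    JJ s' (iv (sg l X) β) (a n) :=
  ⟨(h.jj n).lt.trans_le hs, (h.jj n).va, (h.jj n).g, (h.jj n).b⟩

/-- **The reflection argument.** -/
theorem no_bad {l l' β : Ordinal.{0}} {X Y W : Set Ordinal.{0}} {s : Loc} {a : ℕ → Ix}
    {u : ℕ → Ordinal.{0}} (hl : Pl l) (hl' : Pl l') (hX : Cs X) (hW : Cs W) (hβl : β < l)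
    (hYX : Y ⊆ X) (hβ : β ∈ Y) (hWl : W ⊆ Iio l') (hbW : iv (sg l X) β ∈ W)
    (hWY : ∀ x < iv (sg l X) β, x ∈ W ↔ sg l X x ∈ Y) (hs : lv s < l')
    (h : Bad l β X s a u) (ha : ∀ n, (od (a n) : Set Ordinal.{0}) ⊆ W) (hwit : wit l β Y ⊆ X) :
    False := by
  classical
  have hGX : GM l (sg l X) := gm_of hl hX
  have hGW : GM l' (sg l' W) := gm_of hl' hW
  set σ := sg l X with hσ
  set e := sg l' W with he
  set ρ := sg l Y with hρ
  set b := iv σ β with hb
  set b' := iv ρ β with hb'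
  have hσm : StrictMono σ := sg_mono
  have hem : StrictMono e := sg_mono
  have hρm : StrictMono ρ := sg_mono
  have hσb : σ b = β := iv_sg (hYX hβ)
  have hρb : ρ b' = β := iv_sg hβ
  have hbl' : b < l' := hWl hbW
  -- the composition
  have hrange : ∀ y ≤ β, y ∈ range (fun x => σ (e x)) ↔ y ∈ range ρ := by
    intro y hy
    constructor
    · rintro ⟨x, rfl⟩
      have h1 : e x ≤ b := by
        rw [← hσm.le_iff_le, hσb]
        exact hy
      have h2 : e x ∈ W := sg_mem (h1.trans_lt hbl')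
      refine mem_sg (l := l) (X := Y) ?_
      rcases h1.lt_or_eq with h3 | h3
      · exact (hWY _ h3).1 h2
      · show σ (e x) ∈ Y
        rw [h3, hσb]
        exact hβ
    · rintro ⟨x, rfl⟩
      have h1 : ρ x ∈ Y := sg_mem (hy.trans_lt hβl)
      obtain ⟨z, hz⟩ := mem_sg (l := l) (hYX h1)
      change σ z = ρ x at hz
      have h2 : z ≤ b := by
        rw [← hσm.le_iff_le, hσb, hz]
        exact hy
      have h3 : z ∈ W := by
        rcases h2.lt_or_eq with h4 | h4
        · rw [hWY z h4, hz]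
          exact h1
        · rw [h4]
          exact hbW
      obtain ⟨x', hx'⟩ := mem_sg (l := l') h3
      change e x' = z at hx'
      exact ⟨x', by show σ (e x') = _; rw [hx', hz]⟩
  have hcomp' : ∀ x, ρ x ≤ β → ρ x = σ (e x) :=
    eq_of_range hρm (hσm.comp hem) fun y hy => (hrange y hy).symm
  have hcomp : ∀ x ≤ b', σ (e x) = ρ x := fun x hx => by
    refine (hcomp' x ?_).symm
    rw [← hρb]
    exact hρm.monotone hx
  have heb : e b' = b := by
    apply hσm.injective
    rw [hcomp b' le_rfl, hρb, hσb]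
  -- the location
  obtain ⟨s', hs's, hs'⟩ := exists_pull hem s
  have hup : ∀ a', JJ s' b' a' → JJ s b (imx e a') := by
    intro a' h1
    refine ⟨(hs' _).1 h1.lt, h1.va.imx hem, ?_, ?_⟩
    · show e a'.g < b
      rw [← heb]
      exact hem h1.g
    · show b ≤ e (lv a'.t)
      rw [← heb]
      exact hem.monotone h1.b
  have hdn : ∀ a', JJ s b (imx e a') → JJ s' b' a' := by
    intro a' h1
    refine ⟨(hs' _).2 h1.lt, va_of_imx hem h1.va, ?_, ?_⟩
    · have h2 : e a'.g < b := h1.g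
      rw [← heb] at h2
      exact hem.lt_iff_lt.1 h2
    · have h2 : b ≤ e (lv a'.t) := h1.b
      rw [← heb] at h2
      exact hem.le_iff_le.1 h2
  have hsmall : ∀ a', JJ s' b' a' → ∀ x ∈ od a', e x < l' := by
    intro a' h1 x hx
    have h2 : x ≤ lv a'.t := by
      unfold od at hx
      rw [Finset.mem_insert, Finset.mem_union] at hx
      rcases hx with rfl | hx | hx
      · exact h1.g.le.trans h1.b
      · exact h1.va.le x (h1.va.sp hx)
      · exact h1.va.le x hx
    refine (hem.monotone h2).trans_lt (lt_of_le_of_lt ?_ hs)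
    exact lv_mono (hup a' h1).lt.le
  have hxb : ∀ a', JJ s' b' a' → e (xb a') = xb (imx e a') := fun a' h1 =>
    gm_xb hGW (hsmall a' h1) h1.va
  have hLf : Lf s' b' := by
    intro a' h1
    have h2 := h.lf _ (hup a' h1)
    rw [← hxb a' h1] at h2
    change e (xb a') < b at h2
    rw [← heb] at h2
    exact hem.lt_iff_lt.1 h2
  have hps : ∀ a' c', JJ s' b' a' → JJ s' b' c' → Le a' c' →
      ps ρ a' c' = ps σ (imx e a') (imx e c') := by
    intro a' c' h1 h2 h3
    unfold ps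
    rw [← gm_lo' hGW h3 h1.va (hsmall c' h2), imx_imx]
    congr 1
    refine imx_congr fun x hx => ?_
    exact (hcomp x (od_lo h3 h1.va h1.g (hLf c' h2) x hx).le).symm
  -- the descending sequence for `Y`
  have haim : ∀ n, imx e (imx (iv e) (a n)) = a n := fun n =>
    imx_iv hem fun x hx => mem_sg (ha n hx)
  have hjj : ∀ n, JJ s' b' (imx (iv e) (a n)) := fun n => by
    refine hdn _ ?_
    rw [haim]
    exact h.jj n
  have hle : ∀ n, Le (imx (iv e) (a n)) (imx (iv e) (a (n + 1))) := fun n => by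
    refine le_of_imx hem ?_
    rw [haim, haim]
    exact h.le n
  have hbad : Bad l β Y s' (fun n => imx (iv e) (a n)) u := by
    refine ⟨hLf, hjj, hle, ?_, ?_⟩
    · intro n
      show u n ≤ ρ (xb (imx (iv e) (a n)))
      rw [← hcomp _ (hLf _ (hjj n)).le, hxb _ (hjj n), haim]
      exact h.lev n
    · intro n
      show u (n + 1) < ps ρ _ _ (u n)
      rw [hps _ _ (hjj n) (hjj (n + 1)) (hle n), haim, haim]
      exact h.lt n
  obtain ⟨s0, hs0, a0, v, h0, hw⟩ := wit_spec hbad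
  have hj0 : ∀ n, JJ s' b' (a0 n) := fun n => h0.nlt hs0 n
  have hv : ∀ n, ∃ w, σ w = v n := fun n =>
    mem_sg (hwit (by rw [hw]; exact mem_range_self n))
  choose w hw' using hv
  have h5 : ∀ n, w n ≤ xb (imx e (a0 n)) := by
    intro n
    rw [← hσm.le_iff_le, hw', ← hxb _ (hj0 n), hcomp _ (hLf _ (hj0 n)).le]
    exact h0.lev n
  have h6 : ∀ n, w (n + 1) < pm (imx e (a0 n)) (imx e (a0 (n + 1))) (w n) := by
    intro n
    have h7 := h0.lt n
    change v (n + 1) < ps ρ _ _ (v n) at h7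
    have hle0 := h0.le n
    rw [hps _ _ (hj0 n) (hj0 (n + 1)) hle0, ← hw', ← hw'] at h7
    have h8 := ps_comm hGX (b := b) (by show σ b < l; rw [hσb]; exact hβl) (hle0.imx hem)
      (hup _ (hj0 n)).va (hup _ (hj0 n)).g (h.lf _ (hup _ (hj0 (n + 1)))) (w n)
    change ps σ _ _ (σ (w n)) = _ at h8
    rw [h8] at h7
    exact hσm.lt_iff_lt.1 h7
  -- a descending sequence of ordinals
  let f : ℕ → Ordinal.{0} := fun n => ee (imx e (a0 n)) (w n)
  have hf : ∀ n, f (n + 1) < f n := by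
    intro n
    have h7 := (h0.le n).imx hem
    have h8 := h7.comp_ee (hup _ (hj0 n)).va (x := w n) (Or.inr
      ((hup _ (hj0 n)).va.le_xb.1 (h5 n)))
    show ee (imx e (a0 (n + 1))) (w (n + 1)) < ee (imx e (a0 n)) (w n)
    rw [← h8]
    exact ee_mono _ (h6 n)
  obtain ⟨m, ⟨n, rfl⟩, hm⟩ := WellFounded.has_min (wellFounded_lt (α := Ordinal.{0})) (range f)
    (range_nonempty f)
  exact hm _ ⟨n + 1, rfl⟩ (hf n)

end Pool.Agent.Lib.H91W
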