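import Pool.Agent.Lib.H91W.F10

/-!
# The covering argument
-/

set_option autoImplicit false

open Set Ordinal

namespace Pool.Agent.Lib.H91W

open Pool.Agent.Helper43.KK
open Pool.Agent.Lib.H45Osc (w1 isOmega1_W limitPts isClub_limitPts)

theorem bad_of_desc {l β : Ordinal.{0}} {X : Set Ordinal.{0}} {s : Loc}
    (hG : GM l (sg l X)) (hb : sg l X (iv (sg l X) β) < l) (hL : Lf s (iv (sg l X) β))
    (h : (lift hG hb hL).Desc) : ∃ a u, Bad l β X s a u := by
  obtain ⟨a, u, h1, h2, h3⟩ := h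
  exact ⟨fun n => (a n).1, u, hL, fun n => (a n).2, h1, h2, h3⟩

/-- The chain of closed sets. -/
noncomputable def CX (l β : Ordinal.{0}) (g : Iio w1 → Ordinal.{0}) : Iio w1 → Set Ordinal.{0} :=
  (wellFounded_lt (α := Iio w1)).fix fun i ih =>
    gcl ({β} ∪ ⋃ j, ⋃ hj : j < i, (ih j hj ∪ {g j} ∪ wit l β (ih j hj)))

variable {l β : Ordinal.{0}} {g : Iio w1 → Ordinal.{0}}

theorem cx_eq (i : Iio w1) : CX l β g i =
    gcl ({β} ∪ ⋃ j, ⋃ _ : j < i, (CX l β g j ∪ {g j} ∪ wit l β (CX l β g j))) :=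
  WellFounded.fix_eq _ _ i

theorem cx_cs (i : Iio w1) : Cs (CX l β g i) := by
  rw [cx_eq]
  exact cs_gcl _

theorem cx_beta (i : Iio w1) : β ∈ CX l β g i := by
  rw [cx_eq]
  exact sub_gcl (Or.inl rfl)

theorem cx_step {i j : Iio w1} (h : j < i) :
    CX l β g j ∪ {g j} ∪ wit l β (CX l β g j) ⊆ CX l β g i := by
  intro x hx
  rw [cx_eq i]
  refine sub_gcl (Or.inr ?_)
  simp only [mem_iUnion]
  exact ⟨j, h, hx⟩

theorem cx_mono : Monotone (CX l β g) := by
  intro j i h
  rcases h.eq_or_lt with rfl | h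
  · exact subset_rfl
  · exact (subset_union_left.trans subset_union_left).trans (cx_step h)

theorem cx_countable (i : Iio w1) : (CX l β g i).Countable := by
  induction i using WellFoundedLT.induction with
  | ind i ih =>
    rw [cx_eq]
    refine gcl_countable ((countable_singleton β).union ?_)
    refine (isOmega1_W.countable_Iio i).biUnion fun j hj => ?_
    exact ((ih j hj).union (countable_singleton _)).union (wit_countable _ _ _)

theorem cx_sub (hl : Pl l) (hβ : β < l) (hg : ∀ i, g i < β) (i : Iio w1) :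
    CX l β g i ⊆ Iio l := by
  induction i using WellFoundedLT.induction with
  | ind i ih =>
    rw [cx_eq]
    refine gcl_min ?_ (cs_iio hl)
    rintro x (hx | hx)
    · rw [hx]
      exact hβ
    · simp only [mem_iUnion] at hx
      obtain ⟨j, hj, (hx | hx) | hx⟩ := hx
      · exact ih j hj hx
      · rw [hx]
        exact (hg j).trans hβ
      · exact lt_trans (show x < β from wit_lt (cx_beta j) hx) hβ

theorem cx_lim {i : Iio w1} (hi : i ∈ limitPts) {x : Ordinal.{0}} (hx : x ∈ CX l β g i) :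
    ∃ j < i, x ∈ CX l β g j := by
  obtain ⟨v0, hv0⟩ := hi.1
  have h1 : CX l β g i ⊆ ⋃ j : Iio i, CX l β g j.1 := by
    rw [cx_eq]
    refine gcl_min ?_ ?_
    · rintro y (hy | hy)
      · rw [hy]
        exact mem_iUnion.2 ⟨⟨v0, hv0⟩, cx_beta v0⟩
      · simp only [mem_iUnion] at hy
        obtain ⟨j, hj, hy⟩ := hy
        obtain ⟨w, hw, hwi⟩ := hi.2 j hj
        exact mem_iUnion.2 ⟨⟨w, hwi⟩, cx_step hw hy⟩
    · exact cs_iUnion (fun j : Iio i => CX l β g j.1) (fun j j' h => cx_mono h)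
        fun j => ⟨j, le_rfl, cx_cs _⟩
  obtain ⟨j, hj⟩ := mem_iUnion.1 (h1 hx)
  exact ⟨j.1, j.2, hj⟩

/-- The union of the chain. -/
noncomputable def UX (l β : Ordinal.{0}) (g : Iio w1 → Ordinal.{0}) : Set Ordinal.{0} :=
  ⋃ i, CX l β g i

theorem ux_cs : Cs (UX l β g) := cs_iUnion _ cx_mono fun i => ⟨i, le_rfl, cx_cs i⟩

theorem ux_g (i : Iio w1) : g i ∈ UX l β g := by
  obtain ⟨j, hj⟩ := isOmega1_W.exists_lt i
  exact mem_iUnion.2 ⟨j, cx_step hj (Or.inl (Or.inr rfl))⟩

theorem ux_beta : β ∈ UX l β g := by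
  obtain ⟨i⟩ := isOmega1_W.nonempty
  exact mem_iUnion.2 ⟨i, cx_beta i⟩

theorem ux_sub (hl : Pl l) (hβ : β < l) (hg : ∀ i, g i < β) : UX l β g ⊆ Iio l :=
  iUnion_subset fun i => cx_sub hl hβ hg i

theorem ux_wit (i : Iio w1) : wit l β (CX l β g i) ⊆ UX l β g := by
  obtain ⟨j, hj⟩ := isOmega1_W.exists_lt i
  intro x hx
  exact mem_iUnion.2 ⟨j, cx_step hj (Or.inr hx)⟩

/-- **The lifts of the union are well-founded.** -/
theorem ux_not_bad (hl : Pl l) (hβ : β < l) (s : Loc) (a : ℕ → Ix) (u : ℕ → Ordinal.{0}) :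
    ¬ Bad l β (UX l β g) s a u := by
  classical
  intro h
  set σ := sg l (UX l β g) with hσ
  set b := iv σ β with hb
  have hσm : StrictMono σ := sg_mono
  have hσb : σ b = β := iv_sg ux_beta
  obtain ⟨l', hl'1, hl'⟩ := exists_pl (max (lv s) b)
  have hsl : lv s < l' := (le_max_left _ _).trans_lt hl'1
  have hbl : b < l' := (le_max_right _ _).trans_lt hl'1
  have hnext : ∀ (W : Set Ordinal.{0}) (i : Iio w1), ∃ i', W.Countable →
      i < i' ∧ ∀ x ∈ W, x < b → σ x ∈ CX l β g i' := by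
    intro W i
    by_cases hW : W.Countable
    swap
    · exact ⟨i, fun h => absurd h hW⟩
    have h1 : ∀ x : Ordinal.{0}, ∃ j, x < b → σ x ∈ CX l β g j := by
      intro x
      by_cases hx : x < b
      · have h2 : σ x < l := ((hσm hx).trans_eq hσb).trans hβ
        have h3 : σ x ∈ UX l β g := sg_mem h2
        obtain ⟨j, hj⟩ := mem_iUnion.1 h3
        exact ⟨j, fun _ => hj⟩
      · exact ⟨i, fun h => absurd h hx⟩
    choose J hJ using h1
    obtain ⟨i', hi'⟩ := isOmega1_W.exists_gt (((hW.image J)).union (countable_singleton i))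
    exact ⟨i', fun _ => ⟨hi' i (Or.inr rfl), fun x hx hxb =>
      cx_mono (hi' _ (Or.inl ⟨x, hx, rfl⟩)).le (hJ x hxb)⟩⟩
  choose nx hnx using hnext
  obtain ⟨i0⟩ := isOmega1_W.nonempty
  let W0 : Set Ordinal.{0} := gcl ({b} ∪ ⋃ n, (od (a n) : Set Ordinal.{0}))
  let st : ℕ → Set Ordinal.{0} × Iio w1 := fun n => Nat.rec (W0, i0)
    (fun _ p => (gcl (p.1 ∪ {x | x < b ∧ σ x ∈ CX l β g p.2}), nx p.1 p.2)) n
  have hst0 : st 0 = (W0, i0) := rfl
  have hst1 : ∀ n, (st (n + 1)).1 = gcl ((st n).1 ∪ {x | x < b ∧ σ x ∈ CX l β g (st n).2}) :=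
    fun _ => rfl
  have hst2 : ∀ n, (st (n + 1)).2 = nx (st n).1 (st n).2 := fun _ => rfl
  have hcount : ∀ n, (st n).1.Countable := by
    intro n
    induction n with
    | zero =>
      exact gcl_countable ((countable_singleton b).union (countable_iUnion fun n =>
        (od (a n)).countable_toSet))
    | succ n ih =>
      rw [hst1]
      refine gcl_countable (ih.union ?_)
      refine ((cx_countable (l := l) (β := β) (g := g) (st n).2).preimage hσm.injective).mono ?_
      rintro x ⟨-, hx⟩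
      exact hx
  have hcs : ∀ n, Cs (st n).1 := by
    intro n
    cases n with
    | zero => exact cs_gcl _
    | succ n => rw [hst1]; exact cs_gcl _
  have hstep : ∀ n, (st n).1 ⊆ (st (n + 1)).1 := fun n => by
    rw [hst1]
    exact subset_union_left.trans sub_gcl
  have hsub : ∀ n, (st n).1 ⊆ Iio l' := by
    intro n
    induction n with
    | zero =>
      refine gcl_min ?_ (cs_iio hl')
      rintro x (hx | hx)
      · rw [hx]
        exact hbl
      · obtain ⟨n, hn⟩ := mem_iUnion.1 hx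
        have hj := h.jj n
        have h2 : x ≤ lv (a n).t := by
          have hn' : x ∈ od (a n) := hn
          unfold od at hn'
          rw [Finset.mem_insert, Finset.mem_union] at hn'
          rcases hn' with rfl | hx | hx
          · exact hj.g.le.trans hj.b
          · exact hj.va.le x (hj.va.sp hx)
          · exact hj.va.le x hx
        exact (h2.trans (lv_mono hj.lt.le)).trans_lt hsl
    | succ n ih =>
      rw [hst1]
      refine gcl_min (union_subset ih ?_) (cs_iio hl')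
      rintro x ⟨hx, -⟩
      exact hx.trans hbl
  have hlt : ∀ n, (st n).2 < (st (n + 1)).2 := fun n => by
    rw [hst2]
    exact (hnx _ _ (hcount n)).1
  -- the limit
  obtain ⟨i, hi, hmin⟩ := WellFounded.has_min (wellFounded_lt (α := Iio w1))
    {i | ∀ n, (st n).2 < i} (by
      obtain ⟨i', hi'⟩ := isOmega1_W.exists_gt (countable_range fun n => (st n).2)
      exact ⟨i', fun n => hi' _ ⟨n, rfl⟩⟩)
  have hbelow : ∀ v < i, ∃ n, v ≤ (st n).2 := by
    intro v hv
    by_contra hn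
    push Not at hn
    exact hmin v hn hv
  have hilim : i ∈ limitPts := by
    refine ⟨⟨_, hi 0⟩, fun v hv => ?_⟩
    obtain ⟨n, hn⟩ := hbelow v hv
    exact ⟨(st (n + 1)).2, hn.trans_lt (hlt n), hi (n + 1)⟩
  have hWmono : Monotone fun n => (st n).1 := monotone_nat_of_le_succ hstep
  refine no_bad (Y := CX l β g i) (W := ⋃ n, (st n).1) hl hl' ux_cs
    (cs_iUnion _ hWmono fun n => ⟨n, le_rfl, hcs n⟩) hβ (subset_iUnion _ i) (cx_beta i)
    (iUnion_subset hsub) ?_ ?_ hsl h ?_ (ux_wit i)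
  · exact mem_iUnion.2 ⟨0, sub_gcl (Or.inl rfl)⟩
  · intro x hx
    constructor
    · intro hxW
      obtain ⟨n, hn⟩ := mem_iUnion.1 hxW
      have h1 := (hnx _ (st n).2 (hcount n)).2 x hn hx
      rw [← hst2] at h1
      exact cx_mono (le_of_lt (hi (n + 1))) h1
    · intro hxY
      obtain ⟨j, hj, hxj⟩ := cx_lim hilim hxY
      obtain ⟨n, hn⟩ := hbelow j hj
      refine mem_iUnion.2 ⟨n + 1, ?_⟩
      show x ∈ (st (n + 1)).1
      rw [hst1]
      exact sub_gcl (Or.inr ⟨hx, cx_mono hn hxj⟩)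
  · intro n
    refine Subset.trans ?_ (subset_iUnion _ 0)
    refine Subset.trans ?_ sub_gcl
    exact (subset_iUnion (fun n => (od (a n) : Set Ordinal.{0})) n).trans subset_union_right

/-- The union is small. -/
theorem ux_small : Cardinal.mk (UX l β g) ≤ Cardinal.lift.{1} (Cardinal.aleph.{0} 1) := by
  have h1 := Cardinal.mk_iUnion_le (CX l β g)
  have h2 : (⨆ i, Cardinal.mk (CX l β g i)) ≤ Cardinal.aleph0 := by
    refine ciSup_le' fun i => ?_
    exact Cardinal.mk_le_aleph0_iff.2 (cx_countable i).to_subtype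
  have h3 : Cardinal.mk (Iio w1) = Cardinal.lift.{1} (Cardinal.aleph.{0} 1) := by
    rw [Cardinal.mk_Iio_ordinal]
    unfold w1
    rw [Cardinal.card_ord]
  refine h1.trans ?_
  rw [h3]
  refine (mul_le_mul' le_rfl h2).trans ?_
  refine (Cardinal.mul_le_max_of_aleph0_le_left ?_).trans (max_le le_rfl ?_)
  · rw [Cardinal.aleph0_le_lift]
    exact Cardinal.aleph0_le_aleph 1
  · rw [Cardinal.aleph0_le_lift]
    exact Cardinal.aleph0_le_aleph 1

/-- **The covering argument.** -/
theorem covering {β : Ordinal.{0}} {g : Iio w1 → Ordinal.{0}} (hg : NC g β)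
    (h2 : (Cardinal.aleph.{0} 2).ord ≤ β) (hns : ∀ s, ¬ Sing LM s β) : ZeroSharp := by
  obtain ⟨l, hβl, hl⟩ := exists_pl β
  have hG : GM l (sg l (UX l β g)) := gm_of hl ux_cs
  set σ := sg l (UX l β g) with hσ
  set b := iv σ β with hb
  have hσm : StrictMono σ := sg_mono
  have hσb : σ b = β := iv_sg ux_beta
  have hbl : σ b < l := by
    rw [hσb]
    exact hβl
  have hcof : ∀ x < β, ∃ y < b, x < σ y := by
    intro x hx
    obtain ⟨i, hi⟩ := hg.cof x hx
    obtain ⟨y, hy⟩ := mem_sg (l := l) (ux_g (l := l) (β := β) (g := g) i)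
    change σ y = g i at hy
    refine ⟨y, ?_, by rw [hy]; exact hi⟩
    rw [← hσm.lt_iff_lt, hσb, hy]
    exact hg.lt i
  have hCB : CB b := by
    refine ⟨?_, ?_, ?_⟩
    · obtain ⟨y, hy, -⟩ := hcof 0 hg.cb.pos
      exact bot_le.trans_lt hy
    · intro x hx
      have h3 : σ x < β := by
        rw [← hσb]
        exact hσm hx
      obtain ⟨y, hy, hxy⟩ := hcof _ h3
      exact (Order.add_one_le_of_lt (hσm.lt_iff_lt.1 hxy)).trans_lt hy
    · intro c hc
      obtain ⟨z, hz, hz'⟩ := hg.cb.bdd (fun n => σ (c n)) fun n => by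
        rw [← hσb]
        exact hσm (hc n)
      obtain ⟨y, hy, hzy⟩ := hcof z hz
      exact ⟨y, hy, fun n => hσm.lt_iff_lt.1 ((hz' n).trans hzy)⟩
  have hb2 : b < (Cardinal.aleph.{0} 2).ord := by
    by_contra hn
    rw [not_lt] at hn
    have h3 : Cardinal.mk (Iio (Cardinal.aleph.{0} 2).ord) ≤ Cardinal.mk (UX l β g) := by
      refine Cardinal.mk_le_of_injective (f := fun x => ⟨σ x.1, ?_⟩) ?_
      · refine sg_mem (l := l) ?_
        exact (hσm (lt_of_lt_of_le x.2 hn)).trans hbl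
      · intro x y hxy
        exact Subtype.ext (hσm.injective (congrArg Subtype.val hxy))
    have h4 := h3.trans ux_small
    rw [Cardinal.mk_Iio_ordinal, Cardinal.card_ord, Cardinal.lift_le] at h4
    exact absurd h4 (not_le.2 (Cardinal.aleph_lt_aleph.2 one_lt_two))
  have hmv : ∃ δ < b, σ δ ≠ δ := by
    by_contra hn
    push Not at hn
    refine absurd (hb2.trans_le h2) (not_lt.2 ?_)
    refine le_of_forall_lt fun x hx => ?_
    obtain ⟨y, hy, hxy⟩ := hcof x hx
    rw [hn y hy] at hxy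
    exact hxy.trans hy
  have hnb : ∀ (s : Loc) (hL : Lf s b), ¬ (lift hG hbl hL).Desc := by
    intro s hL hD
    obtain ⟨a, u, h⟩ := bad_of_desc hG hbl hL hD
    exact ux_not_bad hl hβl s a u h
  by_cases hsing : ∃ s, Sing LM s b
  · exfalso
    obtain ⟨s, hs⟩ := exists_least hsing
    have hL := lf_of hCB hs.2
    obtain ⟨s', hs'⟩ := sing_up hG hbl hCB (fun x hx => by
      rw [hσb] at hx
      obtain ⟨y, hy, hxy⟩ := hcof x hx
      exact ⟨y, hy, hxy.le⟩) hs hL (hnb s hL)
    rw [hσb] at hs'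
    exact hns s' hs'
  · have hL : Lf (mk ((Cardinal.aleph.{0} 2).ord + 1 + 1) 0 ∅) b :=
      lf_of hCB fun t _ h => hsing ⟨t, h⟩
    exact sharp_up hG hbl hCB hb2.le hmv hL (hnb _ hL)

end Pool.Agent.Lib.H91W
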