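import Pool.Agent.Lib.H91W.F1

/-!
# Indices: a location, an ordinal and a set of parameters
-/

set_option autoImplicit false

open Set Ordinal

namespace Pool.Agent.Lib.H91W

open Pool.Agent.Helper43.KK

/-- The composition of enumerations, both directions. -/
theorem en_comp2 {f : Ordinal.{0} → Ordinal.{0}} (hf : StrictMono f) {w : Loc} {γ : Ordinal.{0}}
    {q : Finset Ordinal.{0}} (hc : Clo Vl (tau f w) (range f)) (hfix : ∀ x < γ, f x = x)
    {x : Ordinal.{0}}
    (h : En w γ q x ≤ lv w ∨ En (tau f w) γ (q.image f) x ≤ f (lv w)) :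
    f (En w γ q x) = En (tau f w) γ (q.image f) x := by
  classical
  rcases h with h | h
  · exact en_comp hf hc hfix x (hf.monotone h)
  · symm
    refine eq_of_range en_mono (hf.comp en_mono) (z := f (lv w)) ?_ x h
    intro y hy
    have h1 : f '' Nn w (Iio γ ∪ q) = Nn (tau f w) (Iio γ ∪ (q.image f : Finset Ordinal.{0})) := by
      rw [nn_image hf hc, image_set hfix le_rfl]
    have h2 : range (f ∘ En w γ q) = f '' range (En w γ q) := range_comp _ _
    rw [h2, mem_en_range_iff (t := tau f w) (by rw [lv_tau]; exact hy), ← h1]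
    constructor
    · rintro ⟨z, hz, rfl⟩
      rw [hf.le_iff_le] at hy
      exact ⟨z, (mem_en_range_iff hy).2 hz, rfl⟩
    · rintro ⟨z, hz, rfl⟩
      rw [hf.le_iff_le] at hy
      exact ⟨z, (mem_en_range_iff hy).1 hz, rfl⟩

/-- An index: a location, an ordinal, parameters. -/
structure Ix where
  /-- the location -/
  t : Loc
  /-- the ordinal -/
  g : Ordinal.{0}
  /-- the parameters -/
  p : Finset Ordinal.{0}

/-- The ordinals of an index. -/
noncomputable def od (a : Ix) : Finset Ordinal.{0} := insert a.g (sp a.t ∪ a.p)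

theorem od_g (a : Ix) : a.g ∈ od a := Finset.mem_insert_self _ _

theorem od_sp {a : Ix} {x : Ordinal.{0}} (h : x ∈ sp a.t) : x ∈ od a :=
  Finset.mem_insert_of_mem (Finset.mem_union_left _ h)

theorem od_lv (a : Ix) : lv a.t ∈ od a := od_sp (lv_mem _)

theorem od_p {a : Ix} {x : Ordinal.{0}} (h : x ∈ a.p) : x ∈ od a :=
  Finset.mem_insert_of_mem (Finset.mem_union_right _ h)

/-- The image of an index. -/
noncomputable def imx (f : Ordinal.{0} → Ordinal.{0}) (a : Ix) : Ix :=
  ⟨tau f a.t, f a.g, a.p.image f⟩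

theorem imx_imx (f g : Ordinal.{0} → Ordinal.{0}) (a : Ix) :
    imx f (imx g a) = imx (fun x => f (g x)) a := by
  unfold imx
  congr 1
  · exact tau_tau f g a.t
  · show (a.p.image g).image f = _
    rw [Finset.image_image]
    rfl

theorem imx_congr {f g : Ordinal.{0} → Ordinal.{0}} {a : Ix} (h : ∀ x ∈ od a, f x = g x) :
    imx f a = imx g a := by
  unfold imx
  congr 1
  · exact tau_congr fun x hx => h x (od_sp hx)
  · exact h _ (od_g a)
  · exact Finset.image_congr fun x hx => h x (od_p hx)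

theorem imx_id {f : Ordinal.{0} → Ordinal.{0}} {a : Ix} (h : ∀ x ∈ od a, f x = x) :
    imx f a = a := by
  rw [imx_congr (g := id) h]
  unfold imx
  congr 1
  · exact tau_id fun x _ => rfl
  · exact Finset.image_id

theorem od_imx (f : Ordinal.{0} → Ordinal.{0}) (a : Ix) : od (imx f a) = (od a).image f := by
  unfold od
  rw [Finset.image_insert, Finset.image_union, ← sp_tau]
  rfl

theorem mem_od_imx {f : Ordinal.{0} → Ordinal.{0}} {a : Ix} {P : Ordinal.{0} → Prop} :
    (∀ x ∈ od (imx f a), P x) ↔ ∀ x ∈ od a, P (f x) := by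
  rw [od_imx]
  simp only [Finset.mem_image, forall_exists_index, and_imp, forall_apply_eq_imp_iff₂]

/-- The enumeration of the hull of an index. -/
noncomputable def ee (a : Ix) : Ordinal.{0} → Ordinal.{0} := En a.t a.g a.p

theorem ee_mono (a : Ix) : StrictMono (ee a) := en_mono

theorem ee_fix (a : Ix) : ∀ x < a.g, ee a x = x := en_fix

theorem ee_p {a : Ix} {x : Ordinal.{0}} (h : x ∈ a.p) : x ∈ range (ee a) := mem_en_range h

theorem ee_clo (a : Ix) : Clo Vl a.t (range (ee a)) := en_clo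

/-- The collapse of the level. -/
noncomputable def xb (a : Ix) : Ordinal.{0} := iv (ee a) (lv a.t)

/-- The order of the indices. -/
structure Le (a c : Ix) : Prop where
  t : a.t ≤ c.t
  g : a.g ≤ c.g
  p : a.p ⊆ c.p

theorem Le.refl (a : Ix) : Le a a := ⟨le_rfl, le_rfl, subset_rfl⟩

theorem Le.trans {a c d : Ix} (h : Le a c) (h' : Le c d) : Le a d :=
  ⟨h.t.trans h'.t, h.g.trans h'.g, h.p.trans h'.p⟩

theorem Le.imx {a c : Ix} (h : Le a c) {f : Ordinal.{0} → Ordinal.{0}} (hf : StrictMono f) :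
    Le (imx f a) (imx f c) :=
  ⟨(tau_mono hf).monotone h.t, hf.monotone h.g, Finset.image_subset_image h.p⟩

/-- Valid indices. -/
structure Va (a : Ix) : Prop where
  sp : sp a.t ⊆ a.p
  le : ∀ x ∈ a.p, x ≤ lv a.t

theorem Va.imx {a : Ix} (h : Va a) {f : Ordinal.{0} → Ordinal.{0}} (hf : StrictMono f) :
    Va (imx f a) := by
  refine ⟨?_, ?_⟩
  · show Pool.Agent.Lib.H91W.sp (tau f a.t) ⊆ a.p.image f
    rw [sp_tau]
    exact Finset.image_subset_image h.sp
  · intro x hx
    obtain ⟨y, hy, rfl⟩ := Finset.mem_image.1 hx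
    exact hf.monotone (h.le y hy)

theorem Va.ee_xb {a : Ix} (h : Va a) : ee a (xb a) = lv a.t :=
  apply_iv (ee_mono a) (ee_p (h.sp (lv_mem _)))

theorem Va.le_xb {a : Ix} (h : Va a) {x : Ordinal.{0}} : x ≤ xb a ↔ ee a x ≤ lv a.t := by
  rw [← h.ee_xb, (ee_mono a).le_iff_le]

/-- The index `a` below the index `c`. -/
noncomputable def lo (a c : Ix) : Ix := ⟨tau (iv (ee c)) a.t, a.g, a.p.image (iv (ee c))⟩

/-- The map between the hulls. -/
noncomputable def pm (a c : Ix) : Ordinal.{0} → Ordinal.{0} := ee (lo a c)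

section

variable {a c d : Ix}

theorem Le.sub_range (h : Le a c) {x : Ordinal.{0}} (hx : x ∈ a.p) : x ∈ range (ee c) :=
  ee_p (h.p hx)

theorem Le.tau_lo (h : Le a c) (ha : Va a) : tau (ee c) (lo a c).t = a.t :=
  tau_iv (ee_mono c) fun _ hx => h.sub_range (ha.sp hx)

theorem Le.p_lo (h : Le a c) : (lo a c).p.image (ee c) = a.p :=
  image_iv (ee_mono c) fun _ hx => h.sub_range hx

theorem Le.lv_lo (h : Le a c) (ha : Va a) : ee c (lv (lo a c).t) = lv a.t := by
  have h1 := congrArg lv (h.tau_lo ha)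
  rwa [lv_tau] at h1

theorem Le.lo_le (h : Le a c) (ha : Va a) (hc : Va c) : (lo a c).t ≤ (lo c c).t := by
  rw [← (tau_mono (ee_mono c)).le_iff_le, h.tau_lo ha, (Le.refl c).tau_lo hc]
  exact h.t

theorem Le.lvlo_le (h : Le a c) : lv (lo a c).t ≤ xb c := by
  show iv (ee c) (lv a.t) ≤ iv (ee c) (lv c.t)
  have h1 : {x | lv c.t ≤ ee c x} ⊆ {x | lv a.t ≤ ee c x} := fun x hx => (lv_mono h.t).trans hx
  exact csInf_le_csInf' ⟨lv c.t, (ee_mono c).le_apply⟩ h1

theorem Le.comp_ee (h : Le a c) (ha : Va a) {x : Ordinal.{0}}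
    (hx : pm a c x ≤ lv (lo a c).t ∨ ee a x ≤ lv a.t) : ee c (pm a c x) = ee a x := by
  have h1 := h.tau_lo ha
  have h2 := h.p_lo
  have h3 := en_comp2 (f := ee c) (ee_mono c) (w := (lo a c).t) (γ := a.g) (q := (lo a c).p)
    (x := x) (by rw [h1]; exact (ee_clo c).mono h.t) (fun y hy => ee_fix c y (hy.trans_le h.g)) (by
      rw [h1, h2, h.lv_lo ha]
      exact hx)
  rw [h1, h2] at h3
  exact h3

theorem Le.pm_xb (h : Le a c) (ha : Va a) : pm a c (xb a) = lv (lo a c).t := by
  apply (ee_mono c).injective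
  rw [h.comp_ee ha (Or.inr ha.ee_xb.le), ha.ee_xb, h.lv_lo ha]

end

/-- A map which respects the enumerations. -/
structure GM (l : Ordinal.{0}) (σ : Ordinal.{0} → Ordinal.{0}) : Prop where
  mono : StrictMono σ
  clo : Clo Vl (mk l 0 ∅) (range σ)
  comm : ∀ a : Ix, (∀ x ∈ od a, σ x < l) → ∀ ξ, σ (ee a ξ) = ee (imx σ a) (σ ξ)

section

variable {l : Ordinal.{0}} {σ : Ordinal.{0} → Ordinal.{0}} (h : GM l σ)

include h

theorem gm_iv {c : Ix} (hc : ∀ x ∈ od c, σ x < l) {y : Ordinal.{0}} (hy : y ∈ range (ee c)) :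
    σ (iv (ee c) y) = iv (ee (imx σ c)) (σ y) := by
  obtain ⟨x, rfl⟩ := hy
  rw [iv_apply (ee_mono c), h.comm c hc, iv_apply (ee_mono _)]

theorem gm_lo {a c : Ix} (hc : ∀ x ∈ od c, σ x < l) (ht : ∀ x ∈ sp a.t, x ∈ range (ee c))
    (hp : ∀ x ∈ a.p, x ∈ range (ee c)) : imx σ (lo a c) = lo (imx σ a) (imx σ c) := by
  unfold lo imx
  congr 1
  · show tau σ (tau (iv (ee c)) a.t) = tau _ (tau σ a.t)
    rw [tau_tau, tau_tau]
    exact tau_congr fun x hx => gm_iv h hc (ht x hx)
  · show (a.p.image (iv (ee c))).image σ = (a.p.image σ).image _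
    rw [Finset.image_image, Finset.image_image]
    exact Finset.image_congr fun x hx => gm_iv h hc (hp x hx)

theorem gm_xb {c : Ix} (hc : ∀ x ∈ od c, σ x < l) (hv : Va c) : σ (xb c) = xb (imx σ c) :=
  gm_iv h hc (ee_p (hv.sp (lv_mem _)))

theorem gm_lo' {a c : Ix} (hac : Le a c) (ha : Va a) (hc : ∀ x ∈ od c, σ x < l) :
    imx σ (lo a c) = lo (imx σ a) (imx σ c) :=
  gm_lo h hc (fun _ hx => hac.sub_range (ha.sp hx)) fun _ hx => hac.sub_range hx

end

/-- Two steps. -/
theorem lo_lo {a c d : Ix} (h : Le a c) (h' : Le c d) (ha : Va a) (hc : Va c) :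
    tau (pm c d) (lo a c).t = (lo a d).t ∧ (lo a c).p.image (pm c d) = (lo a d).p := by
  have key : ∀ x ∈ a.p, pm c d (iv (ee c) x) = iv (ee d) x := by
    intro x hx
    have h1 : x ∈ range (ee c) := h.sub_range hx
    apply (ee_mono d).injective
    rw [h'.comp_ee hc (Or.inr ?_), apply_iv (ee_mono c) h1,
      apply_iv (ee_mono d) ((h.trans h').sub_range hx)]
    rw [apply_iv (ee_mono c) h1]
    exact (ha.le x hx).trans (lv_mono h.t)
  constructor
  · show tau (pm c d) (tau (iv (ee c)) a.t) = tau (iv (ee d)) a.t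
    rw [tau_tau]
    exact tau_congr fun x hx => key x (ha.sp hx)
  · show (a.p.image (iv (ee c))).image (pm c d) = a.p.image (iv (ee d))
    rw [Finset.image_image]
    exact Finset.image_congr fun x hx => key x hx

end Pool.Agent.Lib.H91W
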