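import Pool.Agent.Lib.H91W.F2

/-!
# Direct limits of directed systems of ordinals
-/

set_option autoImplicit false

open Set Ordinal

namespace Pool.Agent.Lib.H91W

open Pool.Agent.Helper43.KK

/-- The rank of a well-founded strict weak order on a small type. -/
theorem exists_rank {T : Type 1} [Small.{0} T] (r : T → T → Prop) (hwf : WellFounded r)
    (hneg : ∀ x y z, r x y → r x z ∨ r z y) : ∃ ρ : T → Ordinal.{0},
      (∀ x y, r x y ↔ ρ x < ρ y) ∧ (∀ x, ∀ o < ρ x, ∃ y, ρ y = o) ∧ ∃ B, ∀ x, ρ x < B := by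
  let e : T ≃ Shrink.{0} T := equivShrink T
  let r' : Shrink.{0} T → Shrink.{0} T → Prop := fun x y => r (e.symm x) (e.symm y)
  have hwf' : WellFounded r' := InvImage.wf e.symm hwf
  have : IsWellFounded (Shrink.{0} T) r' := ⟨hwf'⟩
  have key : ∀ x y, r' x y ↔ IsWellFounded.rank r' x < IsWellFounded.rank r' y := by
    intro x y
    refine ⟨fun h => IsWellFounded.rank_lt_of_rel h, fun h => ?_⟩
    by_contra hn
    refine absurd h (not_lt.2 ?_)
    rw [IsWellFounded.rank_eq r' y]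
    refine Ordinal.iSup_le ?_
    rintro ⟨z, hz⟩
    rw [Order.succ_le_iff]
    rcases hneg _ _ (e.symm x) hz with h1 | h1
    · exact IsWellFounded.rank_lt_of_rel h1
    · exact absurd h1 hn
  refine ⟨fun x => IsWellFounded.rank r' (e x), ?_, ?_, ?_⟩
  · intro x y
    rw [← key]
    simp only [r', Equiv.symm_apply_apply]
  · intro x o ho
    obtain ⟨y, hy⟩ := IsWellFounded.mem_range_rank_of_le ho.le
    refine ⟨e.symm y, ?_⟩
    show IsWellFounded.rank r' (e (e.symm y)) = o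
    rw [Equiv.apply_symm_apply]
    exact hy
  · obtain ⟨B, hB⟩ := bddAbove_of_small (s := range (IsWellFounded.rank r'))
    exact ⟨B + 1, fun x => Order.lt_add_one_iff.2 (hB ⟨_, rfl⟩)⟩

/-- A directed system. -/
structure Sys (I : Type 1) where
  /-- the order -/
  le : I → I → Prop
  refl : ∀ a, le a a
  trans : ∀ {a c d}, le a c → le c d → le a d
  dir : ∀ a c, ∃ d, le a d ∧ le c d
  /-- the locations -/
  L : I → Loc
  /-- the maps -/
  π : I → I → Ordinal.{0} → Ordinal.{0}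
  mono : ∀ {a c}, le a c → StrictMono (π a c)
  loc : ∀ {a c}, le a c → tau (π a c) (L a) ≤ L c
  clo : ∀ {a c}, le a c → Clo Vl (tau (π a c) (L a)) (range (π a c))
  comp : ∀ {a c d}, le a c → le c d → ∀ x ≤ lv (L a), π c d (π a c x) = π a d x

section

variable {I : Type 1} (S : Sys I)

theorem Sys.lev {a c : I} (h : S.le a c) {x : Ordinal.{0}} (hx : x ≤ lv (S.L a)) :
    S.π a c x ≤ lv (S.L c) :=
  ((S.mono h).monotone hx).trans (lv_mono (S.loc h))

/-- A descending sequence in the direct limit. -/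
def Sys.Desc : Prop := ∃ (a : ℕ → I) (u : ℕ → Ordinal.{0}), (∀ n, S.le (a n) (a (n + 1))) ∧
  (∀ n, u n ≤ lv (S.L (a n))) ∧ ∀ n, u (n + 1) < S.π (a n) (a (n + 1)) (u n)

/-- The carrier of the direct limit. -/
abbrev Sys.Car : Type 1 := Σ a : I, Iic (lv (S.L a))

/-- The order of the direct limit. -/
def Sys.r (x y : S.Car) : Prop :=
  ∃ d, S.le x.1 d ∧ S.le y.1 d ∧ S.π x.1 d x.2.1 < S.π y.1 d y.2.1

theorem Sys.r_iff {x y : S.Car} {d : I} (hx : S.le x.1 d) (hy : S.le y.1 d) :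
    S.r x y ↔ S.π x.1 d x.2.1 < S.π y.1 d y.2.1 := by
  constructor
  · rintro ⟨d', h1, h2, h3⟩
    obtain ⟨e, he, he'⟩ := S.dir d d'
    rw [← (S.mono he').lt_iff_lt, S.comp h1 he' _ x.2.2, S.comp h2 he' _ y.2.2,
      ← S.comp hx he _ x.2.2, ← S.comp hy he _ y.2.2, (S.mono he).lt_iff_lt] at h3
    exact h3
  · intro h
    exact ⟨d, hx, hy, h⟩

theorem Sys.dir3 (a c d : I) : ∃ e, S.le a e ∧ S.le c e ∧ S.le d e := by
  obtain ⟨e, h1, h2⟩ := S.dir a c
  obtain ⟨f, h3, h4⟩ := S.dir e d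
  exact ⟨f, S.trans h1 h3, S.trans h2 h3, h4⟩

theorem Sys.r_wf (h : ¬ S.Desc) : WellFounded S.r := by
  rw [wellFounded_iff_isEmpty_descending_chain]
  refine ⟨fun ⟨f, hf⟩ => h ?_⟩
  choose e he1 he2 he3 using hf
  -- an increasing sequence of indices
  choose j hj1 hj2 using S.dir
  let d : ℕ → I := fun n => Nat.rec (f 0).1 (fun n d => j d (e n)) n
  have hd0 : d 0 = (f 0).1 := rfl
  have hd1 : ∀ n, d (n + 1) = j (d n) (e n) := fun n => rfl
  have hd : ∀ n, S.le (d n) (d (n + 1)) := fun n => by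
    rw [hd1]
    exact hj1 _ _
  have hed : ∀ n, S.le (e n) (d (n + 1)) := fun n => by
    rw [hd1]
    exact hj2 _ _
  have hfd : ∀ n, S.le (f n).1 (d n) := by
    intro n
    cases n with
    | zero => rw [hd0]; exact S.refl _
    | succ n => exact S.trans (he1 n) (hed n)
  refine ⟨d, fun n => S.π (f n).1 (d n) (f n).2.1, hd, fun n => S.lev (hfd n) (f n).2.2, ?_⟩
  intro n
  show S.π (f (n + 1)).1 (d (n + 1)) (f (n + 1)).2.1 <
    S.π (d n) (d (n + 1)) (S.π (f n).1 (d n) (f n).2.1)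
  rw [S.comp (hfd n) (hd n) _ (f n).2.2, ← S.comp (he2 n) (hed n) _ (f n).2.2,
    ← S.comp (he1 n) (hed n) _ (f (n + 1)).2.2]
  exact S.mono (hed n) (he3 n)

theorem Sys.r_neg (x y z : S.Car) (h : S.r x y) : S.r x z ∨ S.r z y := by
  obtain ⟨d, h1, h2, h3⟩ := S.dir3 x.1 y.1 z.1
  rw [S.r_iff h1 h2] at h
  rw [S.r_iff h1 h3, S.r_iff h3 h2]
  by_contra hn
  push Not at hn
  exact absurd h (not_lt.2 (hn.2.trans hn.1))

open Classical in
/-- **The direct limit.** -/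
theorem Sys.exists_lim [Small.{0} I] (h : ¬ S.Desc) : ∃ G : I → Ordinal.{0} → Ordinal.{0},
    (∀ a, StrictMono (G a)) ∧
    (∀ a c, S.le a c → ∀ x ≤ lv (S.L a), G c (S.π a c x) = G a x) ∧
    (∀ a, ∀ x ≤ lv (S.L a), ∀ y < G a x, ∃ c, S.le a c ∧ ∃ z < S.π a c x, G c z = y) ∧
    ∃ B, ∀ a, ∀ x ≤ lv (S.L a), G a x < B := by
  obtain ⟨ρ, h1, h2, B, hB⟩ := exists_rank S.r (S.r_wf h) S.r_neg
  have hid : ∀ a, ∀ x ≤ lv (S.L a), S.π a a x = x := by
    intro a x hx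
    exact (S.mono (S.refl a)).injective (S.comp (S.refl a) (S.refl a) x hx)
  -- invariance
  have hinv : ∀ (a c : I), S.le a c → ∀ (x : Ordinal.{0}) (hx : x ≤ lv (S.L a))
      (hy : S.π a c x ≤ lv (S.L c)), ρ ⟨c, S.π a c x, hy⟩ = ρ ⟨a, x, hx⟩ := by
    intro a c hac x hx hy
    apply le_antisymm
    · rw [← not_lt, ← h1, S.r_iff (d := c) hac (S.refl c)]
      show ¬ S.π a c x < S.π c c (S.π a c x)
      rw [hid c _ hy]
      exact lt_irrefl _
    · rw [← not_lt, ← h1, S.r_iff (d := c) (S.refl c) hac]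
      show ¬ S.π c c (S.π a c x) < S.π a c x
      rw [hid c _ hy]
      exact lt_irrefl _
  have hlt : ∀ (a : I) (x y : Ordinal.{0}) (hx : x ≤ lv (S.L a)) (hy : y ≤ lv (S.L a)),
      x < y → ρ ⟨a, x, hx⟩ < ρ ⟨a, y, hy⟩ := by
    intro a x y hx hy hxy
    rw [← h1, S.r_iff (d := a) (S.refl a) (S.refl a)]
    exact S.mono (S.refl a) hxy
  refine ⟨fun a x => if hx : x ≤ lv (S.L a) then ρ ⟨a, x, hx⟩ else
    ρ ⟨a, lv (S.L a), le_refl (lv (S.L a))⟩ + x, ?_, ?_, ?_, B, ?_⟩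
  · intro a x y hxy
    show (if hx : x ≤ lv (S.L a) then ρ ⟨a, x, hx⟩ else
      ρ ⟨a, lv (S.L a), le_refl (lv (S.L a))⟩ + x) < (if hx : y ≤ lv (S.L a) then ρ ⟨a, y, hx⟩ else
      ρ ⟨a, lv (S.L a), le_refl (lv (S.L a))⟩ + y)
    by_cases hy : y ≤ lv (S.L a)
    · rw [dif_pos hy, dif_pos (hxy.le.trans hy)]
      exact hlt a x y _ _ hxy
    · rw [dif_neg hy]
      by_cases hx : x ≤ lv (S.L a)
      · rw [dif_pos hx]
        have h3 : ρ ⟨a, x, hx⟩ ≤ ρ ⟨a, lv (S.L a), le_refl (lv (S.L a))⟩ := by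
          rcases hx.eq_or_lt with h4 | h4
          · subst h4
            exact le_rfl
          · exact (hlt a x _ hx (le_refl (lv (S.L a))) h4).le
        refine h3.trans_lt ?_
        have h4 : (0 : Ordinal.{0}) < y := bot_le.trans_lt hxy
        calc ρ ⟨a, lv (S.L a), le_refl (lv (S.L a))⟩
            = ρ ⟨a, lv (S.L a), le_refl (lv (S.L a))⟩ + 0 := (add_zero _).symm
          _ < _ := (add_lt_add_iff_left _).2 h4
      · rw [dif_neg hx]
        exact (add_lt_add_iff_left _).2 hxy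
  · intro a c hac x hx
    show (if hx : S.π a c x ≤ lv (S.L c) then ρ ⟨c, S.π a c x, hx⟩ else _) =
      (if hx : x ≤ lv (S.L a) then ρ ⟨a, x, hx⟩ else _)
    rw [dif_pos hx, dif_pos (S.lev hac hx)]
    exact hinv a c hac x hx _
  · intro a x hx y hy
    change y < (if hx : x ≤ lv (S.L a) then ρ ⟨a, x, hx⟩ else _) at hy
    rw [dif_pos hx] at hy
    obtain ⟨⟨d, z, hz⟩, rfl⟩ := h2 _ y hy
    obtain ⟨c, hdc, hac⟩ := S.dir d a
    rw [← h1, S.r_iff (d := c) hdc hac] at hy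
    refine ⟨c, hac, S.π d c z, hy, ?_⟩
    show (if hx : S.π d c z ≤ lv (S.L c) then ρ ⟨c, S.π d c z, hx⟩ else _) = _
    rw [dif_pos (S.lev hdc hz)]
    exact hinv d c hdc z hz _
  · intro a x hx
    show (if hx : x ≤ lv (S.L a) then ρ ⟨a, x, hx⟩ else _) < B
    rw [dif_pos hx]
    exact hB _

end

end Pool.Agent.Lib.H91W
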