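import Pool.Agent.Lib.H91W.F3

/-!
# Truth in direct limits
-/

set_option autoImplicit false

open Set Ordinal

namespace Pool.Agent.Lib.H91W

open Pool.Agent.Helper43.KK

/-! ## The easy cases of the transfer -/

section

variable {σ : Ordinal.{0} → Ordinal.{0}} (hσ : StrictMono σ) {x : Ordinal.{0}}
  (hT : ∀ y < x, TT σ y)

include hσ hT

theorem tt_mem (i j : ℕ) (t : Frst Ordinal.{0}) :
    Tr x (.mem i j) t ↔ Tr (σ x) (.mem i j) (t.map σ) := by
  rw [tr_mem_get, tr_mem_get, proper_map hσ]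
  refine and_congr_right fun hp => ?_
  constructor
  · rintro ⟨u, v, hu, hv, h1⟩
    obtain ⟨hu1, hu2⟩ := hp.get? hu
    obtain ⟨hv1, hv2⟩ := hp.get? hv
    refine ⟨(σ u.1, u.2.1, u.2.2.map σ), (σ v.1, v.2.1, v.2.2.map σ), ?_, ?_, ?_⟩
    · rw [Frst.map_get?, hu]
      rfl
    · rw [Frst.map_get?, hv]
      rfl
    · rw [tr_mem_iff] at h1 ⊢
      exact ⟨hσ hu1, (proper_map hσ).2 hu2, hσ hv1, (proper_map hσ).2 hv2,
        (mem_transfer hσ (hT _ hu1) (hT _ hv1) hu2 hv2).1 h1.2.2.2.2⟩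
  · rintro ⟨u', v', hu', hv', h1⟩
    rw [Frst.map_get?, Option.map_eq_some_iff] at hu' hv'
    obtain ⟨u, hu, rfl⟩ := hu'
    obtain ⟨v, hv, rfl⟩ := hv'
    obtain ⟨hu1, hu2⟩ := hp.get? hu
    obtain ⟨hv1, hv2⟩ := hp.get? hv
    refine ⟨u, v, hu, hv, ?_⟩
    rw [tr_mem_iff] at h1 ⊢
    exact ⟨hu1, hu2, hv1, hv2, (mem_transfer hσ (hT _ hu1) (hT _ hv1) hu2 hv2).2 h1.2.2.2.2⟩

theorem tt_eq (i j : ℕ) (t : Frst Ordinal.{0}) :
    Tr x (.eq i j) t ↔ Tr (σ x) (.eq i j) (t.map σ) := by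
  rw [tr_eq_get, tr_eq_get, proper_map hσ]
  refine and_congr_right fun hp => ?_
  constructor
  · rintro ⟨u, v, hu, hv, h1⟩
    obtain ⟨hu1, hu2⟩ := hp.get? hu
    obtain ⟨hv1, hv2⟩ := hp.get? hv
    refine ⟨(σ u.1, u.2.1, u.2.2.map σ), (σ v.1, v.2.1, v.2.2.map σ), ?_, ?_, ?_⟩
    · rw [Frst.map_get?, hu]
      rfl
    · rw [Frst.map_get?, hv]
      rfl
    · rw [tr_eq_iff] at h1 ⊢
      exact ⟨hσ hu1, (proper_map hσ).2 hu2, hσ hv1, (proper_map hσ).2 hv2,
        (eq_transfer hσ (hT _ hu1) (hT _ hv1) hu2 hv2).1 h1.2.2.2.2⟩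
  · rintro ⟨u', v', hu', hv', h1⟩
    rw [Frst.map_get?, Option.map_eq_some_iff] at hu' hv'
    obtain ⟨u, hu, rfl⟩ := hu'
    obtain ⟨v, hv, rfl⟩ := hv'
    obtain ⟨hu1, hu2⟩ := hp.get? hu
    obtain ⟨hv1, hv2⟩ := hp.get? hv
    refine ⟨u, v, hu, hv, ?_⟩
    rw [tr_eq_iff] at h1 ⊢
    exact ⟨hu1, hu2, hv1, hv2, (eq_transfer hσ (hT _ hu1) (hT _ hv1) hu2 hv2).2 h1.2.2.2.2⟩

omit hT in
theorem tt_neg {φ : Fml} {t : Frst Ordinal.{0}} (h : Tr x φ t ↔ Tr (σ x) φ (t.map σ)) :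
    Tr x (.neg φ) t ↔ Tr (σ x) (.neg φ) (t.map σ) := by
  have h2 : Proper (σ x) (t.map σ) ↔ Proper x t := proper_map hσ
  simp only [Tr, Fml.Sat] at h ⊢
  tauto

omit hT in
theorem tt_and {φ ψ : Fml} {t : Frst Ordinal.{0}} (h : Tr x φ t ↔ Tr (σ x) φ (t.map σ))
    (h' : Tr x ψ t ↔ Tr (σ x) ψ (t.map σ)) :
    Tr x (.and φ ψ) t ↔ Tr (σ x) (.and φ ψ) (t.map σ) := by
  have h2 : Proper (σ x) (t.map σ) ↔ Proper x t := proper_map hσ
  simp only [Tr, Fml.Sat] at h h' ⊢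
  tauto

omit hσ hT in
theorem tt_ex1 {φ : Fml} {t : Frst Ordinal.{0}}
    (h : ∀ t, Tr x φ t ↔ Tr (σ x) φ (t.map σ)) (h1 : Tr x (.ex φ) t) :
    Tr (σ x) (.ex φ) (t.map σ) := by
  obtain ⟨hp, z, hz, hs⟩ := h1
  obtain ⟨b, χ, d, hb, pd, rfl⟩ := exists_name hz
  obtain ⟨⟨h2, h3, h4⟩, h5⟩ := (h (.cons b χ d t)).1 ⟨⟨hb, pd, hp⟩, hs⟩
  exact ⟨h4, _, nmval_mem h2 h3.vals_mem, h5⟩

end

/-- An existential statement from a name. -/
theorem tr_ex_of {x b : Ordinal.{0}} {φ χ : Fml} {d t : Frst Ordinal.{0}}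
    (h : Tr x φ (.cons b χ d t)) : Tr x (.ex φ) t := by
  obtain ⟨⟨h11, h12, h13⟩, h14⟩ := h
  exact ⟨h13, _, nmval_mem h11 h12.vals_mem, h14⟩

theorem exists_tr_of {x : Ordinal.{0}} {φ : Fml} {t : Frst Ordinal.{0}} (h : Tr x (.ex φ) t) :
    ∃ b χ d, b < x ∧ Proper b d ∧ Tr x φ (.cons b χ d t) := by
  obtain ⟨hp, z, hz, hs⟩ := h
  obtain ⟨b, χ, d, hb, pd, rfl⟩ := exists_name hz
  exact ⟨b, χ, d, hb, pd, ⟨hb, pd, hp⟩, hs⟩

/-! ## Least witnesses -/

theorem lw_image {s : Loc} {σ : Ordinal.{0} → Ordinal.{0}} (hσ : StrictMono σ)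
    (hc : Clo Vl s (range σ)) {x : Ordinal.{0}} {m : ℕ} {t : Frst Ordinal.{0}}
    (h : mk (σ x) m ((lbl t).image σ) < s) {φ : Fml} (hφ : dp φ ≤ m) {k : ℕ} {f : Frst (Fin k)}
    {a : Fin k → Ordinal.{0}} (ha : IsLeastWit x x φ t f a) :
    IsLeastWit (σ x) (σ x) φ (t.map σ) f (fun i => σ (a i)) := by
  have himg : ∀ H : Finset Ordinal.{0}, ∀ g ∈ H.image σ, g ∈ range σ := by
    intro H g hg
    obtain ⟨g', -, rfl⟩ := Finset.mem_image.1 hg
    exact mem_range_self _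
  have hT := tr_transfer hσ x m (by
    rintro y m' H (h1 | ⟨rfl, h1⟩)
    · exact hc (σ y) m' _ ((mk_lt.2 (Or.inl (hσ h1))).trans h) (mem_range_self _) (himg H)
    · exact hc (σ y) m' _ ((mk_lt.2 (Or.inr ⟨rfl, Or.inl h1⟩)).trans h) (mem_range_self _) (himg H))
  have hr : Vl (σ x) m ((lbl t).image σ) ⊆ range σ := hc (σ x) m _ h (mem_range_self _) (himg _)
  refine ⟨(wit_transfer hσ (hT φ hφ) t f a).1 ha.1, ?_⟩
  intro b hb hlt
  obtain ⟨b0, hb0⟩ := exists_isLeastWit ⟨b, hb⟩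
  have h1 : ∀ i, b0 i ∈ range σ := fun i =>
    hr ⟨t.map σ, φ, k, f, b0, i, by rw [lbl_map], hφ, hb0, rfl⟩
  choose b' hb' using h1
  have h2 : b0 = fun i => σ (b' i) := funext fun i => (hb' i).symm
  subst h2
  have h3 : IsLeastWit x x φ t f b' := by
    refine ⟨(wit_transfer hσ (hT φ hφ) t f b').2 hb0.1, ?_⟩
    intro c hc hlt
    exact hb0.2 _ ((wit_transfer hσ (hT φ hφ) t f c).1 hc) ((lexLT_map hσ).2 hlt)
  rw [ha.unique h3] at hlt
  exact hb0.2 b hb hlt

/-! ## Limits -/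

variable {I : Type 1}

/-- The properties of the direct limit. -/
structure Lim (S : Sys I) (G : I → Ordinal.{0} → Ordinal.{0}) : Prop where
  mono : ∀ a, StrictMono (G a)
  comm : ∀ {a c}, S.le a c → ∀ x ≤ lv (S.L a), G c (S.π a c x) = G a x
  init : ∀ {a}, ∀ x ≤ lv (S.L a), ∀ y < G a x, ∃ c, S.le a c ∧ ∃ z < S.π a c x, G c z = y

variable {S : Sys I} {G : I → Ordinal.{0} → Ordinal.{0}}

theorem Lim.init' (h : Lim S G) {a : I} {x : Ordinal.{0}} (hx : x ≤ lv (S.L a))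
    (F : Finset Ordinal.{0}) (hF : ∀ y ∈ F, y < G a x) :
    ∃ c, S.le a c ∧ ∀ y ∈ F, ∃ z < S.π a c x, G c z = y := by
  classical
  revert hF
  induction F using Finset.induction_on with
  | empty => exact fun _ => ⟨a, S.refl a, fun y hy => absurd hy (by simp)⟩
  | insert b F _ ih =>
    intro hF
    obtain ⟨c, hc, h1⟩ := ih fun y hy => hF y (Finset.mem_insert_of_mem hy)
    obtain ⟨d, hd, w, hw, h2⟩ := h.init x hx b (hF b (Finset.mem_insert_self _ _))
    obtain ⟨e, he, he'⟩ := S.dir c d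
    refine ⟨e, S.trans hc he, fun y hy => ?_⟩
    rcases Finset.mem_insert.1 hy with rfl | hy
    · refine ⟨S.π d e w, ?_, ?_⟩
      · rw [← S.comp hd he' x hx]
        exact S.mono he' hw
      · rw [h.comm he' w (hw.le.trans (S.lev hd hx))]
        exact h2
    · obtain ⟨z, hz, h3⟩ := h1 y hy
      refine ⟨S.π c e z, ?_, ?_⟩
      · rw [← S.comp hc he x hx]
        exact S.mono he hz
      · rw [h.comm he z (hz.le.trans (S.lev hc hx))]
        exact h3

theorem lt_loc {u : Loc} {y : Ordinal.{0}} {m : ℕ} {H : Finset Ordinal.{0}}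
    (h : y < lv u ∨ (y ≤ lv u ∧ m < nb u)) : mk y m H < u := by
  rw [← mk_eta u, mk_lt]
  rcases h with h | ⟨h, h'⟩
  · exact Or.inl h
  · rcases h.lt_or_eq with h | h
    · exact Or.inl h
    · exact Or.inr ⟨h, Or.inl h'⟩

theorem loc_lt {u : Loc} {y : Ordinal.{0}} {m : ℕ} {H : Finset Ordinal.{0}}
    (h : mk y m H < u) : y ≤ lv u ∧ (y < lv u ∨ m ≤ nb u) := by
  refine ⟨lv_rule h, ?_⟩
  rw [← mk_eta u, mk_lt] at h
  rcases h with h | ⟨-, h | ⟨h, -⟩⟩
  · exact Or.inl h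
  · exact Or.inr h.le
  · exact Or.inr h.le

theorem map_map' (h : Lim S G) {a c : I} (hac : S.le a c) {x : Ordinal.{0}}
    (hx : x ≤ lv (S.L a)) {t : Frst Ordinal.{0}} (ht : Proper x t) :
    (t.map (S.π a c)).map (G c) = t.map (G a) := by
  rw [Frst.map_map]
  refine Frst.map_congr ht.over fun y hy => ?_
  exact h.comm hac y ((le_of_lt (show y < x from hy)).trans hx)

/-- The transfer along the maps of the system. -/
theorem Sys.tr (S : Sys I) {a c : I} (hac : S.le a c) {x : Ordinal.{0}} (hx : x ≤ lv (S.L a))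
    {φ : Fml} (hφ : x < lv (S.L a) ∨ dp φ ≤ nb (S.L a)) (t : Frst Ordinal.{0}) :
    Tr x φ t ↔ Tr (S.π a c x) φ (t.map (S.π a c)) := by
  refine tr_transfer (S.mono hac) x (dp φ) ?_ φ le_rfl t
  intro y m H hy
  refine S.clo hac _ _ _ ?_ (mem_range_self _) ?_
  · rw [← tau_mk, (tau_mono (S.mono hac)).lt_iff_lt]
    rcases hy with hy | ⟨rfl, hy⟩
    · exact lt_loc (Or.inl (hy.trans_le hx))
    · rcases hφ with hφ | hφ
      · exact lt_loc (Or.inl hφ)
      · exact lt_loc (Or.inr ⟨hx, hy.trans_le hφ⟩)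
  · intro g hg
    obtain ⟨g', -, rfl⟩ := Finset.mem_image.1 hg
    exact mem_range_self _

/-- The depth condition is inherited. -/
theorem Sys.cnd (S : Sys I) {a c : I} (hac : S.le a c) {x : Ordinal.{0}} (hx : x ≤ lv (S.L a))
    {n : ℕ} (hn : x < lv (S.L a) ∨ n ≤ nb (S.L a)) :
    S.π a c x < lv (S.L c) ∨ n ≤ nb (S.L c) := by
  have h1 := lv_mono (S.loc hac)
  rw [lv_tau] at h1
  rcases hx.lt_or_eq with h | h
  · exact Or.inl ((S.mono hac h).trans_le h1)
  · rcases hn with hn | hn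
    · exact Or.inl ((S.mono hac hn).trans_le h1)
    · rcases h1.lt_or_eq with h2 | h2
      · left
        rw [h]
        exact h2
      · right
        have h3 := nb_mono (S.loc hac) (by rw [lv_tau]; exact h2)
        rw [nb_tau] at h3
        exact hn.trans h3

/-- **Truth in the direct limit.** -/
theorem Lim.tr (h : Lim S G) : ∀ (r : Ordinal.{0}) (φ : Fml) (a : I), ∀ x ≤ lv (S.L a),
    G a x = r → (x < lv (S.L a) ∨ dp φ ≤ nb (S.L a)) → ∀ t : Frst Ordinal.{0},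
      Tr x φ t ↔ Tr (G a x) φ (t.map (G a)) := by
  intro r
  induction r using WellFoundedLT.induction with
  | ind r ih =>
    -- the transfer at the lower levels
    have hT : ∀ (a : I) (x : Ordinal.{0}), x ≤ lv (S.L a) → G a x = r → ∀ y < x, TT (G a) y := by
      intro a x hx hr y hy φ t
      refine ih (G a y) ?_ φ a y (hy.le.trans hx) rfl (Or.inl (hy.trans_le hx)) t
      rw [← hr]
      exact h.mono a hy
    intro φ
    induction φ with
    | mem i j => exact fun a x hx hr _ t => tt_mem (h.mono a) (hT a x hx hr) i j t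
    | eq i j => exact fun a x hx hr _ t => tt_eq (h.mono a) (hT a x hx hr) i j t
    | neg φ ihφ => exact fun a x hx hr hd t => tt_neg (h.mono a) (ihφ a x hx hr hd t)
    | and φ ψ ihφ ihψ =>
      intro a x hx hr hd t
      refine tt_and (h.mono a) (ihφ a x hx hr ?_ t) (ihψ a x hx hr ?_ t)
      · exact hd.imp_right fun hd => (le_max_left _ _).trans hd
      · exact hd.imp_right fun hd => (le_max_right _ _).trans hd
    | ex φ ihφ =>
      intro a x hx hr hd t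
      have hd' : x < lv (S.L a) ∨ dp φ ≤ nb (S.L a) := hd.imp_right fun hd => (Nat.le_succ _).trans hd
      constructor
      · exact tt_ex1 (ihφ a x hx hr hd')
      · intro h1
        have hp : Proper x t := (proper_map (h.mono a)).1 h1.1
        obtain ⟨b, χ, d, hb, pd, h2⟩ := exists_tr_of h1
        -- the labels
        have hlab : ∀ y ∈ lbl (Frst.cons b χ d .nil), y < G a x := by
          refine over_iff.1 ?_
          exact ⟨hb, pd.over.mono (Iio_subset_Iio hb.le), trivial⟩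
        obtain ⟨c, hac, h3⟩ := h.init' hx _ hlab
        obtain ⟨w, hw⟩ := Frst.exists_map_eq (f := G c) (t := Frst.cons b χ d .nil)
          (over_iff.2 fun y hy => by
            obtain ⟨z, -, hz⟩ := h3 y hy
            exact ⟨z, hz⟩)
        rw [S.tr hac hx hd]
        cases w with
        | nil => simp at hw
        | cons b' χ' d' w' =>
          cases w' with
          | cons => simp at hw
          | nil =>
            simp only [Frst.map_cons, Frst.map_nil, Frst.cons.injEq] at hw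
            obtain ⟨rfl, rfl, rfl, -⟩ := hw
            rw [← map_map' h hac hx hp, ← Frst.map_cons, ← h.comm hac x hx] at h2
            refine tr_ex_of ((ihφ c (S.π a c x) (S.lev hac hx) ?_ ?_ _).2 h2)
            · rw [h.comm hac x hx]
              exact hr
            · exact S.cnd hac hx hd'

/-- **Rules in the direct limit.** -/
theorem lim_rule (h : Lim S G) {a : I} {x : Ordinal.{0}} {m : ℕ} {H : Finset Ordinal.{0}}
    (hm : mk x m H < S.L a) {y : Ordinal.{0}} (hy : y ∈ Vl x m H) :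
    G a y ∈ Vl (G a x) m (H.image (G a)) := by
  obtain ⟨t, φ, k, s, b, i, rfl, hφ, hlw, rfl⟩ := hy
  obtain ⟨hx, hc⟩ := loc_lt hm
  have hc' : x < lv (S.L a) ∨ dp φ ≤ nb (S.L a) := hc.imp_right fun h => hφ.trans h
  have hT := h.tr _ φ a x hx rfl hc'
  refine ⟨t.map (G a), φ, k, s, fun i => G a (b i), i, lbl_map _ _, hφ, ?_, rfl⟩
  refine ⟨(wit_transfer (h.mono a) hT t s b).1 hlw.1, ?_⟩
  intro b' hb' hlt
  have hp : Proper x t := (proper_app.1 hlw.1.2.2.1).2
  obtain ⟨c, hac, h3⟩ := h.init' hx (Finset.univ.image b') (by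
    intro y hy
    obtain ⟨j, -, rfl⟩ := Finset.mem_image.1 hy
    exact hb'.1 j)
  have h4 : ∀ j, ∃ z, G c z = b' j := fun j => by
    obtain ⟨z, -, hz⟩ := h3 (b' j) (Finset.mem_image_of_mem _ (Finset.mem_univ j))
    exact ⟨z, hz⟩
  choose z hz using h4
  have h5 : b' = fun j => G c (z j) := funext fun j => (hz j).symm
  subst h5
  have hT' := h.tr _ φ c (S.π a c x) (S.lev hac hx) rfl (S.cnd hac hx hc')
  rw [← map_map' h hac hx hp, ← h.comm hac x hx] at hb'
  have h6 := (wit_transfer (h.mono c) hT' (t.map (S.π a c)) s z).2 hb'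
  have h7 := lw_image (S.mono hac) (S.clo hac) (t := t) (m := m) (by
    rw [← tau_mk]
    exact tau_mono (S.mono hac) hm) hφ hlw
  refine h7.2 z h6 ?_
  rw [← lexLT_map (h.mono c)]
  have h8 : (fun i => G c (S.π a c (b i))) = fun i => G a (b i) :=
    funext fun j => h.comm hac _ ((hlw.1.1 j).le.trans hx)
  rw [h8]
  exact hlt

/-- Fixed points. -/
theorem Lim.fix (h : Lim S G) {a : I} {z : Ordinal.{0}} (hz : ∀ x < z, x ≤ lv (S.L a))
    (hfix : ∀ c, S.le a c → ∀ x < z, S.π a c x = x) : ∀ x < z, G a x = x := by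
  intro x
  induction x using WellFoundedLT.induction with
  | ind x ih =>
    intro hx
    refine le_antisymm ?_ (h.mono a).le_apply
    by_contra hn
    rw [not_le] at hn
    obtain ⟨c, hac, w, hw, h1⟩ := h.init x (hz x hx) x hn
    rw [hfix c hac x hx] at hw
    have h2 := h.comm hac w (hz w (hw.trans hx))
    rw [hfix c hac w (hw.trans hx), h1, ih w hw (hw.trans hx)] at h2
    exact hw.ne h2.symm

end Pool.Agent.Lib.H91W
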