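import Pool.Agent.Lib.H91W.F4

/-!
# The lifted system
-/

set_option autoImplicit false

open Set Ordinal

namespace Pool.Agent.Lib.H91W

open Pool.Agent.Helper43.KK

/-- The indices below `s` with ordinals below `b`. -/
structure JJ (s : Loc) (b : Ordinal.{0}) (a : Ix) : Prop where
  lt : a.t < s
  va : Va a
  g : a.g < b
  b : b ≤ lv a.t

/-- The collapsed levels are below `b`. -/
def Lf (s : Loc) (b : Ordinal.{0}) : Prop := ∀ a, JJ s b a → xb a < b

theorem lo_mono {a c d : Ix} (h : Le a c) (h' : Le c d) (ha : Va a) (hc : Va c) :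
    (lo a d).t ≤ (lo c d).t := by
  rw [← (tau_mono (ee_mono d)).le_iff_le, (h.trans h').tau_lo ha, h'.tau_lo hc]
  exact h.t

/-- The ordinals of `lo a c` are small. -/
theorem od_lo {a c : Ix} (h : Le a c) (ha : Va a) {b : Ordinal.{0}} (hg : a.g < b)
    (hb : xb c < b) : ∀ x ∈ od (lo a c), x < b := by
  have h1 : ∀ x ∈ a.p, iv (ee c) x < b := by
    intro x hx
    refine lt_of_le_of_lt ?_ hb
    rw [iv_le_iff (ee_mono c) (h.sub_range hx)]
    refine ((ha.le x hx).trans (lv_mono h.t)).trans ?_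
    have h2 : xb c ∈ {x | lv c.t ≤ ee c x} := csInf_mem ⟨lv c.t, (ee_mono c).le_apply⟩
    exact h2
  intro x hx
  unfold od at hx
  rw [Finset.mem_insert, Finset.mem_union] at hx
  rcases hx with rfl | hx | hx
  · exact hg
  · have h2 : sp (lo a c).t = (sp a.t).image (iv (ee c)) := sp_tau _ _
    rw [h2] at hx
    obtain ⟨y, hy, rfl⟩ := Finset.mem_image.1 hx
    exact h1 y (ha.sp hy)
  · obtain ⟨y, hy, rfl⟩ := Finset.mem_image.1 hx
    exact h1 y hy

/-- The lifted maps. -/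
noncomputable def ps (σ : Ordinal.{0} → Ordinal.{0}) (a c : Ix) : Ordinal.{0} → Ordinal.{0} :=
  ee (imx σ (lo a c))

section

variable {l b : Ordinal.{0}} {σ : Ordinal.{0} → Ordinal.{0}} {s : Loc}

theorem ps_comm (hG : GM l σ) (hb : σ b < l) {a c : Ix} (h : Le a c) (ha : Va a)
    (hg : a.g < b) (hc : xb c < b) (x : Ordinal.{0}) : ps σ a c (σ x) = σ (pm a c x) :=
  (hG.comm (lo a c) (fun y hy => (hG.mono (od_lo h ha hg hc y hy)).trans hb) x).symm

theorem ps_tau (hG : GM l σ) (hb : σ b < l) {a c d : Ix} (h : Le a c) (h' : Le c d)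
    (ha : Va a) (hc : Va c) (hg : c.g < b) (hd : xb d < b) :
    tau (ps σ c d) (tau σ (lo a c).t) = tau σ (lo a d).t ∧
      ((lo a c).p.image σ).image (ps σ c d) = (lo a d).p.image σ := by
  obtain ⟨h1, h2⟩ := lo_lo h h' ha hc
  have h3 := ps_comm hG hb h' hc hg hd
  constructor
  · rw [← h1, tau_tau, tau_tau]
    exact tau_congr fun x _ => h3 x
  · rw [← h2, Finset.image_image, Finset.image_image]
    exact Finset.image_congr fun x _ => h3 x

theorem JJ.ub {a c : Ix} (h : JJ s b a) (h' : JJ s b c) :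
    ∃ d, JJ s b d ∧ Le a d ∧ Le c d := by
  classical
  refine ⟨⟨max a.t c.t, max a.g c.g, a.p ∪ c.p⟩, ⟨max_lt h.lt h'.lt, ⟨?_, ?_⟩, max_lt h.g h'.g, ?_⟩,
    ⟨le_max_left _ _, le_max_left _ _, Finset.subset_union_left⟩,
    ⟨le_max_right _ _, le_max_right _ _, Finset.subset_union_right⟩⟩
  · show sp (max a.t c.t) ⊆ a.p ∪ c.p
    rcases le_total a.t c.t with h1 | h1
    · rw [max_eq_right h1]
      exact h'.va.sp.trans Finset.subset_union_right
    · rw [max_eq_left h1]
      exact h.va.sp.trans Finset.subset_union_left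
  · intro x hx
    show x ≤ lv (max a.t c.t)
    rcases Finset.mem_union.1 hx with hx | hx
    · exact (h.va.le x hx).trans (lv_mono (le_max_left _ _))
    · exact (h'.va.le x hx).trans (lv_mono (le_max_right _ _))
  · exact h.b.trans (lv_mono (le_max_left _ _))

/-- The lifted system. -/
noncomputable def lift (hG : GM l σ) (hb : σ b < l) (hL : Lf s b) : Sys {a : Ix // JJ s b a} where
  le a c := Le a.1 c.1
  refl a := Le.refl a.1
  trans h h' := h.trans h'
  dir a c := by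
    obtain ⟨d, hd, h1, h2⟩ := a.2.ub c.2
    exact ⟨⟨d, hd⟩, h1, h2⟩
  L a := tau σ (lo a.1 a.1).t
  π a c := ps σ a.1 c.1
  mono _ := ee_mono _
  loc {a c} h := by
    rw [(ps_tau hG hb (Le.refl a.1) h a.2.va a.2.va a.2.g (hL c.1 c.2)).1]
    exact (tau_mono hG.mono).monotone (h.lo_le a.2.va c.2.va)
  clo {a c} h := by
    rw [(ps_tau hG hb (Le.refl a.1) h a.2.va a.2.va a.2.g (hL c.1 c.2)).1]
    exact ee_clo (imx σ (lo a.1 c.1))
  comp {a c d} h h' x hx := by
    obtain ⟨h1, h2⟩ := ps_tau hG hb h h' a.2.va c.2.va c.2.g (hL d.1 d.2)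
    have h3 := en_comp2 (f := ps σ c.1 d.1) (ee_mono _) (w := tau σ (lo a.1 c.1).t)
      (γ := σ a.1.g) (q := (lo a.1 c.1).p.image σ) (x := x) (by
        rw [h1]
        exact (ee_clo (imx σ (lo c.1 d.1))).mono ((tau_mono hG.mono).monotone
          (lo_mono h h' a.2.va c.2.va))) (fun y hy => by
        refine ee_fix (imx σ (lo c.1 d.1)) y (hy.trans_le ?_)
        exact hG.mono.monotone h.g) (by
        left
        rw [lv_tau, ← h.pm_xb a.2.va, ← ps_comm hG hb h a.2.va a.2.g (hL c.1 c.2)]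
        exact (ee_mono (imx σ (lo a.1 c.1))).monotone hx)
    rw [h1, h2] at h3
    exact h3

theorem lift_le (hG : GM l σ) (hb : σ b < l) (hL : Lf s b) (a c : {a : Ix // JJ s b a}) :
    (lift hG hb hL).le a c ↔ Le a.1 c.1 := Iff.rfl

theorem lift_L (hG : GM l σ) (hb : σ b < l) (hL : Lf s b) (a : {a : Ix // JJ s b a}) :
    (lift hG hb hL).L a = tau σ (lo a.1 a.1).t := rfl

theorem lift_lv (hG : GM l σ) (hb : σ b < l) (hL : Lf s b) (a : {a : Ix // JJ s b a}) :
    lv ((lift hG hb hL).L a) = σ (xb a.1) := rfl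

theorem lift_pi (hG : GM l σ) (hb : σ b < l) (hL : Lf s b) (a c : {a : Ix // JJ s b a}) :
    (lift hG hb hL).π a c = ps σ a.1 c.1 := rfl

end

/-- The indices form a set. -/
instance small_jj (s : Loc) (b : Ordinal.{0}) : Small.{0} {a : Ix // JJ s b a} := by
  let M : Ordinal.{0} := max (lv s) b
  let f : {a : Ix // JJ s b a} → Iic M × ℕ × Set (Iic M) × Iic M × Set (Iic M) := fun a =>
    (⟨lv a.1.t, (lv_mono a.2.lt.le).trans (le_max_left _ _)⟩, nb a.1.t, {x | x.1 ∈ pr a.1.t},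
      ⟨a.1.g, a.2.g.le.trans (le_max_right _ _)⟩, {x | x.1 ∈ a.1.p})
  have hp : ∀ a : {a : Ix // JJ s b a}, ∀ x ∈ a.1.p, x ≤ M := fun a x hx =>
    (a.2.va.le x hx).trans ((lv_mono a.2.lt.le).trans (le_max_left _ _))
  have hpr : ∀ a : {a : Ix // JJ s b a}, ∀ x ∈ pr a.1.t, x ≤ M := fun a x hx =>
    hp a x (a.2.va.sp (Finset.mem_insert_of_mem hx))
  have hf : Function.Injective f := by
    rintro ⟨⟨t, g, p⟩, ha⟩ ⟨⟨t', g', p'⟩, ha'⟩ h
    have h1 : lv t = lv t' := congrArg (fun x => x.1.1) h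
    have h2 : nb t = nb t' := congrArg (fun x => x.2.1) h
    have h3 : ({x : Iic M | x.1 ∈ pr t} : Set (Iic M)) = {x | x.1 ∈ pr t'} :=
      congrArg (fun x => x.2.2.1) h
    have h4 : g = g' := congrArg (fun x => x.2.2.2.1.1) h
    have h5 : ({x : Iic M | x.1 ∈ p} : Set (Iic M)) = {x | x.1 ∈ p'} :=
      congrArg (fun x => x.2.2.2.2) h
    have h6 : pr t = pr t' := by
      ext x
      constructor
      · intro hx
        have : (⟨x, hpr ⟨⟨t, g, p⟩, ha⟩ x hx⟩ : Iic M) ∈ ({x : Iic M | x.1 ∈ pr t} : Set (Iic M)) := hx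
        rw [h3] at this
        exact this
      · intro hx
        have : (⟨x, hpr ⟨⟨t', g', p'⟩, ha'⟩ x hx⟩ : Iic M) ∈ ({x : Iic M | x.1 ∈ pr t'} : Set (Iic M)) := hx
        rw [← h3] at this
        exact this
    have h7 : p = p' := by
      ext x
      constructor
      · intro hx
        have : (⟨x, hp ⟨⟨t, g, p⟩, ha⟩ x hx⟩ : Iic M) ∈ ({x : Iic M | x.1 ∈ p} : Set (Iic M)) := hx
        rw [h5] at this
        exact this
      · intro hx
        have : (⟨x, hp ⟨⟨t', g', p'⟩, ha'⟩ x hx⟩ : Iic M) ∈ ({x : Iic M | x.1 ∈ p'} : Set (Iic M)) := hx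
        rw [← h5] at this
        exact this
    have h8 : t = t' := by
      rw [← mk_eta t, ← mk_eta t', h1, h2, h6]
    subst h8 h4 h7
    rfl
  exact small_of_injective hf

end Pool.Agent.Lib.H91W
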