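import Pool.Agent.Lib.H91W.F5

/-!
# The lift of a map
-/

set_option autoImplicit false

open Set Ordinal

namespace Pool.Agent.Lib.H91W

open Pool.Agent.Helper43.KK

theorem iv_lt {f : Ordinal.{0} → Ordinal.{0}} (hf : StrictMono f) {x y : Ordinal.{0}}
    (hx : x ∈ range f) (hy : y ∈ range f) (h : x < y) : iv f x < iv f y := by
  rw [← hf.lt_iff_lt, apply_iv hf hx, apply_iv hf hy]
  exact h

theorem iv_le_xb {a : Ix} (h : Va a) {y : Ordinal.{0}} (hy : y ∈ range (ee a))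
    (hy' : y ≤ lv a.t) : iv (ee a) y ≤ xb a := by
  rw [h.le_xb, apply_iv (ee_mono a) hy]
  exact hy'

theorem iv_ee_of_lt {a : Ix} {y : Ordinal.{0}} (hy : y < a.g) : iv (ee a) y = y := by
  have h := iv_apply (ee_mono a) y
  rwa [ee_fix a y hy] at h

/-- The locations with parameters below their levels are cofinal in `s`. -/
def Nm (s : Loc) : Prop := ∀ t < s, ∃ t' < s, t ≤ t' ∧ ∀ x ∈ pr t', x ≤ lv t'

section

variable {l b : Ordinal.{0}} {σ : Ordinal.{0} → Ordinal.{0}} {s : Loc}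

/-- Adding parameters. -/
theorem JJ.add {a : Ix} (h : JJ s b a) (F : Finset Ordinal.{0}) (hF : ∀ x ∈ F, x ≤ lv a.t)
    {γ : Ordinal.{0}} (hγ : γ < b) :
    JJ s b ⟨a.t, max a.g γ, a.p ∪ F⟩ ∧ Le a ⟨a.t, max a.g γ, a.p ∪ F⟩ := by
  refine ⟨⟨h.lt, ⟨h.va.sp.trans Finset.subset_union_left, ?_⟩, max_lt h.g hγ, h.b⟩,
    ⟨le_rfl, le_max_left _ _, Finset.subset_union_left⟩⟩
  intro x hx
  rcases Finset.mem_union.1 hx with hx | hx
  · exact h.va.le x hx
  · exact hF x hx

/-- An index containing given data. -/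
theorem exists_jj (hn : Nm s) {t0 : Loc} (ht0 : t0 < s) (hb0 : b ≤ lv t0) {t : Loc} (ht : t < s)
    (F : Finset Ordinal.{0}) (hF : ∀ x ∈ F, x ≤ lv t) {γ : Ordinal.{0}} (hγ : γ < b) :
    ∃ a, JJ s b a ∧ t ≤ a.t ∧ γ ≤ a.g ∧ F ⊆ a.p := by
  classical
  obtain ⟨t', ht', h1, h2⟩ := hn (max t t0) (max_lt ht ht0)
  have h3 : t ≤ t' := (le_max_left _ _).trans h1
  refine ⟨⟨t', γ, sp t' ∪ F⟩, ⟨ht', ⟨Finset.subset_union_left, ?_⟩, hγ, ?_⟩, h3, le_rfl,
    Finset.subset_union_right⟩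
  · intro x hx
    rcases Finset.mem_union.1 hx with hx | hx
    · rcases Finset.mem_insert.1 hx with rfl | hx
      · exact le_rfl
      · exact h2 x hx
    · exact (hF x hx).trans (lv_mono h3)
  · exact hb0.trans (lv_mono ((le_max_right _ _).trans h1))

open Classical in
/-- **The lift of a map.** -/
theorem exists_star (hG : GM l σ) (hb : σ b < l) (hL : Lf s b) (hn : Nm s) {t0 : Loc}
    (ht0 : t0 < s) (hb0 : b ≤ lv t0) (h0 : 0 < b) (hlim : ∀ x < b, x + 1 < b)
    (hwf : ¬ (lift hG hb hL).Desc) :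
    ∃ τ : Ordinal.{0} → Ordinal.{0}, StrictMono τ ∧ (∀ y < b, τ y = σ y) ∧
      (∀ t < s, ∀ Y, ∀ y ∈ Nn t Y, τ y ∈ Nn (tau τ t) (τ '' Y)) ∧
      (∀ x, (∃ t < s, x < lv t) → TT τ x) ∧
      ∃ B, ∀ y, (∃ t < s, y ≤ lv t) → τ y < B := by
  obtain ⟨G, g1, g2, g3, B, g4⟩ := (lift hG hb hL).exists_lim hwf
  have hLim : Lim (lift hG hb hL) G :=
    ⟨g1, fun h x hx => g2 _ _ h x hx, fun x hx y hy => g3 _ x hx y hy⟩
  let val : {a : Ix // JJ s b a} → Ordinal.{0} → Ordinal.{0} := fun a y => G a (σ (iv (ee a.1) y))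
  have hvdef : ∀ a y, val a y = G a (σ (iv (ee a.1) y)) := fun _ _ => rfl
  have hsx : ∀ (a : {a : Ix // JJ s b a}) y, y ∈ range (ee a.1) → y ≤ lv a.1.t →
      σ (iv (ee a.1) y) ≤ lv ((lift hG hb hL).L a) := by
    intro a y hy hy'
    rw [lift_lv]
    exact hG.mono.monotone (iv_le_xb a.2.va hy hy')
  have hval : ∀ a c : {a : Ix // JJ s b a}, Le a.1 c.1 → ∀ y ∈ range (ee a.1), y ≤ lv a.1.t →
      val c y = val a y := by
    intro a c hac y hy hy'
    have h1 : ee c.1 (pm a.1 c.1 (iv (ee a.1) y)) = y := by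
      rw [hac.comp_ee a.2.va (Or.inr (by rw [apply_iv (ee_mono _) hy]; exact hy')),
        apply_iv (ee_mono _) hy]
    have h2 : iv (ee c.1) y = pm a.1 c.1 (iv (ee a.1) y) := by
      have h3 := iv_apply (ee_mono c.1) (pm a.1 c.1 (iv (ee a.1) y))
      rwa [h1] at h3
    rw [hvdef, hvdef, h2, ← ps_comm hG hb hac a.2.va a.2.g (hL c.1 c.2)]
    exact hLim.comm hac _ (hsx a y hy hy')
  have hval2 : ∀ a c : {a : Ix // JJ s b a}, ∀ y ∈ a.1.p, y ∈ c.1.p → val a y = val c y := by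
    intro a c y hy hy'
    obtain ⟨d, hd, h1, h2⟩ := a.2.ub c.2
    rw [← hval a ⟨d, hd⟩ h1 y (ee_p hy) (a.2.va.le y hy),
      ← hval c ⟨d, hd⟩ h2 y (ee_p hy') (c.2.va.le y hy')]
  let τ : Ordinal.{0} → Ordinal.{0} := fun y =>
    if h : ∃ a : {a : Ix // JJ s b a}, y ∈ a.1.p then val h.choose y else B + y
  have hτ : ∀ (a : {a : Ix // JJ s b a}), ∀ y ∈ a.1.p, τ y = val a y := by
    intro a y hy
    have h : ∃ a : {a : Ix // JJ s b a}, y ∈ a.1.p := ⟨a, hy⟩
    show (if h : ∃ a : {a : Ix // JJ s b a}, y ∈ a.1.p then val h.choose y else B + y) = _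
    rw [dif_pos h]
    exact hval2 _ _ y h.choose_spec hy
  have hτn : ∀ y, (¬ ∃ a : {a : Ix // JJ s b a}, y ∈ a.1.p) → τ y = B + y := by
    intro y h
    show (if h : ∃ a : {a : Ix // JJ s b a}, y ∈ a.1.p then val h.choose y else B + y) = _
    rw [dif_neg h]
  have hτ' : ∀ (a : {a : Ix // JJ s b a}), ∀ y ∈ range (ee a.1), y ≤ lv a.1.t →
      τ y = val a y := by
    intro a y hy hy'
    obtain ⟨h1, h2⟩ := a.2.add {y} (fun x hx => by rw [Finset.mem_singleton.1 hx]; exact hy') h0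
    rw [hτ ⟨_, h1⟩ y (Finset.mem_union_right _ (Finset.mem_singleton_self y))]
    exact hval a ⟨_, h1⟩ h2 y hy hy'
  have hD : ∀ y, (∃ t < s, y ≤ lv t) → ∃ a : {a : Ix // JJ s b a}, y ∈ a.1.p := by
    rintro y ⟨t, ht, hy⟩
    obtain ⟨a, ha, -, -, h1⟩ := exists_jj hn ht0 hb0 ht {y}
      (fun x hx => by rw [Finset.mem_singleton.1 hx]; exact hy) h0
    exact ⟨⟨a, ha⟩, h1 (Finset.mem_singleton_self y)⟩
  have hD' : ∀ a : {a : Ix // JJ s b a}, ∀ y ∈ a.1.p, ∀ x ≤ y,
      ∃ a : {a : Ix // JJ s b a}, x ∈ a.1.p := fun a y hy x hx =>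
    hD x ⟨a.1.t, a.2.lt, hx.trans (a.2.va.le y hy)⟩
  have hB : ∀ a : {a : Ix // JJ s b a}, ∀ y ∈ a.1.p, τ y < B := by
    intro a y hy
    rw [hτ a y hy]
    exact g4 a _ (hsx a y (ee_p hy) (a.2.va.le y hy))
  have hmono : StrictMono τ := by
    intro x y hxy
    by_cases hy : ∃ a : {a : Ix // JJ s b a}, y ∈ a.1.p
    · obtain ⟨a, ha⟩ := hy
      obtain ⟨c, hc⟩ := hD' a y ha x hxy.le
      obtain ⟨d, hd, h1, h2⟩ := a.2.ub c.2
      rw [hτ ⟨d, hd⟩ x (h2.p hc), hτ ⟨d, hd⟩ y (h1.p ha)]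
      exact g1 _ (hG.mono (iv_lt (ee_mono d) (ee_p (h2.p hc)) (ee_p (h1.p ha)) hxy))
    · rw [hτn y hy]
      by_cases hx : ∃ a : {a : Ix // JJ s b a}, x ∈ a.1.p
      · obtain ⟨a, ha⟩ := hx
        exact (hB a x ha).trans_le (le_add_right le_rfl)
      · rw [hτn x hx]
        exact (add_lt_add_iff_left _).2 hxy
  refine ⟨τ, hmono, ?_, ?_, ?_, B, ?_⟩
  · -- below `b`
    intro y hy
    obtain ⟨a, ha, -, h1, h2⟩ := exists_jj hn ht0 hb0 ht0 {y}
      (fun x hx => by rw [Finset.mem_singleton.1 hx]; exact hy.le.trans hb0) (hlim y hy)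
    have h3 : y < a.g := (Order.lt_add_one_iff.2 le_rfl).trans_le h1
    rw [hτ ⟨a, ha⟩ y (h2 (Finset.mem_singleton_self y))]
    show G ⟨a, ha⟩ (σ (iv (ee a) y)) = σ y
    rw [iv_ee_of_lt h3]
    have hxb : a.g ≤ xb a := by
      refine le_of_forall_lt fun z hz => ?_
      rw [← (ee_mono a).lt_iff_lt, ha.va.ee_xb, ee_fix a z hz]
      exact (hz.trans ha.g).trans_le ha.b
    refine hLim.fix (a := ⟨a, ha⟩) (z := σ a.g) ?_ ?_ (σ y) (hG.mono h3)
    · intro x hx
      rw [lift_lv]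
      exact hx.le.trans (hG.mono.monotone hxb)
    · intro c _ x hx
      exact ee_fix (imx σ (lo a c.1)) x hx
  · -- hulls
    intro t ht Y y hy
    change Cl Vl t Y y at hy
    induction hy with
    | base y hy => exact nn_sub ⟨y, hy, rfl⟩
    | rule x m H y h1 _ _ h4 ih1 ih2 =>
      have hH : ∀ g ∈ H, g < x := vl_lt ⟨y, h4⟩
      have hyx : y < x := vl_lt_level h4
      have hxt : x ≤ lv t := lv_rule h1
      obtain ⟨a, ha, hta, -, hF⟩ := exists_jj hn ht0 hb0 ht (insert y (insert x H)) (by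
        intro z hz
        rcases Finset.mem_insert.1 hz with rfl | hz
        · exact hyx.le.trans hxt
        · rcases Finset.mem_insert.1 hz with rfl | hz
          · exact hxt
          · exact (hH z hz).le.trans hxt) h0
      have hyp : y ∈ a.p := hF (Finset.mem_insert_self _ _)
      have hxp : x ∈ a.p := hF (Finset.mem_insert_of_mem (Finset.mem_insert_self _ _))
      have hHp : ∀ g ∈ H, g ∈ a.p := fun g hg =>
        hF (Finset.mem_insert_of_mem (Finset.mem_insert_of_mem hg))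
      have hx' : ee a (iv (ee a) x) = x := apply_iv (ee_mono a) (ee_p hxp)
      have hH' : (H.image (iv (ee a))).image (ee a) = H :=
        image_iv (ee_mono a) fun g hg => ee_p (hHp g hg)
      have h5 := vl_cond a.t (ee a) (ee_mono a) (ee_clo a) (iv (ee a) x) m (H.image (iv (ee a)))
        (by rw [hx', hH']; exact h1.trans_le hta)
      rw [hx', hH'] at h5
      rw [h5] at h4
      obtain ⟨y', hy', rfl⟩ := h4
      have hxb : iv (ee a) x ≤ xb a := iv_le_xb ha.va (ee_p hxp) (ha.va.le x hxp)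
      have h6 := vl_cond (mk l 0 ∅) σ hG.mono hG.clo (iv (ee a) x) m (H.image (iv (ee a)))
        (mk_lt.2 (Or.inl ((hG.mono (hxb.trans_lt (hL a ha))).trans hb)))
      have h7 : σ y' ∈ Vl (σ (iv (ee a) x)) m ((H.image (iv (ee a))).image σ) := by
        rw [h6]
        exact ⟨y', hy', rfl⟩
      have h8 := lim_rule hLim (a := ⟨a, ha⟩) (by
        rw [lift_L, ← tau_mk, (tau_mono hG.mono).lt_iff_lt,
          ← (tau_mono (ee_mono a)).lt_iff_lt, (Le.refl a).tau_lo ha.va, tau_mk, hx', hH']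
        exact h1.trans_le hta) h7
      have h9 : G ⟨a, ha⟩ (σ y') = τ (ee a y') := by
        rw [hτ ⟨a, ha⟩ _ hyp]
        show _ = G ⟨a, ha⟩ (σ (iv (ee a) (ee a y')))
        rw [iv_apply (ee_mono a)]
      have h10 : G ⟨a, ha⟩ (σ (iv (ee a) x)) = τ x := (hτ ⟨a, ha⟩ x hxp).symm
      have h11 : ((H.image (iv (ee a))).image σ).image (G ⟨a, ha⟩) = H.image τ := by
        rw [Finset.image_image, Finset.image_image]
        exact Finset.image_congr fun g hg => (hτ ⟨a, ha⟩ g (hHp g hg)).symm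
      rw [h9, h10, h11] at h8
      refine Cl.rule (τ x) m (H.image τ) _ ?_ ih1 ?_ h8
      · rw [← tau_mk]
        exact tau_mono hmono h1
      · intro g hg
        obtain ⟨g', hg', rfl⟩ := Finset.mem_image.1 hg
        exact ih2 g' hg'
  · -- truth
    rintro x ⟨t, ht, hx⟩ φ u
    by_cases hp : Proper x u
    swap
    · constructor
      · intro h
        exact absurd h.1 hp
      · intro h
        exact absurd ((proper_map hmono).1 h.1) hp
    have hlab : ∀ y ∈ lbl u, y < x := over_iff.1 hp.over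
    obtain ⟨a, ha, hta, -, hF⟩ := exists_jj hn ht0 hb0 ht (insert x (lbl u)) (by
      intro z hz
      rcases Finset.mem_insert.1 hz with rfl | hz
      · exact hx.le
      · exact ((hlab z hz).trans hx).le) h0
    have hxp : x ∈ a.p := hF (Finset.mem_insert_self _ _)
    have hup : ∀ y ∈ lbl u, y ∈ a.p := fun y hy => hF (Finset.mem_insert_of_mem hy)
    have hxa : x < lv a.t := hx.trans_le (lv_mono hta)
    have hx' : ee a (iv (ee a) x) = x := apply_iv (ee_mono a) (ee_p hxp)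
    have hxb : iv (ee a) x < xb a := by
      rw [← (ee_mono a).lt_iff_lt, hx', ha.va.ee_xb]
      exact hxa
    have himg : ∀ (f : Ordinal.{0} → Ordinal.{0}) (H : Finset Ordinal.{0}), ∀ g ∈ H.image f,
        g ∈ range f := by
      intro f H g hg
      obtain ⟨g', -, rfl⟩ := Finset.mem_image.1 hg
      exact mem_range_self _
    -- the forest below
    have hu : (u.map (iv (ee a))).map (ee a) = u := by
      rw [Frst.map_map]
      conv_rhs => rw [← Frst.map_id u]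
      refine Frst.map_congr (S := {y | y ∈ lbl u}) (over_iff.2 fun y hy => hy) ?_
      intro y hy
      exact apply_iv (ee_mono a) (ee_p (hup y hy))
    have e1 := tr_transfer (ee_mono a) (iv (ee a) x) (dp φ) (by
      intro y m H hy
      refine ee_clo a _ _ _ ?_ (mem_range_self _) (himg _ _)
      refine lt_loc (Or.inl ?_)
      refine lt_of_le_of_lt ?_ hxa
      rw [← hx']
      refine (ee_mono a).monotone ?_
      rcases hy with hy | ⟨rfl, -⟩
      · exact hy.le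
      · exact le_rfl) φ le_rfl (u.map (iv (ee a)))
    rw [hx', hu] at e1
    have e2 := tr_transfer hG.mono (iv (ee a) x) (dp φ) (by
      intro y m H hy
      refine hG.clo _ _ _ ?_ (mem_range_self _) (himg _ _)
      refine mk_lt.2 (Or.inl ?_)
      refine lt_of_le_of_lt (hG.mono.monotone ?_) ((hG.mono (hxb.trans (hL a ha))).trans hb)
      rcases hy with hy | ⟨rfl, -⟩
      · exact hy.le
      · exact le_rfl) φ le_rfl (u.map (iv (ee a)))
    have e3 := hLim.tr _ φ ⟨a, ha⟩ (σ (iv (ee a) x)) (hsx ⟨a, ha⟩ x (ee_p hxp) (ha.va.le x hxp)) rfl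
      (Or.inl (by rw [lift_lv]; exact hG.mono hxb)) ((u.map (iv (ee a))).map σ)
    rw [← e1, e2, e3]
    have e4 : G ⟨a, ha⟩ (σ (iv (ee a) x)) = τ x := (hτ ⟨a, ha⟩ x hxp).symm
    have e5 : ((u.map (iv (ee a))).map σ).map (G ⟨a, ha⟩) = u.map τ := by
      rw [Frst.map_map, Frst.map_map]
      refine Frst.map_congr (S := {y | y ∈ lbl u}) (over_iff.2 fun y hy => hy) ?_
      intro y hy
      exact (hτ ⟨a, ha⟩ y (hup y hy)).symm
    rw [e4, e5]
  · intro y hy
    obtain ⟨a, ha⟩ := hD y hy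
    exact hB a y ha

end

end Pool.Agent.Lib.H91W
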