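import Pool.Agent.Lib.H91W.F6
import Pool.Agent.Lib.H91W.E1

/-!
# The consequences of the lift
-/

set_option autoImplicit false

open Set Ordinal

namespace Pool.Agent.Lib.H91W

open Pool.Agent.Helper43.KK

section

variable {l b : Ordinal.{0}} {σ : Ordinal.{0} → Ordinal.{0}} {s : Loc}

/-- The collapsed levels are small as long as `b` is not singularized. -/
theorem lf_of (hb : CB b) (h : ∀ t < s, ¬ Sing LM t b) : Lf s b := by
  classical
  intro a ha
  by_contra hxb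
  rw [not_lt] at hxb
  -- a closure point
  have h1 : ∀ δ < b, ∃ x < b, ∀ y ∈ Nn a.t (Iio δ ∪ a.p), y < b → y < x := by
    intro δ hδ
    exact not_unb_iff.1 fun hn => h a.t ha.lt ⟨δ, hδ, a.p, hn⟩
  choose! f hf hf' using h1
  let d : ℕ → Ordinal.{0} := fun n => Nat.rec a.g (fun _ δ => max (f δ) δ + 1) n
  have hd1 : ∀ n, d (n + 1) = max (f (d n)) (d n) + 1 := fun n => rfl
  have hdb : ∀ n, d n < b := by
    intro n
    induction n with
    | zero => exact ha.g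
    | succ n ih =>
      rw [hd1]
      exact hb.succ _ (max_lt (hf _ ih) ih)
  obtain ⟨b', hb', hdb'⟩ := hb.bdd d hdb
  let D : Ordinal.{0} := sSup (range d)
  have hbdd : BddAbove (range d) := ⟨b', by
    rintro _ ⟨n, rfl⟩
    exact (hdb' n).le⟩
  have hdD : ∀ n, d n < D := by
    intro n
    have h2 : d n < d (n + 1) := by
      rw [hd1]
      exact (le_max_right _ _).trans_lt (Order.lt_add_one_iff.2 le_rfl)
    exact h2.trans_le (le_csSup hbdd ⟨n + 1, rfl⟩)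
  have hDb : D < b := by
    refine lt_of_le_of_lt (csSup_le (range_nonempty d) ?_) hb'
    rintro _ ⟨n, rfl⟩
    exact (hdb' n).le
  have hDx : ∀ x < D, ∃ n, x < d n := by
    intro x hx
    obtain ⟨_, ⟨n, rfl⟩, hn⟩ := exists_lt_of_lt_csSup (range_nonempty d) hx
    exact ⟨n, hn⟩
  have hD0 : 0 < D := bot_le.trans_lt (hdD 0)
  have hDs : ∀ x < D, x + 1 < D := by
    intro x hx
    obtain ⟨n, hn⟩ := hDx x hx
    exact (Order.add_one_le_of_lt hn).trans_lt (hdD n)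
  let c : Ix := ⟨a.t, D, a.p⟩
  have hcD : ∀ y ∈ Nn a.t (Iio D ∪ a.p), y < b → y < D := by
    intro y hy hyb
    obtain ⟨γ, hγ, hy'⟩ := exists_lt_of_mem (M := LM) hD0 hDs hy
    obtain ⟨n, hn⟩ := hDx γ hγ
    have h2 := hf' (d n) (hdb n) y (nn_mono le_rfl (union_subset_union_left _
      (Iio_subset_Iio hn.le)) hy') hyb
    refine (h2.trans_le ?_).trans (hdD (n + 1))
    rw [hd1]
    exact (le_max_left _ _).trans (Order.lt_add_one_iff.2 le_rfl).le
  have hac : Le a c := ⟨le_rfl, (hdD 0).le, subset_rfl⟩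
  have hc : Va c := ⟨ha.va.sp, ha.va.le⟩
  have hxc : b ≤ xb c := by
    refine hxb.trans ?_
    have h2 := hac.pm_xb ha.va
    have h3 : lv (lo a c).t = xb c := rfl
    rw [h3] at h2
    rw [← h2]
    exact (ee_mono (lo a c)).le_apply
  have ht : (lo c c).t ≤ a.t := by
    have h2 := (tau_mono (ee_mono c)).le_apply (x := (lo c c).t)
    rwa [(Le.refl c).tau_lo hc] at h2
  refine h _ (ht.trans_lt ha.lt) ⟨D, hDb, (lo c c).p, ?_⟩
  have h4 : ee c '' Nn (lo c c).t (Iio D ∪ (lo c c).p) = Nn a.t (Iio D ∪ a.p) := by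
    have h5 := nn_image (ee_mono c) (u := (lo c c).t) (by
      rw [(Le.refl c).tau_lo hc]
      exact ee_clo c) (Iio D ∪ (lo c c).p)
    rw [h5, (Le.refl c).tau_lo hc, image_set (ee_fix c) le_rfl, (Le.refl c).p_lo]
  intro x hx
  refine ⟨x, ?_, le_rfl, hx⟩
  have h6 : ee c x ≤ lv c.t := by
    rw [← hc.ee_xb]
    exact (ee_mono c).monotone (hx.le.trans hxc)
  have h7 : ee c x ∈ Nn a.t (Iio D ∪ a.p) := (mem_en_range_iff h6).1 (mem_range_self x)
  rw [← h4] at h7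
  obtain ⟨y, hy, hxy⟩ := h7
  rw [← (ee_mono c).injective hxy]
  exact hy

theorem colex_single {x : Ordinal.{0}} {H : Finset Ordinal.{0}} (h : ∀ g ∈ H, g < x) :
    toColex H < toColex ({x} : Finset Ordinal.{0}) := by
  rw [Finset.Colex.toColex_lt_toColex_iff_exists_forall_lt]
  refine ⟨x, Finset.mem_singleton_self x, fun hn => lt_irrefl _ (h x hn), fun g hg _ => h g hg⟩

theorem colex_single' {x y : Ordinal.{0}} {H : Finset Ordinal.{0}} (h : y ∈ H) (hxy : x < y) :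
    toColex ({x} : Finset Ordinal.{0}) < toColex H := by
  rw [Finset.Colex.toColex_lt_toColex_iff_exists_forall_lt]
  refine ⟨y, h, fun hn => hxy.ne (Finset.mem_singleton.1 hn).symm, fun g hg _ => ?_⟩
  rw [Finset.mem_singleton.1 hg]
  exact hxy

/-- The least location is normal. -/
theorem nm_least (hs : Least LM s b) : Nm s := by
  intro t ht
  by_cases hpr : ∀ x ∈ pr t, x ≤ lv t
  · exact ⟨t, ht, le_rfl, hpr⟩
  push Not at hpr
  obtain ⟨h, hh, hlt⟩ := hpr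
  by_cases ht' : mk (lv t) (nb t + 1) ∅ < s
  · refine ⟨_, ht', ?_, fun x hx => absurd hx (by rw [pr_mk]; simp)⟩
    rw [← mk_eta t]
    exact (mk_lt.2 (Or.inr ⟨rfl, Or.inl (Nat.lt_succ_self _)⟩)).le
  exfalso
  rw [not_lt] at ht'
  have h1 : mk (lv t) (nb t) {lv t} < s := by
    refine lt_trans ?_ ht
    conv_rhs => rw [← mk_eta t]
    exact mk_lt.2 (Or.inr ⟨rfl, Or.inr ⟨rfl, colex_single' hh hlt⟩⟩)
  obtain ⟨γ, hγ, p, hU⟩ := hs.1
  refine hs.2 _ h1 ⟨γ, hγ, p, hU.mono ?_⟩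
  refine nn_least nn_sub ?_
  intro x m H h2 h3 h4 y hy
  by_cases h5 : mk x m H < mk (lv t) (nb t) {lv t}
  · exact nn_clo _ _ x m H h5 h3 h4 hy
  · exfalso
    have h6 := mk_lt.1 (h2.trans_le ht')
    rw [mk_lt] at h5
    push Not at h5
    obtain ⟨h7, h8⟩ := h5
    rcases h6 with h6 | ⟨h6, h9⟩
    · exact absurd h6 (not_lt.2 h7)
    · have h10 := h8 h6
      have h11 : m = nb t := by
        rcases h9 with h9 | ⟨-, h9⟩
        · exact le_antisymm (Nat.lt_succ_iff.1 h9) h10.1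
        · exact absurd h9 (not_lt_bot (α := Colex (Finset Ordinal.{0})))
      have h12 := h10.2 h11
      refine absurd (colex_single (x := lv t) (H := H) ?_) (not_lt.2 h12)
      intro g hg
      rw [← h6]
      exact vl_lt ⟨y, hy⟩ g hg

/-- The least location is large. -/
theorem lt_least (hb : CB b) (hs : Sing LM s b) : mk b 0 ∅ < s := by
  by_contra hn
  rw [not_lt] at hn
  obtain ⟨γ, hγ, p, hU⟩ := hs
  have hD : Dm s ≤ b := by
    by_contra h
    rw [not_le] at h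
    exact absurd (lt_Dm.1 h) (not_lt.2 hn)
  have h1 : ¬ Unb b (Iio γ ∪ (p : Set Ordinal.{0})) :=
    not_unb_union (not_unb_Iio hγ) (not_unb_finite hb.pos hb.succ p)
  refine not_unb_union ?_ h1 (hU.mono (LM.dom s _))
  obtain ⟨x, hx, hx'⟩ := not_unb_iff.1 h1
  rw [not_unb_iff]
  refine ⟨x, hx, fun y hy hyb => ?_⟩
  rcases nn_bound (t := s) hy with h2 | ⟨z, hz, h2⟩
  · exact hx' y h2.1 hyb
  · exact h2.trans (hx' z hz.1 (lt_of_lt_of_le hz.2 hD))

/-- **The lift of a singularizing location.** -/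
theorem sing_up (hG : GM l σ) (hb : σ b < l) (hCB : CB b) (hcof : ∀ x < σ b, ∃ y < b, x ≤ σ y)
    (hs : Least LM s b) (hL : Lf s b) (hwf : ¬ (lift hG hb hL).Desc) :
    ∃ s', Sing LM s' (σ b) := by
  classical
  obtain ⟨τ, h1, h2, h3, -, B, h4⟩ := exists_star hG hb hL (nm_least hs) (lt_least hCB hs.1)
    (by rw [lv_mk]) hCB.pos hCB.succ hwf
  obtain ⟨γ, hγ, p, hU⟩ := hs.1
  refine ⟨mk B 0 ∅, σ γ, hG.mono hγ, p.image τ, ?_⟩
  intro x hx
  obtain ⟨y0, hy0, hx0⟩ := hcof x hx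
  obtain ⟨y, hy, hy1, hyb⟩ := hU y0 hy0
  obtain ⟨t, ht, hyt⟩ := (hs.lim hCB).2.1 _ y hy
  refine ⟨τ y, ?_, ?_, ?_⟩
  · refine nn_mono ?_ ?_ (h3 t ht _ y hyt)
    · refine (lt_loc (u := mk B 0 ∅) (m := nb (tau τ t)) (H := pr (tau τ t)) (Or.inl ?_)).le
      rw [lv_mk]
      exact h4 _ ⟨t, ht, le_rfl⟩
    · rintro _ ⟨z, hz | hz, rfl⟩
      · left
        show τ z < σ γ
        rw [h2 z (lt_trans hz hγ)]
        exact hG.mono hz
      · right
        rw [Finset.coe_image]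
        exact ⟨z, hz, rfl⟩
  · rw [h2 y hyb]
    exact hx0.trans (hG.mono.monotone hy1)
  · rw [h2 y hyb]
    exact hG.mono hyb

theorem nm_mk (x : Ordinal.{0}) : Nm (mk x 0 ∅) := by
  intro t ht
  have h1 : lv t < x := by
    rw [← mk_eta t, mk_lt] at ht
    rcases ht with h | ⟨-, h | ⟨-, h⟩⟩
    · exact h
    · exact absurd h (Nat.not_lt_zero _)
    · exact absurd h (not_lt_bot (α := Colex (Finset Ordinal.{0})))
  refine ⟨mk (lv t) (nb t + 1) ∅, mk_lt.2 (Or.inl h1), ?_, fun y hy => absurd hy (by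
    rw [pr_mk]
    simp)⟩
  rw [← mk_eta t]
  exact (mk_lt.2 (Or.inr ⟨rfl, Or.inl (Nat.lt_succ_self _)⟩)).le

/-- **An embedding from the lift.** -/
theorem sharp_up (hG : GM l σ) (hb : σ b < l) (hCB : CB b)
    (hb2 : b ≤ (Cardinal.aleph.{0} 2).ord) (hmv : ∃ δ < b, σ δ ≠ δ)
    (hL : Lf (mk ((Cardinal.aleph.{0} 2).ord + 1 + 1) 0 ∅) b)
    (hwf : ¬ (lift hG hb hL).Desc) : ZeroSharp := by
  set θ : Ordinal.{0} := (Cardinal.aleph.{0} 2).ord with hθ
  have hlt1 : ∀ x : Ordinal.{0}, x < x + 1 := fun x => Order.lt_add_one_iff.2 le_rfl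
  obtain ⟨τ, h1, h2, -, h3, -⟩ := exists_star hG hb hL (nm_mk _) (t0 := mk θ 0 ∅)
    (mk_lt.2 (Or.inl ((hlt1 _).trans (hlt1 _)))) (by rw [lv_mk]; exact hb2) hCB.pos hCB.succ hwf
  have h4 : ∀ y ≤ θ, TT τ y := fun y hy =>
    h3 y ⟨mk (θ + 1) 0 ∅, mk_lt.2 (Or.inl (hlt1 _)), hy.trans_lt (hlt1 _)⟩
  obtain ⟨j, hj⟩ := exists_emb h1 (h4 θ le_rfl) fun y hy => h4 y hy.le
  obtain ⟨δ, hδ, hδσ⟩ := hmv
  have hδθ : δ < θ := hδ.trans_le hb2
  have hmem : δ.toZFSet ∈ LLevel θ := by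
    rw [← nm_ord δ]
    exact nmval_mem hδθ (by simp)
  refine ⟨θ, τ θ, δ, j, hmem, ?_, ?_⟩
  · rw [hθ, Cardinal.card_ord]
    exact Cardinal.lt_ord.1 hδθ
  · rw [hj δ hδθ hmem, h2 δ hδ]
    exact fun h => hδσ (toZFSet_injective h)

end

end Pool.Agent.Lib.H91W
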