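import Pool.Agent.Lib.H91W.F7

/-!
# Closed sets of ordinals
-/

set_option autoImplicit false

open Set Ordinal

namespace Pool.Agent.Lib.H91W

open Pool.Agent.Helper43.KK

open Classical in
/-- Finitely many ordinals which generate `y`. -/
noncomputable def Fg (a : Ix) (y : Ordinal.{0}) : Finset Ordinal.{0} :=
  if h : ∃ F : Finset Ordinal.{0}, (F : Set Ordinal.{0}) ⊆ Iio a.g ∧
    y ∈ Nn a.t ((F : Set Ordinal.{0}) ∪ a.p) then h.choose else ∅

theorem fg_sub (a : Ix) (y : Ordinal.{0}) : (Fg a y : Set Ordinal.{0}) ⊆ Iio a.g := by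
  classical
  unfold Fg
  split_ifs with h
  · exact h.choose_spec.1
  · simp

theorem fg_spec {a : Ix} {y : Ordinal.{0}} (hy : y ∈ Nn a.t (Iio a.g ∪ a.p)) :
    y ∈ Nn a.t ((Fg a y : Set Ordinal.{0}) ∪ a.p) := by
  classical
  have h : ∃ F : Finset Ordinal.{0}, (F : Set Ordinal.{0}) ⊆ Iio a.g ∧
      y ∈ Nn a.t ((F : Set Ordinal.{0}) ∪ a.p) := by
    obtain ⟨F, hF, hyF⟩ := LM.fin a.t _ y hy
    refine ⟨F.filter (· < a.g), fun x hx => (Finset.mem_filter.1 hx).2, nn_mono le_rfl ?_ hyF⟩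
    intro x hx
    rcases hF hx with h1 | h1
    · exact Or.inl (Finset.mem_coe.2 (Finset.mem_filter.2 ⟨hx, h1⟩))
    · exact Or.inr h1
  unfold Fg
  rw [dif_pos h]
  exact h.choose_spec.2

/-- The Skolem functions. -/
def SkR (F : Set Ordinal.{0}) : Set Ordinal.{0} :=
  {y | ∃ a : Ix, (od a : Set Ordinal.{0}) ⊆ F ∧ ∃ ξ ∈ F, y = ee a ξ ∨ y = iv (ee a) ξ ∨ y ∈ Fg a ξ} ∪
  {y | ∃ x ∈ F, ∃ m, ∃ G : Finset Ordinal.{0}, (G : Set Ordinal.{0}) ⊆ F ∧ y ∈ Vl x m G}

/-- The set `X` is closed under the Skolem functions. -/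
def Cs (X : Set Ordinal.{0}) : Prop := SkR X ⊆ X

theorem skr_mono {F F' : Set Ordinal.{0}} (h : F ⊆ F') : SkR F ⊆ SkR F' := by
  rintro y (⟨a, h1, ξ, h2, h3⟩ | ⟨x, h1, m, G, h2, h3⟩)
  · exact Or.inl ⟨a, h1.trans h, ξ, h h2, h3⟩
  · exact Or.inr ⟨x, h h1, m, G, h2.trans h, h3⟩

theorem skr_countable {F : Set Ordinal.{0}} (hF : F.Countable) : (SkR F).Countable := by
  have hcount : {G : Finset Ordinal.{0} | (G : Set Ordinal.{0}) ⊆ F}.Countable := by
    have h5 := (Set.countable_ofPred_finite_subset hF).preimage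
      (f := fun F : Finset Ordinal.{0} => (F : Set Ordinal.{0})) Finset.coe_injective
    refine h5.mono ?_
    intro F hF
    exact ⟨F.finite_toSet, hF⟩
  have hix : {a : Ix | (od a : Set Ordinal.{0}) ⊆ F}.Countable := by
    have h1 : {a : Ix | (od a : Set Ordinal.{0}) ⊆ F} ⊆
        (fun z : Ordinal.{0} × ℕ × Finset Ordinal.{0} × Ordinal.{0} × Finset Ordinal.{0} =>
          (⟨mk z.1 z.2.1 z.2.2.1, z.2.2.2.1, z.2.2.2.2⟩ : Ix)) ''
        (F ×ˢ (univ : Set ℕ) ×ˢ {G : Finset Ordinal.{0} | (G : Set Ordinal.{0}) ⊆ F} ×ˢ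
          F ×ˢ {G : Finset Ordinal.{0} | (G : Set Ordinal.{0}) ⊆ F}) := by
      intro a ha
      refine ⟨(lv a.t, nb a.t, pr a.t, a.g, a.p), ⟨?_, mem_univ _, ?_, ?_, ?_⟩, rfl⟩
      · exact ha (od_lv a)
      · intro x hx
        exact ha (od_sp (Finset.mem_insert_of_mem hx))
      · exact ha (od_g a)
      · intro x hx
        exact ha (od_p hx)
    refine Countable.mono h1 (Countable.image ?_ _)
    exact hF.prod (countable_univ.prod (hcount.prod (hF.prod hcount)))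
  have h2 : SkR F ⊆ (⋃ a ∈ {a : Ix | (od a : Set Ordinal.{0}) ⊆ F}, ⋃ ξ ∈ F,
      ({ee a ξ} ∪ {iv (ee a) ξ} ∪ (Fg a ξ : Set Ordinal.{0}))) ∪
      ⋃ x ∈ F, ⋃ m : ℕ, ⋃ G ∈ {G : Finset Ordinal.{0} | (G : Set Ordinal.{0}) ⊆ F}, Vl x m G := by
    rintro y (⟨a, h1, ξ, h2, h3⟩ | ⟨x, h1, m, G, h2, h3⟩)
    · left
      simp only [mem_iUnion]
      refine ⟨a, h1, ξ, h2, ?_⟩
      rcases h3 with h3 | h3 | h3
      · exact Or.inl (Or.inl h3)
      · exact Or.inl (Or.inr h3)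
      · exact Or.inr h3
    · right
      simp only [mem_iUnion]
      exact ⟨x, h1, m, G, h2, h3⟩
  refine Countable.mono h2 (Countable.union ?_ ?_)
  · refine hix.biUnion fun a _ => hF.biUnion fun ξ _ => ?_
    exact ((countable_singleton _).union (countable_singleton _)).union (Fg a ξ).countable_toSet
  · exact hF.biUnion fun x _ => countable_iUnion fun m => hcount.biUnion fun G _ => vl_countable x m G

theorem skr_fin {F : Set Ordinal.{0}} {y : Ordinal.{0}} (h : y ∈ SkR F) :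
    ∃ F' : Finset Ordinal.{0}, (F' : Set Ordinal.{0}) ⊆ F ∧ y ∈ SkR F' := by
  classical
  rcases h with ⟨a, h1, ξ, h2, h3⟩ | ⟨x, h1, m, G, h2, h3⟩
  · refine ⟨insert ξ (od a), ?_, Or.inl ⟨a, ?_, ξ, ?_, h3⟩⟩
    · rw [Finset.coe_insert]
      exact insert_subset h2 h1
    · rw [Finset.coe_insert]
      exact subset_insert _ _
    · exact Finset.mem_coe.2 (Finset.mem_insert_self _ _)
  · refine ⟨insert x G, ?_, Or.inr ⟨x, ?_, m, G, ?_, h3⟩⟩
    · rw [Finset.coe_insert]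
      exact insert_subset h1 h2
    · exact Finset.mem_coe.2 (Finset.mem_insert_self _ _)
    · rw [Finset.coe_insert]
      exact subset_insert _ _

/-- The closure. -/
def gcl (Y : Set Ordinal.{0}) : Set Ordinal.{0} := ⋂₀ {X | Y ⊆ X ∧ Cs X}

theorem sub_gcl {Y : Set Ordinal.{0}} : Y ⊆ gcl Y := fun _ hy _ hX => hX.1 hy

theorem cs_gcl (Y : Set Ordinal.{0}) : Cs (gcl Y) := by
  intro y hy X hX
  exact hX.2 (skr_mono (sInter_subset_of_mem hX) hy)

theorem gcl_min {Y X : Set Ordinal.{0}} (h : Y ⊆ X) (hX : Cs X) : gcl Y ⊆ X :=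
  sInter_subset_of_mem ⟨h, hX⟩

theorem cs_iUnion {ι : Type*} [LinearOrder ι] (X : ι → Set Ordinal.{0}) (hX : Monotone X)
    (h : ∀ i, ∃ j, i ≤ j ∧ Cs (X j)) : Cs (⋃ i, X i) := by
  classical
  intro y hy
  obtain ⟨F, hF, hyF⟩ := skr_fin hy
  have h1 : F = ∅ ∨ ∃ i, (F : Set Ordinal.{0}) ⊆ X i := by
    clear hyF
    induction F using Finset.induction_on with
    | empty => exact Or.inl rfl
    | insert a F _ ih =>
      right
      rw [Finset.coe_insert] at hF
      obtain ⟨i, hi⟩ := mem_iUnion.1 (hF (mem_insert _ _))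
      rcases ih ((subset_insert _ _).trans hF) with rfl | ⟨j, hj⟩
      · refine ⟨i, ?_⟩
        intro x hx
        rw [Finset.coe_insert, Finset.coe_empty] at hx
        rcases hx with rfl | hx
        · exact hi
        · exact absurd hx (notMem_empty _)
      · refine ⟨max i j, ?_⟩
        rw [Finset.coe_insert]
        exact insert_subset (hX (le_max_left _ _) hi) (hj.trans (hX (le_max_right _ _)))
  rcases h1 with rfl | ⟨i, hi⟩
  · exfalso
    rw [Finset.coe_empty] at hyF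
    rcases hyF with ⟨a, -, ξ, h2, -⟩ | ⟨x, h1, -⟩
    · exact h2
    · exact h1
  · obtain ⟨j, hij, hj⟩ := h i
    exact mem_iUnion.2 ⟨j, hj (skr_mono (hi.trans (hX hij)) hyF)⟩

theorem gcl_countable {Y : Set Ordinal.{0}} (hY : Y.Countable) : (gcl Y).Countable := by
  let step : Set Ordinal.{0} → Set Ordinal.{0} := fun Z => Z ∪ SkR Z
  let Z : ℕ → Set Ordinal.{0} := fun n => step^[n] Y
  have hZ : ∀ n, Z (n + 1) = Z n ∪ SkR (Z n) := fun n => Function.iterate_succ_apply' step n Y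
  have hZc : ∀ n, (Z n).Countable := by
    intro n
    induction n with
    | zero => exact hY
    | succ n ih =>
      rw [hZ]
      exact ih.union (skr_countable ih)
  have hZm : Monotone Z := monotone_nat_of_le_succ fun n => by
    rw [hZ]
    exact subset_union_left
  refine (countable_iUnion hZc).mono (gcl_min (subset_iUnion Z 0) ?_)
  classical
  intro y hy
  obtain ⟨F, hF, hyF⟩ := skr_fin hy
  have h1 : ∃ n, (F : Set Ordinal.{0}) ⊆ Z n := by
    clear hyF
    induction F using Finset.induction_on with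
    | empty => exact ⟨0, by simp⟩
    | insert a F _ ih =>
      rw [Finset.coe_insert] at hF
      obtain ⟨i, hi⟩ := mem_iUnion.1 (hF (mem_insert _ _))
      obtain ⟨j, hj⟩ := ih ((subset_insert _ _).trans hF)
      refine ⟨max i j, ?_⟩
      rw [Finset.coe_insert]
      exact insert_subset (hZm (le_max_left _ _) hi) (hj.trans (hZm (le_max_right _ _)))
  obtain ⟨n, hn⟩ := h1
  refine mem_iUnion.2 ⟨n + 1, ?_⟩
  rw [hZ]
  exact Or.inr (skr_mono hn hyF)

/-! ## Additively indecomposable ordinals -/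

/-- `l` is an additively indecomposable ordinal, greater than `1`. -/
structure Pl (l : Ordinal.{0}) : Prop where
  add : IsPrincipal (· + ·) l
  one : 1 < l

theorem Pl.succ {l : Ordinal.{0}} (h : Pl l) {x : Ordinal.{0}} (hx : x < l) : x + 1 < l :=
  h.add hx h.one

theorem exists_pl (x : Ordinal.{0}) : ∃ l, x < l ∧ Pl l := by
  refine ⟨Ordinal.omega0 ^ (x + 1), ?_, isPrincipal_add_omega0_opow _, ?_⟩
  · exact (Order.lt_add_one_iff.2 le_rfl).trans_le (right_le_opow _ one_lt_omega0)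
  · calc (1 : Ordinal.{0}) < Ordinal.omega0 := one_lt_omega0
      _ = Ordinal.omega0 ^ (1 : Ordinal.{0}) := (opow_one _).symm
      _ ≤ _ := opow_le_opow_right omega0_pos (le_add_left le_rfl)

variable {l : Ordinal.{0}}

theorem ee_lt (hl : Pl l) {a : Ix} (ha : lv a.t < l) {ξ : Ordinal.{0}} (hξ : ξ < l) :
    ee a ξ < l := (en_le ξ).trans_lt (hl.add (hl.succ ha) hξ)

theorem ee_ge (hl : Pl l) {a : Ix} (ha : lv a.t < l) {ξ : Ordinal.{0}} (hξ : l ≤ ξ) :
    ee a ξ = ξ := by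
  refine le_antisymm ?_ (ee_mono a).le_apply
  have h1 := hl.add.add_eq_right_of_le (hl.succ ha) hξ
  calc ee a ξ ≤ lv a.t + 1 + ξ := en_le ξ
    _ = ξ := h1

theorem iv_le (a : Ix) (ξ : Ordinal.{0}) : iv (ee a) ξ ≤ ξ :=
  csInf_le' (show ξ ≤ ee a ξ from (ee_mono a).le_apply)

theorem cs_iio (hl : Pl l) : Cs (Iio l) := by
  rintro y (⟨a, h1, ξ, h2, h3⟩ | ⟨x, h1, m, G, h2, h3⟩)
  · rcases h3 with rfl | rfl | h3
    · exact ee_lt hl (h1 (od_lv a)) h2
    · exact (iv_le a ξ).trans_lt h2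
    · exact (show y < a.g from fg_sub a ξ h3).trans (show a.g < l from h1 (od_g a))
  · exact (vl_lt_level h3).trans h1

end Pool.Agent.Lib.H91W
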