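import Pool.Agent.Lib.H91W.F8

/-!
# The maps of closed sets
-/

set_option autoImplicit false

open Set Ordinal

namespace Pool.Agent.Lib.H91W

open Pool.Agent.Helper43.KK

/-- The enumeration of a set of ordinals below `l`, followed by the ordinals from `l` on. -/
noncomputable def sg (l : Ordinal.{0}) (X : Set Ordinal.{0}) : Ordinal.{0} → Ordinal.{0} :=
  enumOrd (X ∪ Ici l)

variable {l : Ordinal.{0}} {X : Set Ordinal.{0}}

theorem sg_mono : StrictMono (sg l X) := enumOrd_strictMono (not_bdd_ici _ _)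

theorem sg_range : range (sg l X) = X ∪ Ici l := range_enumOrd (not_bdd_ici _ _)

theorem sg_mem {x : Ordinal.{0}} (h : sg l X x < l) : sg l X x ∈ X := by
  have h1 : sg l X x ∈ range (sg l X) := mem_range_self x
  rw [sg_range] at h1
  exact h1.resolve_right fun h2 => absurd h (not_lt.2 h2)

theorem mem_sg {x : Ordinal.{0}} (h : x ∈ X) : x ∈ range (sg l X) := by
  rw [sg_range]
  exact Or.inl h

/-- **The map of a closed set.** -/
theorem gm_of (hl : Pl l) (hX : Cs X) : GM l (sg l X) := by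
  classical
  have hmem : ∀ {x}, sg l X x < l → sg l X x ∈ X := fun h => sg_mem h
  have hinX : ∀ x < l, x ∈ range (sg l X) → x ∈ X := by
    rintro _ h ⟨y, rfl⟩
    exact sg_mem h
  have hge : ∀ x, l ≤ x → x ∈ range (sg l X) := by
    intro x hx
    rw [sg_range]
    exact Or.inr hx
  have hclo : Clo Vl (mk l 0 ∅) (range (sg l X)) := by
    intro x m G h1 h2 h3 y hy
    have hxl : x < l := by
      rw [mk_lt] at h1
      rcases h1 with h | ⟨-, h | ⟨-, h⟩⟩
      · exact h
      · exact absurd h (Nat.not_lt_zero _)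
      · exact absurd h (not_lt_bot (α := Colex (Finset Ordinal.{0})))
    have hG : ∀ g ∈ G, g < x := vl_lt ⟨y, hy⟩
    refine mem_sg (hX (Or.inr ⟨x, hinX x hxl h2, m, G, ?_, hy⟩))
    intro g hg
    exact hinX g ((hG g hg).trans hxl) (h3 g hg)
  -- the hulls
  have hsm : ∀ a : Ix, (∀ x ∈ od a, sg l X x < l) →
      Clo Vl (tau (sg l X) a.t) (range (sg l X)) := by
    intro a ha
    refine hclo.mono (lt_loc (u := mk l 0 ∅) (m := nb (tau (sg l X) a.t))
      (H := pr (tau (sg l X) a.t)) (Or.inl ?_)).le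
    exact ha _ (od_lv a)
  have hodX : ∀ a : Ix, (∀ x ∈ od a, sg l X x < l) → (od (imx (sg l X) a) : Set Ordinal.{0}) ⊆ X := by
    intro a ha x hx
    rw [od_imx] at hx
    obtain ⟨y, hy, rfl⟩ := Finset.mem_image.1 (Finset.mem_coe.1 hx)
    exact hmem (ha y hy)
  have hT1 : ∀ a : Ix, (∀ x ∈ od a, sg l X x < l) → ∀ y, y ∈ Nn a.t (Iio a.g ∪ a.p) →
      sg l X y ∈ Nn (tau (sg l X) a.t) (Iio (sg l X a.g) ∪ (a.p.image (sg l X) :
        Finset Ordinal.{0})) := by
    intro a ha y hy
    have h1 : sg l X y ∈ sg l X '' Nn a.t (Iio a.g ∪ a.p) := ⟨y, hy, rfl⟩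
    rw [nn_image sg_mono (hsm a ha)] at h1
    refine nn_mono le_rfl ?_ h1
    rintro _ ⟨z, hz | hz, rfl⟩
    · exact Or.inl (sg_mono hz)
    · right
      rw [Finset.coe_image]
      exact ⟨z, hz, rfl⟩
  have hT2 : ∀ a : Ix, (∀ x ∈ od a, sg l X x < l) → ∀ y, sg l X y < l →
      sg l X y ∈ Nn (tau (sg l X) a.t) (Iio (sg l X a.g) ∪ (a.p.image (sg l X) :
        Finset Ordinal.{0})) → y ∈ Nn a.t (Iio a.g ∪ a.p) := by
    intro a ha y hyl hy
    have h1 := fg_spec (a := imx (sg l X) a) (y := sg l X y) hy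
    have h2 : (Fg (imx (sg l X) a) (sg l X y) : Set Ordinal.{0}) ⊆ X := by
      intro z hz
      exact hX (Or.inl ⟨imx (sg l X) a, hodX a ha, sg l X y, hmem hyl, Or.inr (Or.inr hz)⟩)
    obtain ⟨F, hF⟩ := StrictMono.exists_image (σ := sg l X)
      (p := Fg (imx (sg l X) a) (sg l X y)) (h2.trans fun z hz => mem_sg hz)
    rw [← hF] at h1
    have h3 : ((F.image (sg l X) : Finset Ordinal.{0}) : Set Ordinal.{0}) ∪
        ((imx (sg l X) a).p : Set Ordinal.{0}) = sg l X '' ((F : Set Ordinal.{0}) ∪ a.p) := by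
      rw [image_union, Finset.coe_image]
      congr 1
      exact Finset.coe_image
    rw [h3] at h1
    change sg l X y ∈ Nn (tau (sg l X) a.t) _ at h1
    rw [← nn_image sg_mono (hsm a ha)] at h1
    obtain ⟨y', hy', h4⟩ := h1
    rw [← sg_mono.injective h4]
    refine nn_mono le_rfl (union_subset_union_left _ ?_) hy'
    intro z hz
    have h5 : sg l X z ∈ Fg (imx (sg l X) a) (sg l X y) := by
      rw [← hF]
      exact Finset.mem_image_of_mem _ hz
    exact sg_mono.lt_iff_lt.1 (fg_sub _ _ h5)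
  refine ⟨sg_mono, hclo, ?_⟩
  intro a ha
  have hlv : lv (imx (sg l X) a).t < l := ha _ (od_lv a)
  have hrg : ∀ z, z ∈ range (ee (imx (sg l X) a)) ↔ z ∈ Nn (tau (sg l X) a.t)
      (Iio (sg l X a.g) ∪ (a.p.image (sg l X) : Finset Ordinal.{0})) ∪
        Ici (sg l X (lv a.t) + 1) := by
    intro z
    unfold ee
    rw [en_range]
    exact Iff.rfl
  have hrg' : ∀ z, z ∈ range (ee a) ↔ z ∈ Nn a.t (Iio a.g ∪ a.p) ∪ Ici (lv a.t + 1) := by
    intro z
    unfold ee
    rw [en_range]
  have key : (fun ξ => sg l X (ee a ξ)) = fun ξ => ee (imx (sg l X) a) (sg l X ξ) := by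
    refine eq_of_range' (sg_mono.comp (ee_mono a)) ((ee_mono _).comp sg_mono) ?_
    ext z
    constructor
    · rintro ⟨ξ, rfl⟩
      show sg l X (ee a ξ) ∈ _
      have h1 : sg l X (ee a ξ) ∈ range (ee (imx (sg l X) a)) := by
        rw [hrg]
        rcases (hrg' _).1 (mem_range_self ξ) with h2 | h2
        · exact Or.inl (hT1 a ha _ h2)
        · right
          exact Order.add_one_le_of_lt (sg_mono ((Order.lt_add_one_iff.2 le_rfl).trans_le h2))
      obtain ⟨ζ, hζ⟩ := h1
      rw [← hζ]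
      have h3 : ζ ∈ range (sg l X) := by
        by_cases h4 : ζ < l
        · have h5 : sg l X (ee a ξ) < l := by
            rw [← hζ]
            exact ee_lt hl hlv h4
          have h6 : iv (ee (imx (sg l X) a)) (sg l X (ee a ξ)) = ζ := by
            rw [← hζ, iv_apply (ee_mono _)]
          rw [← h6]
          exact mem_sg (hX (Or.inl ⟨imx (sg l X) a, hodX a ha, _, hmem h5, Or.inr (Or.inl rfl)⟩))
        · exact hge _ (not_lt.1 h4)
      obtain ⟨ζ', rfl⟩ := h3
      exact ⟨ζ', rfl⟩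
    · rintro ⟨ξ, rfl⟩
      show ee (imx (sg l X) a) (sg l X ξ) ∈ _
      by_cases h1 : sg l X ξ < l
      · have h2 : ee (imx (sg l X) a) (sg l X ξ) ∈ X :=
          hX (Or.inl ⟨imx (sg l X) a, hodX a ha, _, hmem h1, Or.inl rfl⟩)
        obtain ⟨y, hy⟩ := mem_sg (l := l) h2
        have hyl : sg l X y < l := by
          rw [hy]
          exact ee_lt hl hlv h1
        rw [← hy]
        have h3 : y ∈ range (ee a) := by
          rw [hrg']
          have h4 : sg l X y ∈ range (ee (imx (sg l X) a)) := by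
            rw [hy]
            exact mem_range_self _
          rcases (hrg _).1 h4 with h5 | h5
          · exact Or.inl (hT2 a ha y hyl h5)
          · right
            have h6 : sg l X (lv a.t) < sg l X y := (Order.lt_add_one_iff.2 le_rfl).trans_le h5
            exact Order.add_one_le_of_lt (sg_mono.lt_iff_lt.1 h6)
        obtain ⟨y', rfl⟩ := h3
        exact ⟨y', rfl⟩
      · have h2 := not_lt.1 h1
        rw [ee_ge hl hlv h2]
        have h3 : ξ ∈ range (ee a) := by
          rw [hrg']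
          right
          have h6 : sg l X (lv a.t) < sg l X ξ := hlv.trans_le h2
          exact Order.add_one_le_of_lt (sg_mono.lt_iff_lt.1 h6)
        obtain ⟨ξ', rfl⟩ := h3
        exact ⟨ξ', rfl⟩
  intro ξ
  exact congrFun key ξ

end Pool.Agent.Lib.H91W
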