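import Pool.Agent.Lib.H91W.F11

/-!
# Every counterexample gives `0^♯`
-/

set_option autoImplicit false

open Set Ordinal

namespace Pool.Agent.Lib.H91W

open Pool.Agent.Lib.H45Osc (w1 isOmega1_W)

/-- The least counterexample, with the fine machine. -/
theorem least' {κ : Cardinal.{0}} (h : ¬ Posed κ) (hm : ∀ l < κ, Posed l) :
    ∀ C, IsClubIn κ.ord C → ∃ β ∈ C, β < κ.ord ∧ (∃ g, NC g β) ∧ ∀ s, ¬ Sing LM s β := by
  obtain ⟨δ, hδ, hmin⟩ := WellFounded.has_min (wellFounded_lt (α := Ordinal.{0})) {δ | ¬ PN δ}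
    ⟨κ.ord, fun hn => h hn.posed⟩
  have hW : ∀ δ' < δ, PN δ' := fun δ' h => by
    by_contra hn
    exact hmin δ' hn h
  have hδκ : δ ≤ κ.ord := not_lt.1 (hmin κ.ord fun hn => h hn.posed)
  rcases pn_step hW with h1 | ⟨μ, hμ, hμ1, rfl⟩
  · exact absurd h1 hδ
  have hμκ : μ = κ := by
    refine le_antisymm (Cardinal.ord_le_ord.1 hδκ) ?_
    by_contra hn
    rw [not_le] at hn
    exact hδ (hm μ hn).pn
  subst hμκ
  intro C hC
  by_contra hn
  push Not at hn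
  refine hδ (pn_club ?_ hC hW ?_)
  · intro g hg
    have h1 := hg.cof_eq
    rw [hμ.cof_ord] at h1
    exact absurd h1 hμ1.ne'
  · rintro β hβ hβμ hg
    exact hn β hβ hβμ hg

/-- **Every counterexample gives `0^♯`.** -/
theorem zeroSharp_all {κ : Cardinal.{0}} (h : ¬ Posed κ) : ZeroSharp := by
  obtain ⟨μ, hμ, hmin⟩ := WellFounded.has_min (wellFounded_lt (α := Cardinal.{0})) {κ | ¬ Posed κ}
    ⟨κ, h⟩
  have hm : ∀ l < μ, Posed l := fun l hl => by
    by_contra hn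
    exact hmin l hn hl
  obtain ⟨hreg, hμ1, -⟩ := least hμ hm
  have h2 : Cardinal.aleph 2 ≤ μ := by
    have h3 : (1 + 1 : Ordinal.{0}) = 2 := one_add_one_eq_two
    rw [← h3, ← Cardinal.succ_aleph]
    exact Order.succ_le_of_lt hμ1
  rcases h2.eq_or_lt with h3 | h3
  · subst h3
    exact zeroSharp_of hμ
  have hθ : (Cardinal.aleph.{0} 2).ord < μ.ord := Cardinal.ord_lt_ord.2 h3
  have hlim : ∀ x < μ.ord, x + 1 < μ.ord := fun x hx =>
    (Cardinal.isSuccLimit_ord hreg.aleph0_le).add_one_lt hx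
  obtain ⟨β, hβ, -, ⟨g, hg⟩, hns⟩ := least' hμ hm {y | (Cardinal.aleph.{0} 2).ord ≤ y} ⟨by
    intro x hx
    refine ⟨max x (Cardinal.aleph.{0} 2).ord + 1, ?_, ?_, hlim _ (max_lt hx hθ)⟩
    · show (Cardinal.aleph.{0} 2).ord ≤ max x (Cardinal.aleph.{0} 2).ord + 1
      exact ((le_max_right _ _).trans_lt (Order.lt_add_one_iff.2 le_rfl)).le
    · exact (le_max_left _ _).trans_lt (Order.lt_add_one_iff.2 le_rfl), by
    intro δ _ hδ0 h
    obtain ⟨y, hy, -, hy'⟩ := h 0 (pos_iff_ne_zero.2 hδ0)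
    exact (show (Cardinal.aleph.{0} 2).ord ≤ y from hy).trans hy'.le⟩
  exact covering hg hβ hns

end Pool.Agent.Lib.H91W
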